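import Pool.Agent.H890R2.TOR.Defs
set_option autoImplicit false

/-! Entropies of linear images that appear in the endgame. -/

open scoped Classical

namespace H890.TOR

open H137.PFR

variable {V : Type*} [AddCommGroup V] [Fintype V]

/-- `H(q - p, q + Z)`, `q, p ~ ρ`, `Z ~ z` -/
noncomputable def AA1 (ρ z : V → ℝ) : ℝ :=
  H (prod (prod ρ ρ) z) (fun x : (V × V) × V => (x.1.1 - x.1.2, x.1.1 + x.2))

/-- `H(q - p, q + s₁, q + s₂)`, `q, p ~ ρ`, `sᵢ ~ z` -/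
noncomputable def AA2 (ρ z : V → ℝ) : ℝ :=
  H (prod (prod ρ ρ) (prod z z))
    (fun x : (V × V) × (V × V) => (x.1.1 - x.1.2, x.1.1 + x.2.1, x.1.1 + x.2.2))

/-- `H(q - p, q + s₁, q + s₂, q + s₃, q + s₄)`, `q, p ~ ρ`, `sᵢ ~ z` -/
noncomputable def AA4 (ρ z : V → ℝ) : ℝ :=
  H (prod (prod ρ ρ) (prod (prod z z) (prod z z)))
    (fun x : (V × V) × ((V × V) × (V × V)) => (x.1.1 - x.1.2,
      (x.1.1 + x.2.1.1, x.1.1 + x.2.1.2), (x.1.1 + x.2.2.1, x.1.1 + x.2.2.2)))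

/-- `H(q + s₁, q + s₂)`, `q ~ ρ`, `sᵢ ~ z` -/
noncomputable def EE (ρ z : V → ℝ) : ℝ :=
  H (prod ρ (prod z z)) (fun x : V × (V × V) => (x.1 + x.2.1, x.1 + x.2.2))

/-- `H(x₁ + x₁', x₁ + x₂, x₁' + x₂')`, with `x = ((x₁, x₂), (x₁', x₂'))`, all `~ ρ` -/
noncomputable def E4 (ρ : V → ℝ) : ℝ :=
  H (prod (prod ρ ρ) (prod ρ ρ))
    (fun x : (V × V) × (V × V) => (x.1.1 + x.2.1, x.1.1 + x.1.2, x.2.1 + x.2.2))

/-- `H((x₁ + x₂) + (x₁ + x₁'), x₁ + x₂ + (x₁' + x₂'))`, with `x = ((x₁, x₂), (x₁', x₂'))` -/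
noncomputable def E3 (ρ : V → ℝ) : ℝ :=
  H (prod (prod ρ ρ) (prod ρ ρ))
    (fun x : (V × V) × (V × V) => (x.1.1 + x.1.2 + (x.1.1 + x.2.1),
      x.1.1 + x.1.2 + (x.2.1 + x.2.2)))

end H890.TOR
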