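import Pool.Agent.H137R2.PFR.Basic
import Pool.Agent.H137R2.PFR.Kvm
import Pool.Agent.H137R2.PFR.Indep
import Pool.Agent.H137R2.PFR.Hundred
import Pool.Agent.H890R2.TOR.Defs2
set_option autoImplicit false

/-! algebra of laws: dil, conv, dlt, push of products (team helper890, Marton in exponent `m` with exponent `O(log m)`). -/

open scoped Classical
open scoped Pointwise
set_option linter.unusedSectionVars false

namespace H890.TOR

open H137.PFR

variable {Ω Ω' α β γ δ : Type*} [Fintype Ω] [Fintype Ω'] [Fintype α] [Fintype β] [Fintype γ]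
  [Fintype δ]
variable {V : Type*} [AddCommGroup V] [Fintype V]

theorem law_dil {μ : V → ℝ} (hμ : Law μ) (c : ℤ) : Law (dil c μ) := law_push hμ _

theorem law_dlt : Law (dlt : V → ℝ) := by
  refine ⟨fun x => ?_, ?_⟩
  · unfold dlt; split_ifs <;> norm_num
  · unfold dlt; simp

theorem prod_push (w : Ω → ℝ) (w' : Ω' → ℝ) (X : Ω → α) (Y : Ω' → β) :
    prod (push w X) (push w' Y) = push (prod w w') (fun p => (X p.1, Y p.2)) := by
  funext p
  obtain ⟨a, b⟩ := p
  rw [push_prod]
  rfl

theorem H_push (w : Ω → ℝ) (X : Ω → α) (f : α → β) :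
    H (push w X) f = H w (fun ω => f (X ω)) := by
  unfold H
  rw [push_push]

/-- replacing variables by their laws -/
theorem H_prod_push (w : Ω → ℝ) (w' : Ω' → ℝ) (X : Ω → α) (Y : Ω' → β) (f : α × β → γ) :
    H (prod (push w X) (push w' Y)) f = H (prod w w') (fun p => f (X p.1, Y p.2)) := by
  rw [prod_push, H_push]

theorem ALG1_prod_id (a b : V → ℝ) (X : V → α) :
    prod a (push b X) = push (prod a b) (fun p => (p.1, X p.2)) := by
  have h := prod_push a b (fun x : V => x) X
  rw [push_id'] at h
  exact h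

theorem conv_assoc (a b c : V → ℝ) : conv (conv a b) c = conv a (conv b c) := by
  funext v
  rw [Hundred.conv_apply, Hundred.conv_apply']
  have h1 : ∀ y, c y * conv a b (v - y) = ∑ x, a x * (c y * b (v - y - x)) := by
    intro y
    rw [Hundred.conv_apply', Finset.mul_sum]
    exact Finset.sum_congr rfl fun x _ => by ring
  have h2 : ∀ x, a x * conv b c (v - x) = ∑ y, a x * (c y * b (v - y - x)) := by
    intro x
    rw [Hundred.conv_apply, Finset.mul_sum]
    refine Finset.sum_congr rfl fun y _ => ?_
    rw [show v - x - y = v - y - x by abel]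
  rw [Finset.sum_congr rfl fun y _ => h1 y, Finset.sum_congr rfl fun x _ => h2 x,
    Finset.sum_comm]

theorem conv_dlt (a : V → ℝ) : conv a dlt = a := by
  funext v
  rw [Hundred.conv_apply]
  unfold dlt
  simp

theorem dlt_conv (a : V → ℝ) : conv dlt a = a := by
  rw [conv_comm, conv_dlt]

theorem dil_conv (c : ℤ) (a b : V → ℝ) : dil c (conv a b) = conv (dil c a) (dil c b) := by
  unfold dil conv
  rw [prod_push, push_push, push_push]
  congr 1
  funext p
  exact smul_add _ _ _

theorem dil_dil (c d : ℤ) (a : V → ℝ) : dil c (dil d a) = dil (c * d) a := by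
  unfold dil
  rw [push_push]
  congr 1
  funext x
  rw [smul_smul]

theorem dil_one (a : V → ℝ) : dil 1 a = a := by
  unfold dil
  simp only [one_smul]
  exact push_id' a

theorem ALG1_dlt_push (a : V → ℝ) (ha : ∑ x, a x = 1) : push a (fun _ => (0 : V)) = dlt := by
  funext v
  unfold push dlt
  by_cases hv : v = 0
  · simp [hv, ha]
  · simp [hv, Ne.symm hv]

theorem dil_dlt (c : ℤ) : dil c (dlt : V → ℝ) = dlt := by
  funext v
  unfold dil push dlt
  rw [Finset.sum_eq_single (0 : V)]
  · simp only [smul_zero, if_true]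
    simp only [eq_comm]
  · intro b _ hb
    simp [hb]
  · simp

theorem dil_zero {a : V → ℝ} (ha : Law a) : dil 0 a = dlt := by
  unfold dil
  simp only [zero_smul]
  exact ALG1_dlt_push a ha.2

theorem ent_dlt : ent (dlt : V → ℝ) = 0 := by
  unfold ent dlt
  refine Finset.sum_eq_zero fun x _ => ?_
  split_ifs
  · exact Real.negMulLog_one
  · exact Real.negMulLog_zero

theorem ent_dil_neg (a : V → ℝ) : ent (dil (-1) a) = ent a := by
  have h1 : ∀ x, dil (-1) a x = a (-x) := by
    intro x
    unfold dil push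
    rw [Finset.sum_eq_single (-x)]
    · simp
    · intro b _ hb
      rw [if_neg]
      intro h
      apply hb
      rw [← h]; simp
    · simp
  unfold ent
  rw [Finset.sum_congr rfl fun x _ => by rw [h1 x]]
  exact Equiv.sum_comp (Equiv.neg V) (fun x => Real.negMulLog (a x))

theorem dil_mod {m : ℕ} (hm : ∀ x : V, m • x = 0) (c : ℕ) (a : V → ℝ) :
    dil (c : ℤ) a = dil ((c % m : ℕ) : ℤ) a := by
  unfold dil
  congr 1
  funext x
  rw [natCast_zsmul, natCast_zsmul]
  conv_lhs => rw [← Nat.div_add_mod c m, add_smul, mul_comm, mul_smul, hm, smul_zero, zero_add]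

end H890.TOR
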