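import Pool.Agent.H890R2.TOR.ALG1
set_option autoImplicit false

/-! algebra of laws: cpow, Bl, Yl (team helper890, Marton in exponent `m` with exponent `O(log m)`). -/

open scoped Classical
open scoped Pointwise
set_option linter.unusedSectionVars false

namespace H890.TOR

open H137.PFR

variable {Ω Ω' α β γ δ : Type*} [Fintype Ω] [Fintype Ω'] [Fintype α] [Fintype β] [Fintype γ]
  [Fintype δ]
variable {V : Type*} [AddCommGroup V] [Fintype V]

theorem law_cpow {μ : V → ℝ} (hμ : Law μ) (n : ℕ) : Law (cpow μ n) := by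
  induction n with
  | zero => exact law_dlt
  | succ n ih => exact law_conv ih hμ

theorem cpow_one (μ : V → ℝ) : cpow μ 1 = μ := dlt_conv μ

theorem cpow_add (μ : V → ℝ) (a b : ℕ) :
    cpow μ (a + b) = conv (cpow μ a) (cpow μ b) := by
  induction b with
  | zero => exact (conv_dlt _).symm
  | succ b ih =>
    show conv (cpow μ (a + b)) μ = conv (cpow μ a) (conv (cpow μ b) μ)
    rw [ih, conv_assoc]

theorem ALG2_conv4 (a b c d : V → ℝ) :
    conv (conv a b) (conv c d) = conv (conv a c) (conv b d) := by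
  rw [conv_assoc, conv_assoc, ← conv_assoc b c d, conv_comm b c, conv_assoc c b d]

theorem cpow_conv (μ ν : V → ℝ) (n : ℕ) :
    cpow (conv μ ν) n = conv (cpow μ n) (cpow ν n) := by
  induction n with
  | zero => exact (conv_dlt _).symm
  | succ n ih =>
    show conv (cpow (conv μ ν) n) (conv μ ν) = conv (conv (cpow μ n) μ) (conv (cpow ν n) ν)
    rw [ih, ALG2_conv4]

theorem dil_cpow (c : ℤ) (μ : V → ℝ) (n : ℕ) : dil c (cpow μ n) = cpow (dil c μ) n := by
  induction n with
  | zero => exact dil_dlt c
  | succ n ih =>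
    show dil c (conv (cpow μ n) μ) = conv (cpow (dil c μ) n) (dil c μ)
    rw [dil_conv, ih]

theorem law_Bl {t : V → ℝ} (ht : Law t) (J : ℕ) : Law (Bl t J) := by
  induction J with
  | zero => exact law_dlt
  | succ J ih => exact law_conv ht (law_dil ih 2)

theorem law_Yl {s : V → ℝ} (hs : Law s) (L : ℕ) : Law (Yl s L) := by
  induction L with
  | zero => exact law_dlt
  | succ L ih => exact law_conv ih (law_dil hs _)

/-- the other recursion for `Y` -/
theorem Yl_succ' (s : V → ℝ) (L : ℕ) : Yl s (L + 1) = conv s (dil 2 (Yl s L)) := by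
  induction L with
  | zero =>
    show conv dlt (dil (2 ^ 0) s) = conv s (dil 2 dlt)
    rw [dlt_conv, dil_dlt, conv_dlt, pow_zero, dil_one]
  | succ L ih =>
    show conv (Yl s (L + 1)) (dil (2 ^ (L + 1)) s) =
      conv s (dil 2 (conv (Yl s L) (dil (2 ^ L) s)))
    rw [ih, dil_conv, dil_dil, conv_assoc, pow_succ']

end H890.TOR
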