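import Pool.Agent.H890R2.TOR.LOW
set_option autoImplicit false

/-! entropic Balog-Szemeredi-Gowers with the minimality (team helper890, Marton in exponent `m` with exponent `O(log m)`). -/

open scoped Classical
open scoped Pointwise
set_option linter.unusedSectionVars false

namespace H890.TOR

open H137.PFR

variable {Ω Ω' α β γ δ : Type*} [Fintype Ω] [Fintype Ω'] [Fintype α] [Fintype β] [Fintype γ]
  [Fintype δ]
variable {V : Type*} [AddCommGroup V] [Fintype V]

open H137.PFR.BSG in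
theorem bsg_lower (S : Setup V) {w : Ω → ℝ} (hw : Law w) (X Y : Ω → V) (T : Ω → γ)
    (hk : kap S (push w X) + kap S (push w (fun ω => -Y ω)) ≤ kap S S.μ₁ + kap S S.μ₂) :
    S.k ≤ (2 * H w (fun ω => (X ω, T ω)) + 2 * H w (fun ω => (Y ω, T ω))
        + H w (fun ω => (X ω + Y ω, T ω)) - 2 * H w (fun ω => (X ω, Y ω, T ω)) - 3 * H w T)
      - (H w (fun ω => (X ω, Y ω, T ω)) - H w (fun ω => (X ω + Y ω, T ω)))
      + S.η * (H w X + H w Y - (H w (fun ω => (X ω, Y ω, T ω))
        - H w (fun ω => (X ω + Y ω, T ω))) - S.Hb) := by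
  set C : Ω → V × γ := fun ω => (X ω + Y ω, T ω) with hC
  have hw' := law_ww hw C
  have hCC : ∀ q : Pr C, X q.1.1 + Y q.1.1 = X q.1.2 + Y q.1.2 ∧ T q.1.1 = T q.1.2 :=
    fun q => Prod.mk.inj q.2
  have hmain := lower S hw' (fun q : Pr C => X q.1.1) (fun q => -Y q.1.2) (fun q => C q.1.1)
    (CI_ww hw.1 C X (fun ω => -Y ω))
    (by
      rw [push_fst hw.1 C X, push_snd hw.1 C (fun ω => -Y ω)]
      exact hk)
  -- marginals
  have m1 : H (ww w C) (fun q => C q.1.1) = H w C := by
    unfold H; rw [push_fst hw.1 C C]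
  have m2 : H (ww w C) (fun q => (X q.1.1, C q.1.1)) = H w (fun ω => (X ω, C ω)) := by
    unfold H; rw [push_fst hw.1 C (fun ω => (X ω, C ω))]
  have m3 : H (ww w C) (fun q => (-Y q.1.2, C q.1.1)) = H w (fun ω => (Y ω, C ω)) := by
    have : (fun q : Pr C => (-Y q.1.2, C q.1.1)) = fun q => (-Y q.1.2, C q.1.2) :=
      funext fun q => by rw [q.2]
    have h1 : H (ww w C) (fun q => (-Y q.1.2, C q.1.1)) = H w (fun ω => (-Y ω, C ω)) := by
      unfold H; rw [this, push_snd hw.1 C (fun ω => (-Y ω, C ω))]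
    rw [h1]
    exact H_eq hw (fun a => (-a.1, a.2)) (fun a => (-a.1, a.2)) (fun ω => by simp)
      (fun ω => rfl)
  have m4 : H (ww w C) (fun q => X q.1.1) = H w X := by
    unfold H; rw [push_fst hw.1 C X]
  have m5 : H (ww w C) (fun q => -Y q.1.2) = H w Y := by
    have h1 : H (ww w C) (fun q => -Y q.1.2) = H w (fun ω => -Y ω) := by
      unfold H; rw [push_snd hw.1 C (fun ω => -Y ω)]
    rw [h1]
    exact H_eq hw (fun a => -a) (fun a => -a) (fun ω => by simp) (fun ω => rfl)
  -- entropies of `(X, Y, T)`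
  have hXC : H w (fun ω => (X ω, C ω)) = H w (fun ω => (X ω, Y ω, T ω)) := by
    refine H_eq hw (fun a => (a.1, a.2.1 - a.1, a.2.2)) (fun a => (a.1, a.1 + a.2.1, a.2.2))
      (fun ω => ?_) (fun ω => ?_)
    · simp only [hC, Prod.mk.injEq, true_and, and_true]
      abel
    · simp only [hC]
  have hYC : H w (fun ω => (Y ω, C ω)) = H w (fun ω => (X ω, Y ω, T ω)) := by
    refine H_eq hw (fun a => (a.2.1 - a.1, a.1, a.2.2)) (fun a => (a.2.1, a.1 + a.2.1, a.2.2))
      (fun ω => ?_) (fun ω => ?_)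
    · simp only [hC, Prod.mk.injEq, and_true]
      abel
    · simp only [hC]
  -- the main entropy bound
  have hD : H (ww w C) (fun q => (X q.1.1 + -Y q.1.2, C q.1.1)) - H w C ≤
      2 * H w (fun ω => (X ω, T ω)) + 2 * H w (fun ω => (Y ω, T ω)) + H w C
        - 2 * H w (fun ω => (X ω, Y ω, T ω)) - 3 * H w T := by
    have s1 := H_submod hw' (fun q : Pr C => X q.1.1 + -Y q.1.2)
      (fun q => X q.1.1 + Y q.1.1) (fun q => T q.1.1)
    have s2 : H (ww w C) (fun q => T q.1.1) = H w T := by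
      unfold H; rw [push_fst hw.1 C T]
    have s3 : H (ww w C) (fun q => (X q.1.1 + Y q.1.1, T q.1.1)) = H w C := m1
    have s4 : H (ww w C) (fun q => (X q.1.1 + -Y q.1.2, X q.1.1 + Y q.1.1, T q.1.1)) =
        H (ww w C) (fun q => (X q.1.1 + -Y q.1.2, C q.1.1)) := rfl
    rw [s2, s3, s4] at s1
    have s5 := H_submod hw' (fun q : Pr C => X q.1.1) (fun q => Y q.1.1)
      (fun q => (X q.1.1 + -Y q.1.2, T q.1.1))
    -- the four-variable entropy
    have s6 : H (ww w C) (fun q => (X q.1.1, Y q.1.1, X q.1.1 + -Y q.1.2, T q.1.1)) =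
        H (ww w C) (fun q => (X q.1.1, X q.1.2, C q.1.1)) := by
      refine H_eq hw'
        (fun a => (a.1, a.2.1 + a.2.2.1, a.1 + a.2.1, a.2.2.2))
        (fun a => (a.1, a.2.2.1 - a.1, a.1 - (a.2.2.1 - a.2.1), a.2.2.2))
        (fun q => ?_) (fun q => ?_)
      · have h3 := (hCC q).1
        simp only [hC, Prod.mk.injEq, true_and, and_true]
        calc Y q.1.1 + (X q.1.1 + -Y q.1.2) = (X q.1.1 + Y q.1.1) + -Y q.1.2 := by abel
          _ = X q.1.2 := by rw [h3]; abel
      · have h3 := (hCC q).1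
        simp only [hC, Prod.mk.injEq, true_and, and_true]
        constructor
        · abel
        · rw [h3]; abel
    have s7 := H_CI hw' (CI_ww hw.1 C X X)
    have s8 : H (ww w C) (fun q => (X q.1.2, C q.1.1)) = H w (fun ω => (X ω, C ω)) := by
      have : (fun q : Pr C => (X q.1.2, C q.1.1)) = fun q => (X q.1.2, C q.1.2) :=
        funext fun q => by rw [q.2]
      unfold H; rw [this, push_snd hw.1 C (fun ω => (X ω, C ω))]
    rw [m1, m2, s8, hXC] at s7
    rw [s6] at s5
    -- the two three-variable entropies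
    have s9 : H (ww w C) (fun q => (X q.1.1, X q.1.1 + -Y q.1.2, T q.1.1)) ≤
        H w (fun ω => (X ω, T ω)) + H w (fun ω => (Y ω, T ω)) - H w T := by
      have t1 : H (ww w C) (fun q => (X q.1.1, X q.1.1 + -Y q.1.2, T q.1.1)) =
          H (ww w C) (fun q => (X q.1.1, Y q.1.2, T q.1.1)) := by
        refine H_eq hw' (fun a => (a.1, a.1 - a.2.1, a.2.2)) (fun a => (a.1, a.1 + -a.2.1, a.2.2))
          (fun q => ?_) (fun q => ?_)
        · simp only [Prod.mk.injEq, true_and, and_true]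
          abel
        · rfl
      have t2 := H_submod hw' (fun q : Pr C => X q.1.1) (fun q => Y q.1.2) (fun q => T q.1.1)
      have t3 : H (ww w C) (fun q => (X q.1.1, T q.1.1)) = H w (fun ω => (X ω, T ω)) := by
        unfold H; rw [push_fst hw.1 C (fun ω => (X ω, T ω))]
      have t4 : H (ww w C) (fun q => (Y q.1.2, T q.1.1)) = H w (fun ω => (Y ω, T ω)) := by
        have : (fun q : Pr C => (Y q.1.2, T q.1.1)) = fun q => (Y q.1.2, T q.1.2) :=
          funext fun q => by rw [(hCC q).2]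
        unfold H; rw [this, push_snd hw.1 C (fun ω => (Y ω, T ω))]
      rw [s2, t3, t4] at t2
      rw [t1]
      linarith
    have s10 : H (ww w C) (fun q => (Y q.1.1, X q.1.1 + -Y q.1.2, T q.1.1)) ≤
        H w (fun ω => (X ω, T ω)) + H w (fun ω => (Y ω, T ω)) - H w T := by
      have t1 : H (ww w C) (fun q => (Y q.1.1, X q.1.1 + -Y q.1.2, T q.1.1)) =
          H (ww w C) (fun q => (Y q.1.1, X q.1.2, T q.1.1)) := by
        refine H_eq hw' (fun a => (a.1, a.2.1 + a.1, a.2.2)) (fun a => (a.1, a.2.1 - a.1, a.2.2))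
          (fun q => ?_) (fun q => ?_)
        · have h3 := (hCC q).1
          simp only [Prod.mk.injEq, true_and, and_true]
          calc X q.1.1 + -Y q.1.2 + Y q.1.1 = (X q.1.1 + Y q.1.1) + -Y q.1.2 := by abel
            _ = X q.1.2 := by rw [h3]; abel
        · have h3 := (hCC q).1
          simp only [Prod.mk.injEq, true_and, and_true]
          calc X q.1.2 - Y q.1.1 = (X q.1.2 + Y q.1.2) - Y q.1.1 - Y q.1.2 := by abel
            _ = X q.1.1 + -Y q.1.2 := by rw [← h3]; abel
      have t2 := H_submod hw' (fun q : Pr C => Y q.1.1) (fun q => X q.1.2) (fun q => T q.1.1)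
      have t3 : H (ww w C) (fun q => (Y q.1.1, T q.1.1)) = H w (fun ω => (Y ω, T ω)) := by
        unfold H; rw [push_fst hw.1 C (fun ω => (Y ω, T ω))]
      have t4 : H (ww w C) (fun q => (X q.1.2, T q.1.1)) = H w (fun ω => (X ω, T ω)) := by
        have : (fun q : Pr C => (X q.1.2, T q.1.1)) = fun q => (X q.1.2, T q.1.2) :=
          funext fun q => by rw [(hCC q).2]
        unfold H; rw [this, push_snd hw.1 C (fun ω => (X ω, T ω))]
      rw [s2, t3, t4] at t2
      rw [t1]
      linarith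
    linarith
  rw [m1, m2, m3, m4, m5, hXC, hYC] at hmain
  have hCd : H w (fun ω => (X ω + Y ω, T ω)) = H w C := rfl
  rw [hCd]
  have hη : S.η * (H w X + H w Y - (H w (fun ω => (X ω, Y ω, T ω)) - H w C) - S.Hb) =
    S.η * (H w X + H w Y - (H w (fun ω => (X ω, Y ω, T ω)) - H w C) / 2
        - (H w (fun ω => (X ω, Y ω, T ω)) - H w C) / 2 - S.Hb) := by ring
  rw [hη]
  linarith

end H890.TOR
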