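import Pool.Agent.H890R2.TOR.ALG1
set_option autoImplicit false

/-! concavity in the number of observations (team helper890, Marton in exponent `m` with exponent `O(log m)`). -/

open scoped Classical
open scoped Pointwise
set_option linter.unusedSectionVars false

namespace H890.TOR

open H137.PFR

variable {Ω Ω' α β γ δ : Type*} [Fintype Ω] [Fintype Ω'] [Fintype α] [Fintype β] [Fintype γ]
  [Fintype δ]
variable {V : Type*} [AddCommGroup V] [Fintype V]

theorem CONC_pp (w : Ω → ℝ) (w' : Ω' → ℝ) (X : Ω → α) (Y : Ω' → β) :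
    push (prod w w') (fun p : Ω × Ω' => (X p.1, Y p.2)) = prod (push w X) (push w' Y) := by
  funext c
  obtain ⟨a, b⟩ := c
  exact push_prod w w' X Y a b

theorem CONC_marg (w : Ω → ℝ) (w' : Ω' → ℝ) (f : Ω' → β) {ν : β → ℝ} (hν : push w' f = ν)
    (g : Ω × β → γ) (h : Ω × Ω' → γ) (hgh : ∀ x, h x = g (x.1, f x.2)) :
    H (prod w w') h = H (prod w ν) g := by
  have h1 := CONC_pp w w' (fun x : Ω => x) f
  rw [push_id', hν] at h1
  have h2 : h = fun x : Ω × Ω' => g (x.1, f x.2) := funext hgh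
  unfold H
  rw [h2, ← h1, push_push]

/-- abstract form: entropies of `Z`, `(X, Z)`, ... for four observations `A B C D` and `Z` -/
theorem CONC_abs {w : Ω → ℝ} (hw : Law w) (Z : Ω → γ) (A B C D : Ω → α)
    {a1 a2 a4 : ℝ} (h1 : H w (fun ω => (Z ω, A ω)) = a1)
    (h2 : H w (fun ω => (Z ω, A ω, B ω)) = a2)
    (h3 : H w (fun ω => (Z ω, A ω, C ω)) = a2)
    (h3' : H w (fun ω => (Z ω, A ω, D ω)) = a2)
    (h4 : H w (fun ω => (Z ω, (A ω, B ω), (C ω, D ω))) = a4) : 2 * a1 + a4 ≤ 3 * a2 := by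
  have sa := H_submod hw B (fun ω => (C ω, D ω)) (fun ω => (Z ω, A ω))
  have sb := H_submod hw C D (fun ω => (Z ω, A ω))
  have k4 : H w (fun ω => (B ω, (C ω, D ω), (Z ω, A ω))) =
      H w (fun ω => (Z ω, (A ω, B ω), (C ω, D ω))) :=
    H_eq hw (fun t : α × (α × α) × (γ × α) => (t.2.2.1, (t.2.2.2, t.1), t.2.1))
      (fun t : γ × (α × α) × (α × α) => (t.2.1.2, t.2.2, (t.1, t.2.1.1)))
      (fun _ => rfl) (fun _ => rfl)
  have kX : ∀ X : Ω → α, H w (fun ω => (X ω, (Z ω, A ω))) = H w (fun ω => (Z ω, A ω, X ω)) :=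
    fun X => H_eq hw (fun t : α × (γ × α) => (t.2.1, t.2.2, t.1))
      (fun t : γ × α × α => (t.2.2, (t.1, t.2.1))) (fun _ => rfl) (fun _ => rfl)
  have k3 : H w (fun ω => (C ω, D ω, (Z ω, A ω))) = H w (fun ω => ((C ω, D ω), (Z ω, A ω))) :=
    H_eq hw (fun t : α × α × (γ × α) => ((t.1, t.2.1), t.2.2))
      (fun t : (α × α) × (γ × α) => (t.1.1, t.1.2, t.2)) (fun _ => rfl) (fun _ => rfl)
  rw [k4, h4, h1, kX, h2] at sa
  rw [k3, h1, kX, kX, h3, h3'] at sb
  linarith

theorem CONC_m1 {z : V → ℝ} (hz : Law z) :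
    push (prod (prod z z) (prod z z)) (fun y : (V × V) × (V × V) => y.1.1) = z := by
  have hzz : Law (prod z z) := law_prod hz hz
  have h1 := push_prod_fst (prod z z) hzz (fun y : V × V => y.1)
  have h2 := push_prod_fst z hz (fun y : V => y)
  rw [push_id'] at h2
  rw [h1]
  exact h2

theorem CONC_m12 {z : V → ℝ} (hz : Law z) :
    push (prod (prod z z) (prod z z)) (fun y : (V × V) × (V × V) => y.1) = prod z z := by
  have h1 := push_prod_fst (prod z z) (law_prod hz hz) (fun y : V × V => y)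
  rw [push_id'] at h1
  exact h1

theorem CONC_m13 {z : V → ℝ} (hz : Law z) :
    push (prod (prod z z) (prod z z)) (fun y : (V × V) × (V × V) => (y.1.1, y.2.1)) =
      prod z z := by
  have h1 := CONC_pp (prod z z) (prod z z) (fun y : V × V => y.1) (fun y : V × V => y.1)
  have h2 := push_prod_fst z hz (fun y : V => y)
  rw [push_id'] at h2
  have h3 : push (prod z z) (fun y : V × V => y.1) = z := h2
  rw [h3] at h1
  exact h1

theorem CONC_m14 {z : V → ℝ} (hz : Law z) :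
    push (prod (prod z z) (prod z z)) (fun y : (V × V) × (V × V) => (y.1.1, y.2.2)) =
      prod z z := by
  have h1 := CONC_pp (prod z z) (prod z z) (fun y : V × V => y.1) (fun y : V × V => y.2)
  have h2 := push_prod_fst z hz (fun y : V => y)
  rw [push_id'] at h2
  have h3 : push (prod z z) (fun y : V × V => y.1) = z := h2
  have h4 := push_prod_snd hz z (fun y : V => y)
  rw [push_id'] at h4
  have h5 : push (prod z z) (fun y : V × V => y.2) = z := h4
  rw [h3, h5] at h1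
  exact h1

theorem AA_conc {ρ z : V → ℝ} (hρ : Law ρ) (hz : Law z) :
    2 * AA1 ρ z + AA4 ρ z ≤ 3 * AA2 ρ z := by
  have hzz : Law (prod z z) := law_prod hz hz
  have hw : Law (prod (prod ρ ρ) (prod (prod z z) (prod z z))) :=
    law_prod (law_prod hρ hρ) (law_prod hzz hzz)
  refine CONC_abs hw (fun x : (V × V) × ((V × V) × (V × V)) => x.1.1 - x.1.2)
    (fun x => x.1.1 + x.2.1.1) (fun x => x.1.1 + x.2.1.2) (fun x => x.1.1 + x.2.2.1)
    (fun x => x.1.1 + x.2.2.2) ?_ ?_ ?_ ?_ rfl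
  · exact CONC_marg (prod ρ ρ) (prod (prod z z) (prod z z)) _ (CONC_m1 hz)
      (fun x : (V × V) × V => (x.1.1 - x.1.2, x.1.1 + x.2)) _ (fun _ => rfl)
  · exact CONC_marg (prod ρ ρ) (prod (prod z z) (prod z z)) _ (CONC_m12 hz)
      (fun x : (V × V) × (V × V) => (x.1.1 - x.1.2, x.1.1 + x.2.1, x.1.1 + x.2.2)) _
      (fun _ => rfl)
  · exact CONC_marg (prod ρ ρ) (prod (prod z z) (prod z z)) _ (CONC_m13 hz)
      (fun x : (V × V) × (V × V) => (x.1.1 - x.1.2, x.1.1 + x.2.1, x.1.1 + x.2.2)) _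
      (fun _ => rfl)
  · exact CONC_marg (prod ρ ρ) (prod (prod z z) (prod z z)) _ (CONC_m14 hz)
      (fun x : (V × V) × (V × V) => (x.1.1 - x.1.2, x.1.1 + x.2.1, x.1.1 + x.2.2)) _
      (fun _ => rfl)

end H890.TOR
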