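import Pool.Agent.H137R2.PFR.Defs
set_option autoImplicit false

/-! Marton's conjecture in groups of exponent `m` with exponent `O(log m)`: definitions.
Laws are functions on finite types, as in `H137.PFR`. -/

open scoped Classical

namespace H890.TOR

open H137.PFR

variable {V : Type*} [AddCommGroup V] [Fintype V]

/-- law of `c • X` for `X ~ μ` -/
noncomputable def dil (c : ℤ) (μ : V → ℝ) : V → ℝ := push μ (fun x => c • x)

/-- the point mass at `0` -/
noncomputable def dlt : V → ℝ := fun x => if x = 0 then 1 else 0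

/-- law of the sum of `n` independent copies of `X ~ μ` -/
noncomputable def cpow (μ : V → ℝ) : ℕ → V → ℝ
  | 0 => dlt
  | n + 1 => conv (cpow μ n) μ

/-- Ruzsa distance, with the sum (the same as `H137.PFR.dist`) -/
noncomputable def dst (μ ν : V → ℝ) : ℝ := ent (conv μ ν) - ent μ / 2 - ent ν / 2

/-- the functional of Gowers, Green, Manners and Tao with parameter `η` -/
noncomputable def tauE (η : ℝ) (μ₀ μ ν : V → ℝ) : ℝ := dst μ ν + η * (dst μ₀ μ + dst μ₀ ν)

/-- a minimiser `(μ₁, μ₂)` of the functional, for a symmetric `μ₀` -/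
structure Setup (V : Type*) [AddCommGroup V] [Fintype V] where
  η : ℝ
  μ₀ : V → ℝ
  μ₁ : V → ℝ
  μ₂ : V → ℝ
  hη : 0 < η
  h0 : Law μ₀
  h1 : Law μ₁
  h2 : Law μ₂
  hsym : dil (-1) μ₀ = μ₀
  hmin : ∀ μ ν : V → ℝ, Law μ → Law ν → tauE η μ₀ μ₁ μ₂ ≤ tauE η μ₀ μ ν

/-- the distance at the minimiser -/
noncomputable def Setup.k (S : Setup V) : ℝ := dst S.μ₁ S.μ₂

/-- the mean entropy at the minimiser -/
noncomputable def Setup.Hb (S : Setup V) : ℝ := (ent S.μ₁ + ent S.μ₂) / 2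

/-- `κ(α) = H(X₀ + α) - H(α)` -/
noncomputable def kap (S : Setup V) (α : V → ℝ) : ℝ := ent (conv S.μ₀ α) - ent α

/-- the law `s` of `X₁ + X₂ - X₁' - X₂'` -/
noncomputable def sl (S : Setup V) : V → ℝ := conv (conv S.μ₁ S.μ₂) (dil (-1) (conv S.μ₁ S.μ₂))

/-- laws of `s + Σ cᵢ sᵢ`, with `sᵢ` independent copies of `s` -/
inductive Fam (S : Setup V) : (V → ℝ) → Prop
  | base : Fam S (sl S)
  | step (ρ : V → ℝ) (c : ℤ) : Fam S ρ → Fam S (conv ρ (dil c (sl S)))

/-- everything that we need about a law -/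
structure Nice (S : Setup V) (ρ : V → ℝ) : Prop where
  law : Law ρ
  sym : dil (-1) ρ = ρ
  dom : 2 * kap S ρ ≤ kap S S.μ₁ + kap S S.μ₂
  up : ent (conv ρ ρ) - ent ρ ≤ S.k + S.η * (ent ρ - S.Hb)

/-- the laws `B_J = T + 2T + ... + 2^(J-1) T` -/
noncomputable def Bl (t : V → ℝ) : ℕ → V → ℝ
  | 0 => dlt
  | J + 1 => conv t (dil 2 (Bl t J))

/-- the laws `Y_L = s + 2s + ... + 2^(L-1) s` -/
noncomputable def Yl (s : V → ℝ) : ℕ → V → ℝ
  | 0 => dlt
  | L + 1 => conv (Yl s L) (dil (2 ^ L) s)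

end H890.TOR
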