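import Pool.Agent.H890R2.TOR.KZERO
import Pool.Agent.H137R2.PFR.Final
import Pool.Agent.H137R2.PFR.ExistsMin
set_option autoImplicit false

/-! existence of the minimiser and the entropic theorem (team helper890, Marton in exponent `m` with exponent `O(log m)`). -/

open scoped Classical
open scoped Pointwise
set_option linter.unusedSectionVars false

namespace H890.TOR

open H137.PFR

variable {Ω Ω' α β γ δ : Type*} [Fintype Ω] [Fintype Ω'] [Fintype α] [Fintype β] [Fintype γ]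
  [Fintype δ]
variable {V : Type*} [AddCommGroup V] [Fintype V]

theorem ENT_continuous_dst {P : Type*} [TopologicalSpace P]
    {u v : P → V → ℝ} (hu : Continuous u) (hv : Continuous v) :
    Continuous (fun p => dst (u p) (v p)) := by
  unfold dst
  exact ((D_continuous_ent (D_continuous_conv hu hv)).sub
    ((D_continuous_ent hu).div_const 2)).sub ((D_continuous_ent hv).div_const 2)

theorem exists_min (η : ℝ) (μ₀ : V → ℝ) : ∃ μ₁ μ₂ : V → ℝ, Law μ₁ ∧ Law μ₂ ∧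
    ∀ μ ν : V → ℝ, Law μ → Law ν → tauE η μ₀ μ₁ μ₂ ≤ tauE η μ₀ μ ν := by
  have hc : IsCompact ((stdSimplex ℝ V) ×ˢ (stdSimplex ℝ V)) :=
    (isCompact_stdSimplex ℝ V).prod (isCompact_stdSimplex ℝ V)
  have hne : ((stdSimplex ℝ V) ×ˢ (stdSimplex ℝ V)).Nonempty :=
    ⟨(Pi.single 0 1, Pi.single 0 1), single_mem_stdSimplex ℝ 0, single_mem_stdSimplex ℝ 0⟩
  have hcont : Continuous (fun p : (V → ℝ) × (V → ℝ) => tauE η μ₀ p.1 p.2) := by
    unfold tauE
    have h0 : Continuous (fun _ : (V → ℝ) × (V → ℝ) => μ₀) := continuous_const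
    exact (ENT_continuous_dst continuous_fst continuous_snd).add
      (continuous_const.mul ((ENT_continuous_dst h0 continuous_fst).add
        (ENT_continuous_dst h0 continuous_snd)))
  obtain ⟨p, hp, hmin⟩ := hc.exists_isMinOn hne hcont.continuousOn
  refine ⟨p.1, p.2, (D_law_iff _).2 hp.1, (D_law_iff _).2 hp.2, fun μ ν hμ hν => ?_⟩
  exact hmin (a := (μ, ν)) ⟨(D_law_iff _).1 hμ, (D_law_iff _).1 hν⟩

theorem entropic {m J : ℕ} (hV : ∀ x : V, m • x = 0) (hm : 2 ≤ m) (hJ : m ≤ 2 ^ J)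
    {μ : V → ℝ} (hμ : Law μ) (hsym : dil (-1) μ = μ) :
    ∃ G : AddSubgroup V, entMod μ G ≤ (20000 * J + 2) * (ent (conv μ μ) - ent μ) ∧
      Real.log (Nat.card G) - ent μ ≤ (20000 * J + 2) * (ent (conv μ μ) - ent μ) := by
  have hJ1 : 1 ≤ J := by
    rcases Nat.eq_zero_or_pos J with h | h
    · rw [h] at hJ; omega
    · exact h
  have hJr : (1 : ℝ) ≤ J := by exact_mod_cast hJ1
  have hη0 : (0 : ℝ) < 1 / (20000 * J) := by positivity
  obtain ⟨μ₁, μ₂, hμ₁, hμ₂, hmin⟩ := exists_min (1 / (20000 * (J : ℝ))) μ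
  let S : Setup V := ⟨1 / (20000 * J), μ, μ₁, μ₂, hη0, hμ, hμ₁, hμ₂, hsym, hmin⟩
  have hk : S.k = 0 := k_eq_zero S hV hm hJ rfl
  have hd : dst μ₁ μ₂ = 0 := hk
  have hd' : H137.PFR.dist μ₁ μ₂ = 0 := hk
  obtain ⟨G, hG1, he1, hG2, he2⟩ := hundred hμ₁ hμ₂ hd'
  refine ⟨G, ?_⟩
  have ht := hmin μ μ hμ hμ
  unfold tauE at ht
  rw [hd] at ht
  have hκ : dst μ μ = ent (conv μ μ) - ent μ := by
    unfold dst
    ring
  have ht2 : dst μ μ₁ + dst μ μ₂ ≤ (20000 * J + 2) * dst μ μ := by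
    have h1 := mul_le_mul_of_nonneg_left ht (by positivity : (0 : ℝ) ≤ 20000 * J)
    have h2 : (20000 * (J : ℝ)) * (0 + 1 / (20000 * (J : ℝ)) * (dst μ μ₁ + dst μ μ₂)) =
        dst μ μ₁ + dst μ μ₂ := by
      field_simp
      ring
    have h3 : (20000 * (J : ℝ)) * (dst μ μ + 1 / (20000 * (J : ℝ)) * (dst μ μ + dst μ μ)) =
        (20000 * J + 2) * dst μ μ := by
      field_simp
      ring
    rw [h2, h3] at h1
    exact h1
  have key : ∀ ν : V → ℝ, Law ν → (∀ h ∈ G, ∀ x, ν (x + h) = ν x) →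
      ent ν = Real.log (Nat.card G) → 2 * dst μ ν ≤ (20000 * J + 2) * dst μ μ →
      entMod μ G ≤ (20000 * J + 2) * (ent (conv μ μ) - ent μ) ∧
      Real.log (Nat.card G) - ent μ ≤ (20000 * J + 2) * (ent (conv μ μ) - ent μ) := by
    intro ν hν hinv hent hdist
    have e1 := entMod_add_log_le hμ hν G hinv
    have e2 := ent_le_entMod hμ G
    have e3 : 0 ≤ entMod μ G := H_nonneg hμ _
    have e4 : dst μ ν = ent (conv μ ν) - ent μ / 2 - ent ν / 2 := rfl
    rw [hent] at e4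
    rw [hκ] at hdist
    constructor <;> linarith
  rcases le_total (dst μ μ₁) (dst μ μ₂) with h | h
  · exact key μ₁ hμ₁ hG1 he1 (by linarith)
  · exact key μ₂ hμ₂ hG2 he2 (by linarith)

end H890.TOR
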