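import Pool.Agent.H890R2.TOR.ALG2
set_option autoImplicit false

/-! entropy inequalities for sums (team helper890, Marton in exponent `m` with exponent `O(log m)`). -/

open scoped Classical
open scoped Pointwise
set_option linter.unusedSectionVars false

namespace H890.TOR

open H137.PFR

variable {Ω Ω' α β γ δ : Type*} [Fintype Ω] [Fintype Ω'] [Fintype α] [Fintype β] [Fintype γ]
  [Fintype δ]
variable {V : Type*} [AddCommGroup V] [Fintype V]

/-- law of a sum of two independent variables -/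
theorem ENTB_conv (w : Ω → ℝ) (w' : Ω' → ℝ) (X : Ω → V) (Y : Ω' → V) :
    ent (conv (push w X) (push w' Y)) = H (prod w w') (fun p => X p.1 + Y p.2) := by
  unfold conv
  rw [prod_push, push_push]
  rfl

theorem ENTB_fst {a b : V → ℝ} (hb : Law b) : push (prod a b) (fun p : V × V => p.1) = a := by
  have h := push_prod_fst a hb (fun x : V => x)
  rw [push_id'] at h
  exact h

theorem ENTB_snd {a b : V → ℝ} (ha : Law a) : push (prod a b) (fun p : V × V => p.2) = b := by
  have h := push_prod_snd ha b (fun x : V => x)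
  rw [push_id'] at h
  exact h

/-- `H(x, y, z)` -/
theorem ENTB_H3 {a b c : V → ℝ} (ha : Law a) (hb : Law b) (hc : Law c) :
    H (prod (prod a b) c) (fun p : (V × V) × V => p) = ent a + ent b + ent c := by
  have h1 := H_prod (law_prod ha hb) hc (fun x : V × V => x) (fun x : V => x)
  have h2 := H_prod ha hb (fun x : V => x) (fun x : V => x)
  rw [H_id a, H_id b] at h2
  rw [H_id c] at h1
  have h3 : H (prod a b) (fun x : V × V => x) = ent a + ent b := h2
  rw [h3] at h1
  exact h1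

/-- `H(x, z)` -/
theorem ENTB_H13 {a b c : V → ℝ} (ha : Law a) (hb : Law b) (hc : Law c) :
    H (prod (prod a b) c) (fun p : (V × V) × V => (p.1.1, p.2)) = ent a + ent c := by
  have h1 := H_prod (law_prod ha hb) hc (fun x : V × V => x.1) (fun x : V => x)
  have h2 := H_prod_fst ha hb (fun x : V => x)
  rw [H_id] at h2
  rw [H_id c, h2] at h1
  exact h1

/-- `H(x, y)` -/
theorem ENTB_H12 {a b c : V → ℝ} (ha : Law a) (hb : Law b) (hc : Law c) :
    H (prod (prod a b) c) (fun p : (V × V) × V => p.1) = ent a + ent b := by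
  have h1 := H_prod_fst (law_prod ha hb) hc (fun x : V × V => x)
  have h2 := H_prod ha hb (fun x : V => x) (fun x : V => x)
  rw [H_id a, H_id b] at h2
  have h3 : H (prod a b) (fun x : V × V => x) = ent a + ent b := h2
  rw [h3] at h1
  exact h1

theorem ent_kvm {a b c : V → ℝ} (ha : Law a) (hb : Law b) (hc : Law c) :
    ent (conv (conv a b) c) + ent b ≤ ent (conv a b) + ent (conv b c) := by
  have hl := law_prod hb hc
  have h2 := H_prod hb hc (fun x : V => x) (fun x : V => x)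
  have h3 := H_prod_fst hb hc (fun x : V => x)
  have h4 := H_prod_snd hb hc (fun x : V => x)
  have h1 := kvm ha hl (fun p : V × V => p.1) (fun p : V × V => p.2) (by
    rw [h3, h4]
    exact h2)
  rw [E0_push ha hl, E0_push ha hl, ENTB_fst hc, h3, H_id] at h1
  have h5 : push (prod b c) (fun p : V × V => p.1 + p.2) = conv b c := rfl
  have h6 : H (prod b c) (fun p : V × V => p.1 + p.2) = ent (conv b c) := rfl
  rw [h5, h6] at h1
  rw [conv_assoc]
  linarith

theorem ent_tri {a b c : V → ℝ} (ha : Law a) (hb : Law b) (hc : Law c) :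
    ent (conv a (dil (-1) c)) + ent b ≤ ent (conv a b) + ent (conv c b) := by
  have hl := law_prod (law_prod ha hb) hc
  have h1 := H_submod hl (fun p : (V × V) × V => (p.1.1 + p.1.2, p.1.2 + p.2))
    (fun p : (V × V) × V => (p.1.1, p.2)) (fun p : (V × V) × V => p.1.1 + (-1 : ℤ) • p.2)
  have e1 : H (prod (prod a b) c) (fun p : (V × V) × V => ((p.1.1 + p.1.2, p.1.2 + p.2),
      (p.1.1, p.2), p.1.1 + (-1 : ℤ) • p.2)) = H (prod (prod a b) c) (fun p => p) :=
    H_eq hl (fun q : (V × V) × (V × V) × V => ((q.2.1.1, q.1.1 - q.2.1.1), q.2.1.2))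
      (fun p : (V × V) × V => ((p.1.1 + p.1.2, p.1.2 + p.2),
        (p.1.1, p.2), p.1.1 + (-1 : ℤ) • p.2))
      (fun ω => by
        refine Prod.ext (Prod.ext rfl ?_) rfl
        change ω.1.1 + ω.1.2 - ω.1.1 = ω.1.2
        abel) (fun ω => rfl)
  have e2 : H (prod (prod a b) c) (fun p : (V × V) × V => ((p.1.1 + p.1.2, p.1.2 + p.2),
      p.1.1 + (-1 : ℤ) • p.2)) =
      H (prod (prod a b) c) (fun p : (V × V) × V => (p.1.1 + p.1.2, p.1.2 + p.2)) :=
    H_eq hl (fun q : (V × V) × V => q.1) (fun q : V × V => (q, q.1 - q.2))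
      (fun ω => rfl) (fun ω => by
        refine Prod.ext rfl ?_
        change ω.1.1 + ω.1.2 - (ω.1.2 + ω.2) = ω.1.1 + (-1 : ℤ) • ω.2
        rw [neg_one_zsmul]
        abel)
  have e3 : H (prod (prod a b) c) (fun p : (V × V) × V => ((p.1.1, p.2),
      p.1.1 + (-1 : ℤ) • p.2)) =
      H (prod (prod a b) c) (fun p : (V × V) × V => (p.1.1, p.2)) :=
    H_eq hl (fun q : (V × V) × V => q.1) (fun q : V × V => (q, q.1 + (-1 : ℤ) • q.2))
      (fun ω => rfl) (fun ω => rfl)
  have e4 := H_subadd hl (fun p : (V × V) × V => p.1.1 + p.1.2)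
    (fun p : (V × V) × V => p.1.2 + p.2)
  have e5 : H (prod (prod a b) c) (fun p : (V × V) × V => p.1.1 + p.1.2) = ent (conv a b) :=
    H_prod_fst (law_prod ha hb) hc (fun x : V × V => x.1 + x.2)
  have e6 : H (prod (prod a b) c) (fun p : (V × V) × V => p.1.2 + p.2) = ent (conv b c) := by
    have h := ENTB_conv (prod a b) c (fun x : V × V => x.2) (fun x : V => x)
    rw [ENTB_snd ha, push_id'] at h
    exact h.symm
  have e7 : H (prod (prod a b) c) (fun p : (V × V) × V => p.1.1 + (-1 : ℤ) • p.2) =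
      ent (conv a (dil (-1) c)) := by
    have h := ENTB_conv (prod a b) c (fun x : V × V => x.1) (fun x : V => (-1 : ℤ) • x)
    rw [ENTB_fst hb] at h
    exact h.symm
  rw [e1, e2, e3, e7, ENTB_H3 ha hb hc, ENTB_H13 ha hb hc] at h1
  rw [e5, e6] at e4
  rw [conv_comm c b]
  linarith

theorem ent_double {x y : V → ℝ} (hx : Law x) (hy : Law y) :
    ent (conv x (dil 2 y)) + ent y ≤ ent (conv (conv x y) (dil (-1) y)) + ent (conv y y) := by
  have hl := law_prod (law_prod hx hy) hy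
  have h1 := H_submod hl
    (fun p : (V × V) × V => (p.1.1 + p.1.2 + (-1 : ℤ) • p.2, p.1.2 + p.2))
    (fun p : (V × V) × V => p.1) (fun p : (V × V) × V => p.1.1 + (2 : ℤ) • p.1.2)
  have e1 : H (prod (prod x y) y)
      (fun p : (V × V) × V => ((p.1.1 + p.1.2 + (-1 : ℤ) • p.2, p.1.2 + p.2),
      p.1, p.1.1 + (2 : ℤ) • p.1.2)) = H (prod (prod x y) y) (fun p => p) :=
    H_eq hl (fun q : (V × V) × (V × V) × V => (q.2.1, q.1.2 - q.2.1.2))
      (fun p : (V × V) × V => ((p.1.1 + p.1.2 + (-1 : ℤ) • p.2, p.1.2 + p.2),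
      p.1, p.1.1 + (2 : ℤ) • p.1.2))
      (fun ω => by
        refine Prod.ext rfl ?_
        change ω.1.2 + ω.2 - ω.1.2 = ω.2
        abel) (fun ω => rfl)
  have e2 : H (prod (prod x y) y)
      (fun p : (V × V) × V => ((p.1.1 + p.1.2 + (-1 : ℤ) • p.2, p.1.2 + p.2),
      p.1.1 + (2 : ℤ) • p.1.2)) =
      H (prod (prod x y) y)
        (fun p : (V × V) × V => (p.1.1 + p.1.2 + (-1 : ℤ) • p.2, p.1.2 + p.2)) :=
    H_eq hl (fun q : (V × V) × V => q.1) (fun q : V × V => (q, q.1 + q.2))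
      (fun ω => rfl) (fun ω => by
        refine Prod.ext rfl ?_
        change ω.1.1 + ω.1.2 + (-1 : ℤ) • ω.2 + (ω.1.2 + ω.2) = ω.1.1 + (2 : ℤ) • ω.1.2
        rw [neg_one_zsmul, two_zsmul]
        abel)
  have e3 : H (prod (prod x y) y) (fun p : (V × V) × V => (p.1,
      p.1.1 + (2 : ℤ) • p.1.2)) =
      H (prod (prod x y) y) (fun p : (V × V) × V => p.1) :=
    H_eq hl (fun q : (V × V) × V => q.1) (fun q : V × V => (q, q.1 + (2 : ℤ) • q.2))
      (fun ω => rfl) (fun ω => rfl)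
  have e4 := H_subadd hl (fun p : (V × V) × V => p.1.1 + p.1.2 + (-1 : ℤ) • p.2)
    (fun p : (V × V) × V => p.1.2 + p.2)
  have e5 : H (prod (prod x y) y) (fun p : (V × V) × V => p.1.1 + p.1.2 + (-1 : ℤ) • p.2) =
      ent (conv (conv x y) (dil (-1) y)) := by
    have h := ENTB_conv (prod x y) y (fun x : V × V => x.1 + x.2) (fun x : V => (-1 : ℤ) • x)
    exact h.symm
  have e6 : H (prod (prod x y) y) (fun p : (V × V) × V => p.1.2 + p.2) = ent (conv y y) := by
    have h := ENTB_conv (prod x y) y (fun x : V × V => x.2) (fun x : V => x)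
    rw [ENTB_snd hx, push_id'] at h
    exact h.symm
  have e7 : H (prod (prod x y) y) (fun p : (V × V) × V => p.1.1 + (2 : ℤ) • p.1.2) =
      ent (conv x (dil 2 y)) := by
    have h := ENTB_conv x y (fun x : V => x) (fun x : V => (2 : ℤ) • x)
    rw [push_id'] at h
    have h' := H_prod_fst (law_prod hx hy) hy (fun p : V × V => p.1 + (2 : ℤ) • p.2)
    rw [h']
    exact h.symm
  rw [e1, e2, e3, e7, ENTB_H3 hx hy hy, ENTB_H12 hx hy hy] at h1
  rw [e5, e6] at e4
  linarith

theorem ent_digit {t b e : V → ℝ} (ht : Law t) (hb : Law b) (he : Law e) (r0 r1 : ℤ) :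
    ent (conv (conv t (dil 2 b)) (dil (r0 + 2 * r1) e)) + ent t + ent b ≤
      ent (conv t (dil r0 e)) + ent (conv b (dil r1 e)) + ent (conv t (dil 2 b)) := by
  have hl := law_prod (law_prod ht hb) he
  have h1 := H_submod hl
    (fun p : (V × V) × V => (p.1.1 + r0 • p.2, p.1.2 + r1 • p.2))
    (fun p : (V × V) × V => p.2)
    (fun p : (V × V) × V => p.1.1 + (2 : ℤ) • p.1.2 + (r0 + 2 * r1) • p.2)
  have e1 : H (prod (prod t b) e)
      (fun p : (V × V) × V => ((p.1.1 + r0 • p.2, p.1.2 + r1 • p.2),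
      p.2, p.1.1 + (2 : ℤ) • p.1.2 + (r0 + 2 * r1) • p.2)) =
      H (prod (prod t b) e) (fun p => p) :=
    H_eq hl (fun q : (V × V) × V × V => ((q.1.1 - r0 • q.2.1, q.1.2 - r1 • q.2.1), q.2.1))
      (fun p : (V × V) × V => ((p.1.1 + r0 • p.2, p.1.2 + r1 • p.2),
      p.2, p.1.1 + (2 : ℤ) • p.1.2 + (r0 + 2 * r1) • p.2))
      (fun ω => by
        refine Prod.ext (Prod.ext ?_ ?_) rfl
        · change ω.1.1 + r0 • ω.2 - r0 • ω.2 = ω.1.1
          exact add_sub_cancel_right _ _
        · change ω.1.2 + r1 • ω.2 - r1 • ω.2 = ω.1.2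
          exact add_sub_cancel_right _ _) (fun ω => rfl)
  have e2 : H (prod (prod t b) e)
      (fun p : (V × V) × V => ((p.1.1 + r0 • p.2, p.1.2 + r1 • p.2),
      p.1.1 + (2 : ℤ) • p.1.2 + (r0 + 2 * r1) • p.2)) =
      H (prod (prod t b) e) (fun p : (V × V) × V => (p.1.1 + r0 • p.2, p.1.2 + r1 • p.2)) :=
    H_eq hl (fun q : (V × V) × V => q.1) (fun q : V × V => (q, q.1 + (2 : ℤ) • q.2))
      (fun ω => rfl) (fun ω => by
        refine Prod.ext rfl ?_
        change ω.1.1 + r0 • ω.2 + (2 : ℤ) • (ω.1.2 + r1 • ω.2) =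
          ω.1.1 + (2 : ℤ) • ω.1.2 + (r0 + 2 * r1) • ω.2
        rw [smul_add, add_smul, mul_smul]
        abel)
  have e3 : H (prod (prod t b) e) (fun p : (V × V) × V => (p.2,
      p.1.1 + (2 : ℤ) • p.1.2 + (r0 + 2 * r1) • p.2)) =
      H (prod (prod t b) e) (fun p : (V × V) × V => (p.1.1 + (2 : ℤ) • p.1.2, p.2)) :=
    H_eq hl (fun q : V × V => (q.2 - (r0 + 2 * r1) • q.1, q.1))
      (fun q : V × V => (q.2, q.1 + (r0 + 2 * r1) • q.2))
      (fun ω => by
        refine Prod.ext ?_ rfl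
        change ω.1.1 + (2 : ℤ) • ω.1.2 + (r0 + 2 * r1) • ω.2 - (r0 + 2 * r1) • ω.2 =
          ω.1.1 + (2 : ℤ) • ω.1.2
        exact add_sub_cancel_right _ _) (fun ω => rfl)
  have e3' := H_prod (law_prod ht hb) he (fun x : V × V => x.1 + (2 : ℤ) • x.2) (fun x : V => x)
  have e0 : H (prod t b) (fun x : V × V => x.1 + (2 : ℤ) • x.2) = ent (conv t (dil 2 b)) := by
    have h := ENTB_conv t b (fun x : V => x) (fun x : V => (2 : ℤ) • x)
    rw [push_id'] at h
    exact h.symm
  rw [e0, H_id e] at e3'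
  have e4 := H_subadd hl (fun p : (V × V) × V => p.1.1 + r0 • p.2)
    (fun p : (V × V) × V => p.1.2 + r1 • p.2)
  have e5 : H (prod (prod t b) e) (fun p : (V × V) × V => p.1.1 + r0 • p.2) =
      ent (conv t (dil r0 e)) := by
    have h := ENTB_conv (prod t b) e (fun x : V × V => x.1) (fun x : V => r0 • x)
    rw [ENTB_fst hb] at h
    exact h.symm
  have e6 : H (prod (prod t b) e) (fun p : (V × V) × V => p.1.2 + r1 • p.2) =
      ent (conv b (dil r1 e)) := by
    have h := ENTB_conv (prod t b) e (fun x : V × V => x.2) (fun x : V => r1 • x)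
    rw [ENTB_snd ht] at h
    exact h.symm
  have e7 : H (prod (prod t b) e)
      (fun p : (V × V) × V => p.1.1 + (2 : ℤ) • p.1.2 + (r0 + 2 * r1) • p.2) =
      ent (conv (conv t (dil 2 b)) (dil (r0 + 2 * r1) e)) := by
    have h := ENTB_conv (prod t b) e (fun x : V × V => x.1 + (2 : ℤ) • x.2)
      (fun x : V => (r0 + 2 * r1) • x)
    have h' : push (prod t b) (fun x : V × V => x.1 + (2 : ℤ) • x.2) = conv t (dil 2 b) := by
      have h2 := prod_push t b (fun x : V => x) (fun x : V => (2 : ℤ) • x)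
      rw [push_id'] at h2
      have h3 : conv t (dil 2 b) =
          push (prod t (push b (fun x : V => (2 : ℤ) • x))) (fun p : V × V => p.1 + p.2) := rfl
      rw [h3, h2, push_push]
    rw [h'] at h
    exact h.symm
  rw [e1, e2, e3, e7, ENTB_H3 ht hb he] at h1
  rw [e3'] at h1
  rw [e5, e6] at e4
  linarith

theorem cpow_mono {ρ : V → ℝ} (hρ : Law ρ) {a b : ℕ} (hab : a ≤ b) :
    ent (cpow ρ a) ≤ ent (cpow ρ b) := by
  induction b, hab using Nat.le_induction with
  | base => exact le_refl _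
  | succ n _ ih => exact ih.trans (ent_le_conv_left (law_cpow hρ n) hρ)

theorem cpow_conc {ρ : V → ℝ} (hρ : Law ρ) (n : ℕ) :
    ent (cpow ρ (n + 2)) - ent (cpow ρ (n + 1)) ≤ ent (cpow ρ (n + 1)) - ent (cpow ρ n) := by
  have h := ent_kvm hρ (law_cpow hρ n) hρ
  rw [conv_comm ρ (cpow ρ n)] at h
  have h1 : conv (cpow ρ n) ρ = cpow ρ (n + 1) := rfl
  have h2 : conv (cpow ρ (n + 1)) ρ = cpow ρ (n + 2) := rfl
  rw [h1, h2] at h
  linarith

end H890.TOR
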