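import Pool.Agent.H890R2.TOR.ALG2
set_option autoImplicit false

/-! the family Fam: algebraic part (team helper890, Marton in exponent `m` with exponent `O(log m)`). -/

open scoped Classical
open scoped Pointwise
set_option linter.unusedSectionVars false

namespace H890.TOR

open H137.PFR

variable {Ω Ω' α β γ δ : Type*} [Fintype Ω] [Fintype Ω'] [Fintype α] [Fintype β] [Fintype γ]
  [Fintype δ]
variable {V : Type*} [AddCommGroup V] [Fintype V]

theorem law_sl (S : Setup V) : Law (sl S) :=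
  law_conv (law_conv S.h1 S.h2) (law_dil (law_conv S.h1 S.h2) (-1))

theorem sym_sl (S : Setup V) : dil (-1) (sl S) = sl S := by
  unfold sl
  rw [dil_conv, dil_dil]
  norm_num
  rw [dil_one, conv_comm]

theorem Hb_le_sl (S : Setup V) : S.Hb ≤ ent (sl S) := by
  have h12 := law_conv S.h1 S.h2
  have hn := law_dil h12 (-1)
  have h1 : ent S.μ₁ ≤ ent (conv S.μ₁ S.μ₂) := ent_le_conv_left S.h1 S.h2
  have h2 : ent S.μ₂ ≤ ent (conv S.μ₁ S.μ₂) := by
    rw [conv_comm]
    exact ent_le_conv_left S.h2 S.h1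
  have h3 : ent (conv S.μ₁ S.μ₂) ≤ ent (sl S) := ent_le_conv_left h12 hn
  unfold Setup.Hb
  linarith

theorem k_nonneg (S : Setup V) : 0 ≤ S.k := by
  have h1 : ent S.μ₁ ≤ ent (conv S.μ₁ S.μ₂) := ent_le_conv_left S.h1 S.h2
  have h2 : ent S.μ₂ ≤ ent (conv S.μ₁ S.μ₂) := by
    rw [conv_comm]
    exact ent_le_conv_left S.h2 S.h1
  unfold Setup.k dst
  linarith

theorem fam_conv_dil (S : Setup V) {a ρ : V → ℝ} (ha : Fam S a) (hρ : Fam S ρ) (c : ℤ) :
    Fam S (conv a (dil c ρ)) := by
  induction hρ with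
  | base => exact Fam.step a c ha
  | step ρ₀ d _ ih =>
    rw [dil_conv, dil_dil, ← conv_assoc]
    exact Fam.step _ (c * d) ih

theorem fam_conv (S : Setup V) {a ρ : V → ℝ} (ha : Fam S a) (hρ : Fam S ρ) :
    Fam S (conv a ρ) := by
  have h := fam_conv_dil S ha hρ 1
  rwa [dil_one] at h

theorem fam_cpow (S : Setup V) {ρ : V → ℝ} (hρ : Fam S ρ) (n : ℕ) : Fam S (cpow ρ (n + 1)) := by
  induction n with
  | zero => rw [zero_add, cpow_one]; exact hρ
  | succ n ih => exact fam_conv S ih hρ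

theorem fam_Bl (S : Setup V) {t : V → ℝ} (ht : Fam S t) (J : ℕ) : Fam S (Bl t (J + 1)) := by
  induction J with
  | zero =>
    have h : Bl t (0 + 1) = t := by
      change conv t (dil 2 dlt) = t
      rw [dil_dlt, conv_dlt]
    rw [h]
    exact ht
  | succ J ih => exact fam_conv_dil S ht ih 2

theorem fam_Yl (S : Setup V) (L : ℕ) : Fam S (Yl (sl S) (L + 1)) := by
  induction L with
  | zero =>
    have h : Yl (sl S) (0 + 1) = sl S := by
      change conv dlt (dil (2 ^ 0) (sl S)) = sl S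
      rw [pow_zero, dil_one, dlt_conv]
    rw [h]
    exact Fam.base
  | succ L ih => exact Fam.step _ (2 ^ (L + 1)) ih

end H890.TOR
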