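import Pool.Agent.H890R2.TOR.LOW
set_option autoImplicit false

/-! the fibring step (team helper890, Marton in exponent `m` with exponent `O(log m)`). -/

open scoped Classical
open scoped Pointwise
set_option linter.unusedSectionVars false

namespace H890.TOR

open H137.PFR

variable {Ω Ω' α β γ δ : Type*} [Fintype Ω] [Fintype Ω'] [Fintype α] [Fintype β] [Fintype γ]
  [Fintype δ]
variable {V : Type*} [AddCommGroup V] [Fintype V]

theorem STEP_conv_push (w : Ω → ℝ) (w' : Ω' → ℝ) (X : Ω → V) (Y : Ω' → V) :
    conv (push w X) (push w' Y) = push (prod w w') (fun p => X p.1 + Y p.2) := by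
  unfold conv
  rw [prod_push, push_push]

theorem STEP_conv_dil (a b : V → ℝ) (c : ℤ) :
    conv a (dil c b) = push (prod a b) (fun p => p.1 + c • p.2) := by
  have h := STEP_conv_push a b (fun x : V => x) (fun x : V => c • x)
  rw [push_id'] at h
  exact h

theorem up_step (S : Setup V) {a b α β : V → ℝ} (ha : Law a) (hb : Law b) (hα : Law α)
    (hβ : Law β) (hab : dst a b = S.k) (hent : ent a + ent b = 2 * S.Hb)
    (hk : kap S a + kap S b ≤ kap S S.μ₁ + kap S S.μ₂) (c : ℤ) :
    dst (conv α (dil c a)) (conv β (dil c b))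
        - S.η * (ent (conv α (dil c a)) + ent (conv β (dil c b))) / 2 ≤
      dst α β - S.η * (ent α + ent β) / 2 := by
  have hw : Law (prod α a) := law_prod hα ha
  have hw' : Law (prod β b) := law_prod hβ hb
  have hww := law_prod hw hw'
  have pa : push (prod α a) (fun p : V × V => p.2) = a := by
    rw [push_prod_snd hα a (fun x : V => x), push_id']
  have pb : push (prod β b) (fun p : V × V => p.2) = b := by
    rw [push_prod_snd hβ b (fun x : V => x), push_id']
  have pα : push (prod α a) (fun p : V × V => p.1) = α := by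
    rw [push_prod_fst α ha (fun x : V => x), push_id']
  have pβ : push (prod β b) (fun p : V × V => p.1) = β := by
    rw [push_prod_fst β hb (fun x : V => x), push_id']
  have hmain := lower_prod S hw hw' (fun p : V × V => p.2) (fun p : V × V => p.1 + c • p.2)
    (fun p : V × V => p.2) (fun p : V × V => p.1 + c • p.2) (by rw [pa, pb]; exact hk)
  have e1 : H (prod α a) (fun p : V × V => p.1 + c • p.2) = ent (conv α (dil c a)) := by
    rw [STEP_conv_dil]; rfl
  have e2 : H (prod β b) (fun p : V × V => p.1 + c • p.2) = ent (conv β (dil c b)) := by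
    rw [STEP_conv_dil]; rfl
  have e3 : H (prod α a) (fun p : V × V => (p.2, p.1 + c • p.2)) = ent α + ent a := by
    rw [← H_id α, ← H_id a, ← H_prod hα ha (fun x : V => x) (fun x : V => x)]
    exact H_eq hw (fun q : V × V => (q.2 - c • q.1, q.1)) (fun q : V × V => (q.2, q.1 + c • q.2))
      (fun ω => by simp) (fun ω => rfl)
  have e4 : H (prod β b) (fun p : V × V => (p.2, p.1 + c • p.2)) = ent β + ent b := by
    rw [← H_id β, ← H_id b, ← H_prod hβ hb (fun x : V => x) (fun x : V => x)]
    exact H_eq hw' (fun q : V × V => (q.2 - c • q.1, q.1)) (fun q : V × V => (q.2, q.1 + c • q.2))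
      (fun ω => by simp) (fun ω => rfl)
  have e5 : H (prod α a) (fun p : V × V => p.2) = ent a := by
    unfold H; rw [pa]
  have e6 : H (prod β b) (fun p : V × V => p.2) = ent b := by
    unfold H; rw [pb]
  rw [e1, e2, e3, e4, e5, e6] at hmain
  -- submodularity
  have s1 := H_submod hww (fun p : (V × V) × (V × V) => p.1.2 + p.2.2)
    (fun p => (p.1.1 + c • p.1.2, p.2.1 + c • p.2.2))
    (fun p => (p.1.1 + c • p.1.2) + (p.2.1 + c • p.2.2))
  have s2 : H (prod (prod α a) (prod β b)) (fun p : (V × V) × (V × V) => (p.1.2 + p.2.2,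
      (p.1.1 + c • p.1.2, p.2.1 + c • p.2.2), (p.1.1 + c • p.1.2) + (p.2.1 + c • p.2.2))) =
      H (prod (prod α a) (prod β b)) (fun p : (V × V) × (V × V) => (p.1.2 + p.2.2,
        p.1.1 + c • p.1.2, p.2.1 + c • p.2.2)) :=
    H_eq hww (fun q => (q.1, q.2.1.1, q.2.1.2)) (fun q => (q.1, (q.2.1, q.2.2), q.2.1 + q.2.2))
      (fun ω => rfl) (fun ω => rfl)
  have s3 : H (prod (prod α a) (prod β b)) (fun p : (V × V) × (V × V) =>
      ((p.1.1 + c • p.1.2, p.2.1 + c • p.2.2), (p.1.1 + c • p.1.2) + (p.2.1 + c • p.2.2))) =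
      ent (conv α (dil c a)) + ent (conv β (dil c b)) := by
    rw [← e1, ← e2, ← H_prod hw hw' (fun p : V × V => p.1 + c • p.2)
      (fun p : V × V => p.1 + c • p.2)]
    exact H_eq hww (fun q => q.1) (fun q => (q, q.1 + q.2)) (fun ω => rfl) (fun ω => rfl)
  have s4 : H (prod (prod α a) (prod β b)) (fun p : (V × V) × (V × V) =>
      (p.1.1 + c • p.1.2) + (p.2.1 + c • p.2.2)) =
      ent (conv (conv α (dil c a)) (conv β (dil c b))) := by
    rw [STEP_conv_dil, STEP_conv_dil, STEP_conv_push]; rfl
  have s5 : H (prod (prod α a) (prod β b)) (fun p : (V × V) × (V × V) => (p.1.2 + p.2.2,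
      (p.1.1 + c • p.1.2) + (p.2.1 + c • p.2.2))) =
      H (prod (prod α a) (prod β b)) (fun p : (V × V) × (V × V) => (p.1.2 + p.2.2,
        p.1.1 + p.2.1)) :=
    H_eq hww (fun q => (q.1, q.2 - c • q.1)) (fun q => (q.1, q.2 + c • q.1))
      (fun ω => by
        refine Prod.ext rfl ?_
        simp only [smul_add]
        abel) (fun ω => by
        refine Prod.ext rfl ?_
        simp only [smul_add]
        abel)
  have s6 := H_subadd hww (fun p : (V × V) × (V × V) => p.1.2 + p.2.2)
    (fun p : (V × V) × (V × V) => p.1.1 + p.2.1)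
  have s7 : H (prod (prod α a) (prod β b)) (fun p : (V × V) × (V × V) => p.1.2 + p.2.2) =
      ent (conv a b) := by
    have h := STEP_conv_push (prod α a) (prod β b) (fun p : V × V => p.2) (fun p : V × V => p.2)
    rw [pa, pb] at h
    rw [h]; rfl
  have s8 : H (prod (prod α a) (prod β b)) (fun p : (V × V) × (V × V) => p.1.1 + p.2.1) =
      ent (conv α β) := by
    have h := STEP_conv_push (prod α a) (prod β b) (fun p : V × V => p.1) (fun p : V × V => p.1)
    rw [pα, pβ] at h
    rw [h]; rfl
  rw [s7, s8] at s6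
  rw [s2, s3, s4, s5] at s1
  have hab' : S.k = ent (conv a b) - ent a / 2 - ent b / 2 := by rw [← hab]; rfl
  have hη : S.η * (ent a + ent b - (ent α + ent a - ent (conv α (dil c a))) / 2
      - (ent β + ent b - ent (conv β (dil c b))) / 2 - S.Hb) =
      S.η * (ent (conv α (dil c a)) + ent (conv β (dil c b))) / 2 -
        S.η * (ent α + ent β) / 2 + S.η * ((ent a + ent b) / 2 - S.Hb) := by ring
  have hz : (ent a + ent b) / 2 - S.Hb = 0 := by rw [hent]; ring
  rw [hη, hz, mul_zero, add_zero] at hmain
  unfold dst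
  linarith

end H890.TOR
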