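import Pool.Agent.H890R2.TOR.FAM1
import Pool.Agent.H890R2.TOR.STEP
import Pool.Agent.H890R2.TOR.ENTB
set_option autoImplicit false

/-! the family Fam: fam_nice and ent_sl (team helper890, Marton in exponent `m` with exponent `O(log m)`). -/

open scoped Classical
open scoped Pointwise
set_option linter.unusedSectionVars false

namespace H890.TOR

open H137.PFR

variable {Ω Ω' α β γ δ : Type*} [Fintype Ω] [Fintype Ω'] [Fintype α] [Fintype β] [Fintype γ]
  [Fintype δ]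
variable {V : Type*} [AddCommGroup V] [Fintype V]

/-- the quantity which decreases -/
noncomputable def FAM2_Pr (S : Setup V) (a b : V → ℝ) : ℝ :=
  dst a b - S.η * (ent a + ent b) / 2

theorem FAM2_dst_comm (a b : V → ℝ) : dst a b = dst b a := by
  unfold dst
  rw [conv_comm a b]
  ring

theorem FAM2_dst_neg (a b : V → ℝ) : dst (dil (-1) a) (dil (-1) b) = dst a b := by
  unfold dst
  rw [← dil_conv, ent_dil_neg, ent_dil_neg, ent_dil_neg]

theorem FAM2_kap_neg (S : Setup V) (a : V → ℝ) : kap S (dil (-1) a) = kap S a := by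
  unfold kap
  have h : conv S.μ₀ (dil (-1) a) = dil (-1) (conv S.μ₀ a) := by
    rw [dil_conv, S.hsym]
  rw [h, ent_dil_neg, ent_dil_neg]

theorem FAM2_kap_conv (S : Setup V) {a b : V → ℝ} (ha : Law a) (hb : Law b) :
    kap S (conv a b) ≤ kap S a := by
  unfold kap
  have h := ent_kvm S.h0 ha hb
  rw [← conv_assoc]
  linarith

section steps

variable (S : Setup V)

theorem FAM2_s12 {α β : V → ℝ} (hα : Law α) (hβ : Law β) (c : ℤ) :
    FAM2_Pr S (conv α (dil c S.μ₁)) (conv β (dil c S.μ₂)) ≤ FAM2_Pr S α β :=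
  up_step S S.h1 S.h2 hα hβ rfl (by unfold Setup.Hb; ring) le_rfl c

theorem FAM2_s21 {α β : V → ℝ} (hα : Law α) (hβ : Law β) (c : ℤ) :
    FAM2_Pr S (conv α (dil c S.μ₂)) (conv β (dil c S.μ₁)) ≤ FAM2_Pr S α β :=
  up_step S S.h2 S.h1 hα hβ (FAM2_dst_comm _ _) (by unfold Setup.Hb; ring) (by linarith) c

theorem FAM2_n12 {α β : V → ℝ} (hα : Law α) (hβ : Law β) (c : ℤ) :
    FAM2_Pr S (conv α (dil c (dil (-1) S.μ₁))) (conv β (dil c (dil (-1) S.μ₂))) ≤
      FAM2_Pr S α β :=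
  up_step S (law_dil S.h1 _) (law_dil S.h2 _) hα hβ (FAM2_dst_neg _ _)
    (by rw [ent_dil_neg, ent_dil_neg]; unfold Setup.Hb; ring)
    (by rw [FAM2_kap_neg, FAM2_kap_neg]) c

theorem FAM2_n21 {α β : V → ℝ} (hα : Law α) (hβ : Law β) (c : ℤ) :
    FAM2_Pr S (conv α (dil c (dil (-1) S.μ₂))) (conv β (dil c (dil (-1) S.μ₁))) ≤
      FAM2_Pr S α β :=
  up_step S (law_dil S.h2 _) (law_dil S.h1 _) hα hβ ((FAM2_dst_neg _ _).trans (FAM2_dst_comm _ _))
    (by rw [ent_dil_neg, ent_dil_neg]; unfold Setup.Hb; ring)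
    (by rw [FAM2_kap_neg, FAM2_kap_neg]; linarith) c

theorem FAM2_dil_sl (c : ℤ) : dil c (sl S) = conv (conv (dil c S.μ₁) (dil c S.μ₂))
    (conv (dil c (dil (-1) S.μ₁)) (dil c (dil (-1) S.μ₂))) := by
  unfold sl
  rw [dil_conv, dil_conv, dil_conv, dil_conv]

theorem FAM2_left (α a b d e : V → ℝ) :
    conv (conv (conv (conv α a) b) d) e = conv α (conv (conv a b) (conv d e)) := by
  simp only [conv_assoc]

theorem FAM2_right (α a b d e : V → ℝ) :
    conv (conv (conv (conv α b) a) e) d = conv α (conv (conv a b) (conv d e)) := by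
  rw [FAM2_left, conv_comm b a, conv_comm e d]

theorem FAM2_pair {α β : V → ℝ} (hα : Law α) (hβ : Law β) (c : ℤ) :
    FAM2_Pr S (conv α (dil c (sl S))) (conv β (dil c (sl S))) ≤ FAM2_Pr S α β := by
  have l1 := law_dil S.h1 c
  have l2 := law_dil S.h2 c
  have l3 := law_dil (law_dil S.h1 (-1)) c
  have l4 := law_dil (law_dil S.h2 (-1)) c
  have h1 := FAM2_s12 S hα hβ c
  have h2 := FAM2_s21 S (law_conv hα l1) (law_conv hβ l2) c
  have h3 := FAM2_n12 S (law_conv (law_conv hα l1) l2) (law_conv (law_conv hβ l2) l1) c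
  have h4 := FAM2_n21 S (law_conv (law_conv (law_conv hα l1) l2) l3)
    (law_conv (law_conv (law_conv hβ l2) l1) l4) c
  rw [FAM2_left, FAM2_right, ← FAM2_dil_sl] at h4
  linarith

theorem FAM2_base : FAM2_Pr S (sl S) (sl S) ≤ FAM2_Pr S S.μ₁ S.μ₂ := by
  have l3 := law_dil S.h1 (-1)
  have l4 := law_dil S.h2 (-1)
  have h2 := FAM2_s21 S S.h1 S.h2 1
  rw [dil_one, dil_one] at h2
  have h3 := FAM2_n12 S (law_conv S.h1 S.h2) (law_conv S.h2 S.h1) 1
  rw [dil_one, dil_one] at h3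
  have h4 := FAM2_n21 S (law_conv (law_conv S.h1 S.h2) l3) (law_conv (law_conv S.h2 S.h1) l4) 1
  rw [dil_one, dil_one] at h4
  have e1 : conv (conv (conv S.μ₁ S.μ₂) (dil (-1) S.μ₁)) (dil (-1) S.μ₂) = sl S := by
    unfold sl
    rw [dil_conv, conv_assoc (conv S.μ₁ S.μ₂)]
  have e2 : conv (conv (conv S.μ₂ S.μ₁) (dil (-1) S.μ₂)) (dil (-1) S.μ₁) = sl S := by
    unfold sl
    rw [dil_conv, conv_assoc (conv S.μ₂ S.μ₁), conv_comm S.μ₂ S.μ₁,
      conv_comm (dil (-1) S.μ₂)]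
  rw [e1, e2] at h4
  linarith

end steps

theorem ent_sl (S : Setup V) : ent (sl S) - S.Hb ≤ 3 * S.k + 2 * S.η * S.k := by
  have ha : Law (conv S.μ₁ S.μ₂) := law_conv S.h1 S.h2
  have h2 := FAM2_s21 S S.h1 S.h2 1
  rw [dil_one, dil_one, conv_comm S.μ₂ S.μ₁] at h2
  have hk : ent (conv S.μ₁ S.μ₂) = S.k + S.Hb := by
    unfold Setup.k dst Setup.Hb
    ring
  have ht := ent_tri ha ha ha
  unfold FAM2_Pr dst at h2
  have hHb : S.Hb = (ent S.μ₁ + ent S.μ₂) / 2 := rfl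
  have hsl : ent (sl S) = ent (conv (conv S.μ₁ S.μ₂) (dil (-1) (conv S.μ₁ S.μ₂))) := rfl
  rw [hsl]
  rw [hk] at h2 ht
  have e : S.η * (S.k + S.Hb + (S.k + S.Hb)) / 2 - S.η * (ent S.μ₁ + ent S.μ₂) / 2 =
      S.η * S.k := by
    rw [hHb]; ring
  nlinarith [h2, ht, e, hHb]

theorem fam_nice (S : Setup V) {ρ : V → ℝ} (hρ : Fam S ρ) : Nice S ρ := by
  have hlaw : ∀ {ρ : V → ℝ}, Fam S ρ → Law ρ := by
    intro ρ hρ
    induction hρ with
    | base => exact law_sl S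
    | step ρ c _ ih => exact law_conv ih (law_dil (law_sl S) c)
  have hdom : kap S ρ ≤ kap S (sl S) := by
    induction hρ with
    | base => exact le_rfl
    | step ρ c h ih => exact (FAM2_kap_conv S (hlaw h) (law_dil (law_sl S) c)).trans ih
  have hk1 : kap S (sl S) ≤ kap S S.μ₁ :=
    (FAM2_kap_conv S (law_conv S.h1 S.h2) (law_dil (law_conv S.h1 S.h2) _)).trans
      (FAM2_kap_conv S S.h1 S.h2)
  have hk2 : kap S (sl S) ≤ kap S S.μ₂ := by
    refine (FAM2_kap_conv S (law_conv S.h1 S.h2) (law_dil (law_conv S.h1 S.h2) _)).trans ?_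
    rw [conv_comm S.μ₁ S.μ₂]
    exact FAM2_kap_conv S S.h2 S.h1
  have hPr : ∀ {ρ : V → ℝ}, Fam S ρ → FAM2_Pr S ρ ρ ≤ FAM2_Pr S S.μ₁ S.μ₂ := by
    intro ρ hρ
    induction hρ with
    | base => exact FAM2_base S
    | step ρ c h ih => exact (FAM2_pair S (hlaw h) (hlaw h) c).trans ih
  replace hPr := hPr hρ
  refine ⟨hlaw hρ, ?_, by linarith, ?_⟩
  · clear hPr hdom
    induction hρ with
    | base => exact sym_sl S
    | step ρ c _ ih =>
      rw [dil_conv, ih, dil_dil, mul_comm, ← dil_dil, sym_sl]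
  · unfold FAM2_Pr dst at hPr
    have hHb : S.Hb = (ent S.μ₁ + ent S.μ₂) / 2 := rfl
    have hk : S.k = ent (conv S.μ₁ S.μ₂) - ent S.μ₁ / 2 - ent S.μ₂ / 2 := rfl
    rw [hHb, hk]
    linarith

end H890.TOR
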