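import Pool.Agent.H890R2.TOR.ALG1
set_option autoImplicit false

/-! fibring upper bound and trivial bounds (team helper890, Marton in exponent `m` with exponent `O(log m)`). -/

open scoped Classical
open scoped Pointwise
set_option linter.unusedSectionVars false

namespace H890.TOR

open H137.PFR

variable {Ω Ω' α β γ δ : Type*} [Fintype Ω] [Fintype Ω'] [Fintype α] [Fintype β] [Fintype γ]
  [Fintype δ]
variable {V : Type*} [AddCommGroup V] [Fintype V]

theorem fib_conv (w : Ω → ℝ) (w' : Ω' → ℝ) (X : Ω → V) (Y : Ω' → V) :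
    H (prod w w') (fun p => X p.1 + Y p.2) = ent (conv (push w X) (push w' Y)) :=
  (H_prod_push w w' X Y (fun p : V × V => p.1 + p.2)).symm

theorem fib_fst {ρ z : V → ℝ} (hz : Law z) : push (prod ρ z) (fun p : V × V => p.1) = ρ := by
  have h := push_prod_fst ρ hz (fun x : V => x)
  rw [push_id'] at h
  exact h

theorem fib_snd {ρ z : V → ℝ} (hρ : Law ρ) : push (prod ρ z) (fun p : V × V => p.2) = z := by
  have h := push_prod_snd hρ z (fun x : V => x)
  rw [push_id'] at h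
  exact h

theorem fib_sub (ρ : V → ℝ) :
    H (prod ρ ρ) (fun p : V × V => p.1 - p.2) = ent (conv ρ (dil (-1) ρ)) := by
  have h := fib_conv ρ ρ (fun x : V => x) (fun x : V => (-1 : ℤ) • x)
  rw [push_id'] at h
  unfold dil
  rw [← h]
  congr 1
  funext p
  simp only [neg_smul, one_smul, sub_eq_add_neg]

theorem AA2_le {ρ z : V → ℝ} (hρ : Law ρ) (hz : Law z) :
    AA2 ρ z + ent (conv (conv ρ z) (dil (-1) (conv ρ z))) ≤
      ent (conv ρ (dil (-1) ρ)) + ent (conv z (dil (-1) z)) + 2 * ent (conv ρ z) := by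
  have hρρ := law_prod hρ hρ
  have hzz := law_prod hz hz
  have hw := law_prod hρρ hzz
  have h1 := H_submod hw (fun x : (V × V) × (V × V) => x.1.1 - x.1.2)
    (fun x : (V × V) × (V × V) => (x.1.1 + x.2.1, x.1.2 + x.2.2))
    (fun x : (V × V) × (V × V) => (x.1.1 + x.2.1) - (x.1.2 + x.2.2))
  have h2 : AA2 ρ z = H (prod (prod ρ ρ) (prod z z)) (fun x : (V × V) × (V × V) =>
      (x.1.1 - x.1.2, (x.1.1 + x.2.1, x.1.2 + x.2.2), (x.1.1 + x.2.1) - (x.1.2 + x.2.2))) := by
    unfold AA2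
    refine H_eq hw (fun t : V × V × V => (t.1, (t.2.1, t.2.2 - t.1), t.2.1 - (t.2.2 - t.1)))
      (fun t : V × (V × V) × V => (t.1, t.2.1.1, t.2.1.2 + t.1)) ?_ ?_
    · intro x
      simp only [Prod.mk.injEq, true_and]
      constructor <;> abel
    · intro x
      simp only [Prod.mk.injEq, true_and]
      abel
  have h3 : H (prod (prod ρ ρ) (prod z z)) (fun x : (V × V) × (V × V) =>
      (x.1.1 - x.1.2, (x.1.1 + x.2.1) - (x.1.2 + x.2.2))) ≤
      ent (conv ρ (dil (-1) ρ)) + ent (conv z (dil (-1) z)) := by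
    have h4 := H_comp_le hw (fun x : (V × V) × (V × V) => (x.1.1 - x.1.2, x.2.1 - x.2.2))
      (fun t : V × V => (t.1, t.1 + t.2))
    have h5 := H_prod hρρ hzz (fun p : V × V => p.1 - p.2) (fun p : V × V => p.1 - p.2)
    rw [fib_sub, fib_sub] at h5
    rw [h5] at h4
    refine le_trans (le_of_eq ?_) h4
    congr 1
    funext x
    simp only [Prod.mk.injEq, true_and]
    abel
  have h6 : H (prod (prod ρ ρ) (prod z z)) (fun x : (V × V) × (V × V) =>
      ((x.1.1 + x.2.1, x.1.2 + x.2.2), (x.1.1 + x.2.1) - (x.1.2 + x.2.2))) ≤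
      2 * ent (conv ρ z) := by
    have h7 := H_comp_le hw (fun x : (V × V) × (V × V) => (x.1.1 + x.2.1, x.1.2 + x.2.2))
      (fun t : V × V => (t, t.1 - t.2))
    have h8 := H_subadd hw (fun x : (V × V) × (V × V) => x.1.1 + x.2.1)
      (fun x : (V × V) × (V × V) => x.1.2 + x.2.2)
    have h9 := fib_conv (prod ρ ρ) (prod z z) (fun p : V × V => p.1) (fun p : V × V => p.1)
    have h10 := fib_conv (prod ρ ρ) (prod z z) (fun p : V × V => p.2) (fun p : V × V => p.2)
    rw [fib_fst hρ, fib_fst hz] at h9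
    rw [fib_snd hρ, fib_snd hz] at h10
    rw [h9, h10] at h8
    linarith
  have h11 : H (prod (prod ρ ρ) (prod z z)) (fun x : (V × V) × (V × V) =>
      (x.1.1 + x.2.1) - (x.1.2 + x.2.2)) = ent (conv (conv ρ z) (dil (-1) (conv ρ z))) := by
    have h12 : dil (-1) (conv ρ z) = push (prod ρ z) (fun p : V × V => (-1 : ℤ) • (p.1 + p.2)) := by
      unfold dil conv
      rw [push_push]
    rw [h12]
    have h13 := fib_conv (prod ρ z) (prod ρ z) (fun p : V × V => p.1 + p.2)
      (fun p : V × V => (-1 : ℤ) • (p.1 + p.2))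
    have h14 : push (prod ρ z) (fun p : V × V => p.1 + p.2) = conv ρ z := rfl
    rw [h14] at h13
    rw [← h13]
    have h15 := H_equiv (Equiv.prodProdProdComm V V V V) (prod (prod ρ z) (prod ρ z))
      (fun p : (V × V) × (V × V) => p.1.1 + p.1.2 + (-1 : ℤ) • (p.2.1 + p.2.2))
    rw [← h15]
    congr 1
    · funext x
      simp only [prod, Equiv.prodProdProdComm_apply]
      ring
    · funext x
      simp only [Equiv.prodProdProdComm_apply, neg_smul, one_smul, sub_eq_add_neg]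
  rw [h2]
  rw [h11] at h1
  linarith

theorem AA1_le {ρ z : V → ℝ} (hρ : Law ρ) (hz : Law z) :
    AA1 ρ z ≤ ent (conv ρ (dil (-1) ρ)) + ent (conv ρ z) := by
  have hρρ := law_prod hρ hρ
  have h1 := H_subadd (law_prod hρρ hz) (fun x : (V × V) × V => x.1.1 - x.1.2)
    (fun x : (V × V) × V => x.1.1 + x.2)
  have h2 := H_prod_fst hρρ hz (fun p : V × V => p.1 - p.2)
  have h3 := fib_conv (prod ρ ρ) z (fun p : V × V => p.1) (fun p : V => p)
  rw [fib_fst hρ, push_id'] at h3
  rw [fib_sub] at h2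
  rw [h2, h3] at h1
  exact h1

theorem EE_le {ρ z : V → ℝ} (hρ : Law ρ) (hz : Law z) : EE ρ z ≤ 2 * ent (conv ρ z) := by
  have hzz := law_prod hz hz
  have h1 := H_subadd (law_prod hρ hzz) (fun x : V × (V × V) => x.1 + x.2.1)
    (fun x : V × (V × V) => x.1 + x.2.2)
  have h2 := fib_conv ρ (prod z z) (fun p : V => p) (fun p : V × V => p.1)
  have h3 := fib_conv ρ (prod z z) (fun p : V => p) (fun p : V × V => p.2)
  rw [fib_fst hz, push_id'] at h2
  rw [fib_snd hz, push_id'] at h3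
  rw [h2, h3] at h1
  unfold EE
  linarith

theorem le_E4 {ρ : V → ℝ} (hρ : Law ρ) : 3 * ent ρ ≤ E4 ρ := by
  have hρρ := law_prod hρ hρ
  have hw := law_prod hρρ hρρ
  have h1 := H_subadd hw (fun x : (V × V) × (V × V) => x.1.1)
    (fun x : (V × V) × (V × V) => (x.1.1 + x.2.1, x.1.1 + x.1.2, x.2.1 + x.2.2))
  have h2 := H_comp_le hw (fun x : (V × V) × (V × V) =>
      (x.1.1, (x.1.1 + x.2.1, x.1.1 + x.1.2, x.2.1 + x.2.2)))
    (fun t : V × V × V × V => ((t.1, t.2.2.1 - t.1), (t.2.1 - t.1, t.2.2.2 - (t.2.1 - t.1))))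
  have h3 : H (prod (prod ρ ρ) (prod ρ ρ)) (fun x : (V × V) × (V × V) =>
      ((x.1.1, x.1.1 + x.1.2 - x.1.1),
        (x.1.1 + x.2.1 - x.1.1, x.2.1 + x.2.2 - (x.1.1 + x.2.1 - x.1.1)))) = 4 * ent ρ := by
    have h4 := H_prod hρ hρ (fun x : V => x) (fun x : V => x)
    have h5 := H_prod hρρ hρρ (fun p : V × V => (p.1, p.2)) (fun p : V × V => (p.1, p.2))
    have h4' : H ρ (fun x : V => x) = ent ρ := H_id ρ
    rw [h4, h4'] at h5
    have h6 : (fun x : (V × V) × (V × V) => ((x.1.1, x.1.1 + x.1.2 - x.1.1),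
        (x.1.1 + x.2.1 - x.1.1, x.2.1 + x.2.2 - (x.1.1 + x.2.1 - x.1.1)))) =
        (fun p : (V × V) × (V × V) => ((p.1.1, p.1.2), (p.2.1, p.2.2))) := by
      funext x
      simp only [Prod.mk.injEq, true_and]
      refine ⟨by abel, by abel, by abel⟩
    rw [h6, h5]
    ring
  have h7 : H (prod (prod ρ ρ) (prod ρ ρ)) (fun x : (V × V) × (V × V) => x.1.1) = ent ρ := by
    have h8 := H_prod_fst hρρ hρρ (fun p : V × V => p.1)
    rw [h8]
    unfold H
    rw [fib_fst hρ]
  rw [h7] at h1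
  rw [h3] at h2
  unfold E4
  linarith

end H890.TOR
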