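import Pool.Agent.H890R2.TOR.SET
import Pool.Agent.H137R2.TwoPow.Final
set_option autoImplicit false

/-! Covering theorem in arbitrary abelian groups of exponent `m`. -/

open scoped Classical Pointwise
set_option linter.unusedSectionVars false
set_option linter.unusedVariables false

namespace H890.TOR

theorem cover_of_inj {V Γ : Type*} [AddCommGroup V] [Fintype V] [AddCommGroup Γ] (ι : V →+ Γ)
    (hinj : Function.Injective ι) {m J : ℕ} (hV : ∀ x : V, m • x = 0) (hm : 2 ≤ m)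
    (hJ : m ≤ 2 ^ J) {K : ℝ} {A' : Finset V} (hA : A'.Nonempty)
    (hK : ((A'.image ι + A'.image ι).card : ℝ) ≤ K * (A'.image ι).card) :
    ∃ (P : AddSubgroup Γ) (T : Finset Γ), Finite P ∧ Nat.card P ≤ (A'.image ι).card ∧
      (T.card : ℝ) ≤ (2 * K) ^ (200000 * J) ∧ ∀ a ∈ A'.image ι, ∃ t ∈ T, a - t ∈ P := by
  have hcard : (A'.image ι).card = A'.card := Finset.card_image_of_injective _ hinj
  have hK' : ((A' + A').card : ℝ) ≤ K * A'.card := by
    have h1 : (A' + A').image ι = A'.image ι + A'.image ι := Finset.image_add ι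
    have h2 : (A' + A').card = (A'.image ι + A'.image ι).card := by
      rw [← h1, Finset.card_image_of_injective _ hinj]
    rw [h2, ← hcard]
    exact hK
  obtain ⟨P, T, hP, hT, hcov⟩ := set_version hV hm hJ A' hA hK'
  refine ⟨P.map ι, T.image ι, ?_, ?_, ?_, ?_⟩
  · exact Set.Finite.to_subtype ((Set.toFinite (P : Set V)).image _)
  · rw [AddSubgroup.card_map_of_injective hinj, hcard]
    exact hP
  · rw [Finset.card_image_of_injective _ hinj]
    exact hT
  · intro a ha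
    obtain ⟨b, hb, rfl⟩ := Finset.mem_image.1 ha
    obtain ⟨t, ht, h⟩ := hcov b hb
    refine ⟨ι t, Finset.mem_image.2 ⟨t, ht, rfl⟩, AddSubgroup.mem_map.2 ⟨_, h, ?_⟩⟩
    rw [map_sub]

theorem finite_closure {Γ : Type*} [AddCommGroup Γ] {m : ℕ} (hm : 2 ≤ m)
    (hΓ : ∀ x : Γ, m • x = 0) (A : Finset Γ) : Finite (AddSubgroup.closure (A : Set Γ)) := by
  have h1 : AddGroup.FG (AddSubgroup.closure (A : Set Γ)) := by
    rw [AddGroup.fg_iff_addSubgroup_fg]
    exact ⟨A, rfl⟩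
  refine @AddCommGroup.finite_of_fg_isAddTorsion _ _ h1 ?_
  intro x
  rw [isOfFinAddOrder_iff_nsmul_eq_zero]
  refine ⟨m, by omega, ?_⟩
  apply Subtype.ext
  rw [AddSubgroup.coe_nsmul, AddSubgroup.coe_zero]
  exact hΓ _

theorem cover {Γ : Type*} [AddCommGroup Γ] {m : ℕ} (hm : 2 ≤ m) (hΓ : ∀ x : Γ, m • x = 0) {K : ℝ}
    {A : Finset Γ} (hA : A.Nonempty) (hK : ((A + A).card : ℝ) ≤ K * A.card) :
    ∃ (P : AddSubgroup Γ) (T : Finset Γ), Finite P ∧ Nat.card P ≤ A.card ∧
      (T.card : ℝ) ≤ (2 * K) ^ (200000 * Nat.clog 2 m) ∧ ∀ a ∈ A, ∃ t ∈ T, a - t ∈ P := by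
  have hfin := finite_closure hm hΓ A
  obtain ⟨A', hA'⟩ := H137.TwoPow.exists_model (AddSubgroup.closure (A : Set Γ)) A
    (fun a ha => AddSubgroup.subset_closure ha)
  have hne : A'.Nonempty := by
    rw [← hA'] at hA
    exact Finset.image_nonempty.1 hA
  have h1 := @cover_of_inj _ Γ _ (@Fintype.ofFinite _ hfin) _
    (AddSubgroup.closure (A : Set Γ)).subtype
    (AddSubgroup.closure (A : Set Γ)).subtype_injective m (Nat.clog 2 m)
    (fun x => Subtype.ext (by rw [AddSubgroup.coe_nsmul, AddSubgroup.coe_zero]; exact hΓ _))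
    hm (Nat.le_pow_clog (Nat.one_lt_two) m) K A' hne
  rw [hA'] at h1
  exact h1 hK

end H890.TOR
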