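import Pool.Agent.H890R2.TOR.FAM2
set_option autoImplicit false

/-! growth and pigeonhole (team helper890, Marton in exponent `m` with exponent `O(log m)`). -/

open scoped Classical
open scoped Pointwise
set_option linter.unusedSectionVars false

namespace H890.TOR

open H137.PFR

variable {V : Type*} [AddCommGroup V] [Fintype V]

theorem GROW_up (S : Setup V) {n : ℕ} (hn : 1 ≤ n) :
    ent (cpow (sl S) (n + n)) - ent (cpow (sl S) n) ≤
      S.k + S.η * (ent (cpow (sl S) n) - S.Hb) := by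
  obtain ⟨n', rfl⟩ := Nat.exists_eq_add_of_le' hn
  have h := (fam_nice S (fam_cpow S Fam.base n')).up
  rw [← cpow_add] at h
  exact h

theorem GROW_eta (S : Setup V) {J : ℕ} (hJ1 : 1 ≤ J) (hη : S.η = 1 / (20000 * J))
    {x : ℝ} (hx : x ≤ 200 * J * S.k) : S.η * x ≤ S.k / 100 := by
  have hJ : (1 : ℝ) ≤ J := by exact_mod_cast hJ1
  have h1 := mul_le_mul_of_nonneg_left hx S.hη.le
  have h2 : S.η * (200 * J * S.k) = S.k / 100 := by
    rw [hη]
    field_simp
    ring
  linarith

/-- growth of `T` -/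
theorem GROW_T (S : Setup V) {J : ℕ} (hJ1 : 1 ≤ J) (hη : S.η = 1 / (20000 * J)) (i : ℕ)
    (hi : i ≤ 15 + 2 * J) :
    ent (cpow (sl S) (2 ^ i)) - S.Hb ≤ (3.01 + 1.01 * i) * S.k := by
  have hJ : (1 : ℝ) ≤ J := by exact_mod_cast hJ1
  have hk0 := k_nonneg S
  induction i with
  | zero =>
    rw [pow_zero, cpow_one]
    have h := ent_sl S
    have h2 := GROW_eta S hJ1 hη (x := 2 * S.k) (by nlinarith)
    push_cast
    linarith
  | succ i ih =>
    have ih' := ih (by omega)
    have h := GROW_up S (n := 2 ^ i) Nat.one_le_two_pow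
    rw [← two_mul, ← pow_succ'] at h
    have hi' : (i : ℝ) ≤ 15 + 2 * J := by
      have : i ≤ 15 + 2 * J := by omega
      exact_mod_cast this
    have h3 : (3.01 + 1.01 * (i : ℝ)) * S.k ≤ 200 * J * S.k :=
      mul_le_mul_of_nonneg_right (by linarith) hk0
    have h2 := GROW_eta S hJ1 hη (ih'.trans h3)
    push_cast
    nlinarith

/-- growth of `B` -/
theorem GROW_B (S : Setup V) {J : ℕ} (hJ1 : 1 ≤ J) (hη : S.η = 1 / (20000 * J)) {t : V → ℝ}
    (ht : Fam S t) (hT : ent t - S.Hb ≤ 20 * J * S.k) (j : ℕ) (hj : j ≤ J) :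
    ent (Bl t (j + 1)) ≤ ent t + 3.03 * j * S.k := by
  have hJ : (1 : ℝ) ≤ J := by exact_mod_cast hJ1
  have hk0 := k_nonneg S
  have lt := (fam_nice S ht).law
  induction j with
  | zero =>
    have : Bl t (0 + 1) = t := by
      change conv t (dil 2 dlt) = t
      rw [dil_dlt, conv_dlt]
    rw [this]
    push_cast
    linarith
  | succ j ih =>
    have ih' := ih (by omega)
    have hj' : (j : ℝ) ≤ J := by
      have : j ≤ J := by omega
      exact_mod_cast this
    set B := Bl t (j + 1) with hB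
    have nB := fam_nice S (fam_Bl S ht j)
    rw [← hB] at nB
    have hBT : B = conv t (dil 2 (Bl t j)) := rfl
    have lR : Law (dil 2 (Bl t j)) := law_dil (law_Bl lt j) 2
    have h1 := ent_double lt nB.law
    rw [nB.sym] at h1
    have h2 := ent_kvm (law_conv nB.law lR) lt lt
    have e1 : conv (conv t B) B = conv (conv (conv B (dil 2 (Bl t j))) t) t := by
      have : conv (conv t B) B = conv (conv t B) (conv t (dil 2 (Bl t j))) := by rw [← hBT]
      rw [this, H137.PFR.conv_comm t B, H137.PFR.conv_comm t (dil 2 (Bl t j)),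
        conv_assoc B t, ← conv_assoc t (dil 2 (Bl t j)) t, H137.PFR.conv_comm t (dil 2 (Bl t j)),
        conv_assoc (dil 2 (Bl t j)) t t, conv_assoc (conv B (dil 2 (Bl t j))) t t,
        conv_assoc B (dil 2 (Bl t j)) (conv t t)]
    have e2 : conv B B = conv (conv B (dil 2 (Bl t j))) t := by
      have : conv B B = conv B (conv t (dil 2 (Bl t j))) := by rw [← hBT]
      rw [this, H137.PFR.conv_comm t (dil 2 (Bl t j)), conv_assoc]
    rw [← e1, ← e2] at h2
    have h3 := nB.up
    have h4 := (fam_nice S ht).up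
    have h5 : 3.03 * (j : ℝ) * S.k ≤ 3.03 * J * S.k := by nlinarith
    have h6 := GROW_eta S hJ1 hη (x := ent B - S.Hb) (by nlinarith)
    have h7 := GROW_eta S hJ1 hη (x := ent t - S.Hb) (by nlinarith)
    have e3 : Bl t (j + 1 + 1) = conv t (dil 2 B) := rfl
    rw [e3]
    push_cast
    linarith

/-- the last increment of a concave sequence -/
theorem GROW_inc {ρ : V → ℝ} (hρ : Law ρ) (n : ℕ) :
    (n : ℝ) * (ent (cpow ρ (2 * n + 1)) - ent (cpow ρ (2 * n))) ≤
      ent (cpow ρ (2 * n)) - ent (cpow ρ n) := by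
  have hd : ∀ i j : ℕ, ent (cpow ρ (i + j + 1)) - ent (cpow ρ (i + j)) ≤
      ent (cpow ρ (i + 1)) - ent (cpow ρ i) := by
    intro i j
    induction j with
    | zero => exact le_rfl
    | succ j ih =>
      have := cpow_conc hρ (i + j)
      have e : i + (j + 1) + 1 = i + j + 2 := by ring
      have e' : i + (j + 1) = i + j + 1 := by ring
      rw [e, e']
      linarith
  have hsum : ∀ j : ℕ, j ≤ n → (j : ℝ) * (ent (cpow ρ (2 * n + 1)) - ent (cpow ρ (2 * n))) ≤
      ent (cpow ρ (n + j)) - ent (cpow ρ n) := by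
    intro j
    induction j with
    | zero => intro _; simp
    | succ j ih =>
      intro hj
      have ih' := ih (by omega)
      have h := hd (n + j) (n - j)
      have e : n + j + (n - j) = 2 * n := by omega
      rw [e] at h
      have e2 : n + (j + 1) = n + j + 1 := by ring
      rw [e2]
      push_cast
      linarith
  have := hsum n le_rfl
  rwa [← two_mul] at this

/-- binary digits -/
theorem GROW_digit {t s : V → ℝ} (ht : Law t) (hs : Law s) (J r : ℕ) (hr : r < 2 ^ J) :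
    ent (conv (Bl t J) (dil (r : ℤ) s)) ≤ ent (Bl t J) + J * (ent (conv t s) - ent t) := by
  have hinc : 0 ≤ ent (conv t s) - ent t := by
    have := ent_le_conv_left ht hs
    linarith
  induction J generalizing r with
  | zero =>
    have : r = 0 := by simpa using hr
    subst this
    rw [Nat.cast_zero, dil_zero hs, conv_dlt]
    simp
  | succ J ih =>
    have hr1 : r / 2 < 2 ^ J := by
      rw [pow_succ] at hr
      omega
    have ih' := ih (r / 2) hr1
    have h := ent_digit ht (law_Bl ht J) hs ((r % 2 : ℕ) : ℤ) ((r / 2 : ℕ) : ℤ)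
    have e : ((r % 2 : ℕ) : ℤ) + 2 * ((r / 2 : ℕ) : ℤ) = (r : ℤ) := by
      omega
    rw [e] at h
    have h0 : ent (conv t (dil ((r % 2 : ℕ) : ℤ) s)) ≤ ent (conv t s) := by
      rcases Nat.mod_two_eq_zero_or_one r with h2 | h2
      · rw [h2, Nat.cast_zero, dil_zero hs, conv_dlt]
        linarith
      · rw [h2, Nat.cast_one, dil_one]
    have e2 : Bl t (J + 1) = conv t (dil 2 (Bl t J)) := rfl
    rw [e2]
    push_cast
    linarith

theorem GROW_Y {t s : V → ℝ} (ht : Law t) (hs : Law s) {m J : ℕ} (hV : ∀ x : V, m • x = 0)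
    (hm : 2 ≤ m) (hJ : m ≤ 2 ^ J) (L : ℕ) :
    ent (conv (Yl s L) (Bl t J)) ≤ ent (Bl t J) + L * (J * (ent (conv t s) - ent t)) := by
  induction L with
  | zero =>
    have : Yl s 0 = dlt := rfl
    rw [this, dlt_conv]
    simp
  | succ L ih =>
    have lB := law_Bl ht J
    have lY := law_Yl hs L
    have ld := law_dil hs ((2 : ℤ) ^ L)
    have h := ent_kvm lY lB ld
    have hr : 2 ^ L % m < 2 ^ J := (Nat.mod_lt _ (by omega)).trans_le hJ
    have hd := GROW_digit ht hs J (2 ^ L % m) hr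
    have e1 : dil ((2 : ℤ) ^ L) s = dil ((2 ^ L % m : ℕ) : ℤ) s := by
      rw [← dil_mod hV (2 ^ L) s]
      push_cast
      rfl
    rw [← e1] at hd
    have e2 : conv (Yl s (L + 1)) (Bl t J) = conv (conv (Yl s L) (Bl t J)) (dil ((2 : ℤ) ^ L) s) := by
      change conv (conv (Yl s L) (dil (2 ^ L) s)) (Bl t J) = _
      rw [conv_assoc, H137.PFR.conv_comm (dil (2 ^ L) s) (Bl t J), ← conv_assoc]
    rw [e2]
    push_cast
    linarith

theorem grow (S : Setup V) {m J : ℕ} (hV : ∀ x : V, m • x = 0) (hm : 2 ≤ m) (hJ : m ≤ 2 ^ J)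
    (hη : S.η = 1 / (20000 * J)) (hk : 0 < S.k) :
    ∃ L : ℕ, ent (Yl (sl S) (L + 2)) - ent (Yl (sl S) (L + 1)) ≤ S.k / 100 ∧
      ent (Yl (sl S) (L + 1)) - S.Hb ≤ 28 * J * S.k := by
  have hJ1 : 1 ≤ J := by
    rcases Nat.eq_zero_or_pos J with h | h
    · subst h
      simp at hJ
      omega
    · exact h
  have hJR : (1 : ℝ) ≤ J := by exact_mod_cast hJ1
  have ls : Law (sl S) := law_sl S
  set n : ℕ := 2 ^ (13 + 2 * J) with hn
  have hn2 : 2 * n = 2 ^ (14 + 2 * J) := by rw [hn]; ring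
  set t : V → ℝ := cpow (sl S) (2 * n) with ht
  have hnpos : 1 ≤ n := Nat.one_le_two_pow
  have Ft : Fam S t := by
    rw [ht]
    obtain ⟨n', hn'⟩ := Nat.exists_eq_add_of_le' (show 1 ≤ 2 * n by omega)
    rw [hn']
    exact fam_cpow S Fam.base n'
  have lt : Law t := (fam_nice S Ft).law
  -- entropy of `T`
  have hT : ent t - S.Hb ≤ (3.01 + 1.01 * (14 + 2 * J)) * S.k := by
    have := GROW_T S hJ1 hη (14 + 2 * J) (by omega)
    rw [← hn2] at this
    push_cast at this
    exact this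
  have hT' : ent t - S.Hb ≤ 20 * J * S.k :=
    hT.trans (mul_le_mul_of_nonneg_right (by linarith) hk.le)
  -- the increment
  have hinc1 := GROW_inc ls n
  have hinc2 := GROW_up S hnpos
  rw [← two_mul] at hinc2
  have hTn : ent (cpow (sl S) n) - S.Hb ≤ 200 * J * S.k := by
    have h := cpow_mono ls (show n ≤ 2 * n by omega)
    rw [← ht] at h
    nlinarith
  have hinc3 := GROW_eta S hJ1 hη hTn
  set inc : ℝ := ent (conv t (sl S)) - ent t with hincdef
  have hinc0 : 0 ≤ inc := by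
    have := ent_le_conv_left lt ls
    rw [hincdef]
    linarith
  have hinc4 : (n : ℝ) * inc ≤ 1.01 * S.k := by
    have e : inc = ent (cpow (sl S) (2 * n + 1)) - ent (cpow (sl S) (2 * n)) := rfl
    rw [e]
    linarith
  -- `B`
  obtain ⟨J', rfl⟩ := Nat.exists_eq_add_of_le' hJ1
  have hB := GROW_B S hJ1 hη Ft hT' J' (by omega)
  -- `J ^ 2 ≤ 4 ^ J`
  have hJJ : ((J' + 1 : ℕ) : ℝ) * ((J' + 1 : ℕ) : ℝ) * 8192 ≤ n := by
    have h1 : J' + 1 ≤ 2 ^ (J' + 1) := Nat.lt_two_pow_self.le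
    have h2 : (J' + 1) * (J' + 1) ≤ 2 ^ (J' + 1) * 2 ^ (J' + 1) := Nat.mul_le_mul h1 h1
    have h3 : n = 2 ^ (J' + 1) * 2 ^ (J' + 1) * 8192 := by
      rw [hn, pow_add, two_mul, pow_add]
      norm_num
      ring
    have h4 : (J' + 1) * (J' + 1) * 8192 ≤ n := by
      rw [h3]
      exact Nat.mul_le_mul_right _ h2
    exact_mod_cast h4
  have hJinc : ((J' + 1 : ℕ) : ℝ) * ((J' + 1 : ℕ) : ℝ) * 8192 * inc ≤ 1.01 * S.k :=
    (mul_le_mul_of_nonneg_right hJJ hinc0).trans hinc4
  -- bound for `Y`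
  have hY : ∀ L : ℕ, L ≤ 2800 * (J' + 1) + 1 →
      ent (Yl (sl S) L) - S.Hb ≤ 24 * ((J' + 1 : ℕ) : ℝ) * S.k := by
    intro L hL
    have h1 := GROW_Y lt ls hV hm hJ L
    have h2 := ent_le_conv_left (law_Yl ls L) (law_Bl lt (J' + 1))
    have hLR : (L : ℝ) ≤ 2801 * ((J' + 1 : ℕ) : ℝ) := by
      have : L ≤ 2801 * (J' + 1) := by omega
      exact_mod_cast this
    have h3 : (L : ℝ) * (((J' + 1 : ℕ) : ℝ) * inc) ≤
        2801 * ((J' + 1 : ℕ) : ℝ) * (((J' + 1 : ℕ) : ℝ) * inc) :=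
      mul_le_mul_of_nonneg_right hLR (by positivity)
    have h4 : (J' : ℝ) * S.k ≤ ((J' + 1 : ℕ) : ℝ) * S.k := by
      push_cast
      nlinarith
    rw [← hincdef] at h1
    have h5 : S.k ≤ ((J' + 1 : ℕ) : ℝ) * S.k := by nlinarith
    nlinarith
  by_contra hcon
  push Not at hcon
  have hlow : ∀ L : ℕ, L ≤ 2800 * (J' + 1) →
      ent (Yl (sl S) 1) + L * (S.k / 100) ≤ ent (Yl (sl S) (L + 1)) := by
    intro L
    induction L with
    | zero => intro _; simp
    | succ L ih =>
      intro hL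
      have ih' := ih (by omega)
      by_contra hlt
      push Not at hlt
      have h1 : ent (Yl (sl S) (L + 2)) - ent (Yl (sl S) (L + 1)) ≤ S.k / 100 := by
        push_cast at hlt
        linarith
      have h2 := hcon L h1
      have h3 := hY (L + 1) (by omega)
      have h4 : 24 * ((J' + 1 : ℕ) : ℝ) * S.k ≤ 28 * ((J' + 1 : ℕ) : ℝ) * S.k := by nlinarith
      linarith
  have h1 := hlow (2800 * (J' + 1)) le_rfl
  have h2 := hY (2800 * (J' + 1) + 1) le_rfl
  have h3 : Yl (sl S) 1 = sl S := by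
    change conv dlt (dil (2 ^ 0) (sl S)) = sl S
    rw [pow_zero, dil_one, dlt_conv]
  have h4 := Hb_le_sl S
  rw [h3] at h1
  push_cast at h1 h2 hJR
  nlinarith

end H890.TOR
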