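import Pool.Agent.H890R2.TOR.LOW
set_option autoImplicit false

/-! low_AA4, low_EE (team helper890, Marton in exponent `m` with exponent `O(log m)`). -/

open scoped Classical
open scoped Pointwise
set_option linter.unusedSectionVars false

namespace H890.TOR

open H137.PFR

variable {Ω Ω' α β γ δ : Type*} [Fintype Ω] [Fintype Ω'] [Fintype α] [Fintype β] [Fintype γ]
  [Fintype δ]
variable {V : Type*} [AddCommGroup V] [Fintype V]

theorem LOW2B_push_neg {ρ : V → ℝ} (h : dil (-1) ρ = ρ) : push ρ (fun x => -x) = ρ := by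
  have h1 : dil (-1) ρ = push ρ (fun x => -x) := by
    unfold dil
    congr 1
    funext x
    rw [neg_one_zsmul]
  rw [← h1, h]

/-- three independent variables -/
theorem LOW2B_three {ρ z : V → ℝ} (h1 : Law ρ) (hz : Law z) :
    H (prod ρ (prod z z)) (fun x : V × (V × V) => (x.1, (x.2.1, x.2.2))) = ent ρ + 2 * ent z := by
  have e1 := H_prod h1 (law_prod hz hz) (fun x : V => x) (fun x : V × V => (x.1, x.2))
  have e2 := H_prod hz hz (fun x : V => x) (fun x : V => x)
  rw [H_id z] at e2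
  rw [H_id ρ] at e1
  refine e1.trans ?_
  rw [e2]
  ring

theorem LOW2B_XC {ρ z : V → ℝ} (h1 : Law ρ) (hz : Law z) :
    H (prod ρ (prod z z)) (fun x : V × (V × V) => (x.1, (x.1 + x.2.1, x.1 + x.2.2))) =
      ent ρ + 2 * ent z := by
  rw [← LOW2B_three h1 hz]
  exact H_eq (law_prod h1 (law_prod hz hz))
    (fun q : V × (V × V) => (q.1, (q.2.1 - q.1, q.2.2 - q.1)))
    (fun q : V × (V × V) => (q.1, (q.1 + q.2.1, q.1 + q.2.2)))
    (fun ω => by simp) (fun ω => by simp)

theorem LOW2B_YD {ρ z : V → ℝ} (h1 : Law ρ) (hz : Law z) :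
    H (prod ρ (prod z z)) (fun x : V × (V × V) => (-x.1, (x.1 + x.2.1, x.1 + x.2.2))) =
      ent ρ + 2 * ent z := by
  rw [← LOW2B_three h1 hz]
  exact H_eq (law_prod h1 (law_prod hz hz))
    (fun q : V × (V × V) => (-q.1, (q.2.1 + q.1, q.2.2 + q.1)))
    (fun q : V × (V × V) => (-q.1, (q.1 + q.2.1, q.1 + q.2.2)))
    (fun ω => by simp) (fun ω => by simp)

/-- rearrangement of the six variables -/
def LOW2B_e (V : Type*) : (V × (V × V)) × (V × (V × V)) ≃ (V × V) × ((V × V) × (V × V)) where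
  toFun := fun p => ((p.1.1, p.2.1), (p.1.2, p.2.2))
  invFun := fun p => ((p.1.1, p.2.1), (p.1.2, p.2.2))
  left_inv := fun _ => rfl
  right_inv := fun _ => rfl

theorem LOW2B_main {ρ z : V → ℝ} (h1 : Law ρ) (hz : Law z) :
    H (prod (prod ρ (prod z z)) (prod ρ (prod z z)))
      (fun p : (V × (V × V)) × (V × (V × V)) => (p.1.1 + -p.2.1,
        (p.1.1 + p.1.2.1, p.1.1 + p.1.2.2), (p.2.1 + p.2.2.1, p.2.1 + p.2.2.2))) = AA4 ρ z := by
  have hl := law_prod h1 (law_prod hz hz)
  have hl2 := law_prod hl hl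
  have e1 : H (prod (prod ρ (prod z z)) (prod ρ (prod z z)))
      (fun p : (V × (V × V)) × (V × (V × V)) => (p.1.1 + -p.2.1,
        (p.1.1 + p.1.2.1, p.1.1 + p.1.2.2), (p.2.1 + p.2.2.1, p.2.1 + p.2.2.2))) =
      H (prod (prod ρ (prod z z)) (prod ρ (prod z z)))
      (fun p : (V × (V × V)) × (V × (V × V)) => (p.1.1 - p.2.1,
        (p.1.1 + p.1.2.1, p.1.1 + p.1.2.2), (p.1.1 + p.2.2.1, p.1.1 + p.2.2.2))) := by
    refine H_eq hl2
      (fun q : V × ((V × V) × (V × V)) => (q.1, q.2.1, (q.2.2.1 + q.1, q.2.2.2 + q.1)))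
      (fun q : V × ((V × V) × (V × V)) => (q.1, q.2.1, (q.2.2.1 - q.1, q.2.2.2 - q.1)))
      (fun ω => ?_) (fun ω => ?_)
    · simp only [Prod.mk.injEq]
      refine ⟨by abel, trivial, by abel, by abel⟩
    · simp only [Prod.mk.injEq]
      refine ⟨by abel, trivial, by abel, by abel⟩
  rw [e1]
  unfold AA4
  rw [← H_equiv (LOW2B_e V)]
  congr 1
  funext p
  simp only [prod, LOW2B_e, Equiv.coe_fn_mk]
  ring

theorem low_AA4 (S : Setup V) {ρ z : V → ℝ} (h1 : Nice S ρ) (hz : Law z) :
    S.k ≤ AA4 ρ z - EE ρ z - ent ρ - 2 * ent z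
      + S.η * (ent ρ - 2 * ent z + EE ρ z - S.Hb) := by
  have hl := law_prod h1.law (law_prod hz hz)
  have hX : push (prod ρ (prod z z)) (fun x : V × (V × V) => x.1) = ρ := by
    rw [push_prod_fst ρ (law_prod hz hz) (fun x => x), push_id']
  have hY : push (prod ρ (prod z z)) (fun x : V × (V × V) => -x.1) = ρ := by
    rw [push_prod_fst ρ (law_prod hz hz) (fun x => -x), LOW2B_push_neg h1.sym]
  have hk : kap S (push (prod ρ (prod z z)) (fun x : V × (V × V) => x.1)) +
      kap S (push (prod ρ (prod z z)) (fun x : V × (V × V) => -x.1)) ≤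
      kap S S.μ₁ + kap S S.μ₂ := by
    rw [hX, hY]
    have := h1.dom
    linarith
  have key := lower_prod S hl hl (fun x : V × (V × V) => x.1)
    (fun x : V × (V × V) => (x.1 + x.2.1, x.1 + x.2.2)) (fun x : V × (V × V) => -x.1)
    (fun x : V × (V × V) => (x.1 + x.2.1, x.1 + x.2.2)) hk
  have e1 := LOW2B_main h1.law hz
  have e2 := LOW2B_XC h1.law hz
  have e3 := LOW2B_YD h1.law hz
  have e4 : H (prod ρ (prod z z)) (fun x : V × (V × V) => x.1) = ent ρ := by
    unfold H; rw [hX]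
  have e5 : H (prod ρ (prod z z)) (fun x : V × (V × V) => -x.1) = ent ρ := by
    unfold H; rw [hY]
  have e6 : H (prod ρ (prod z z)) (fun x : V × (V × V) => (x.1 + x.2.1, x.1 + x.2.2)) = EE ρ z :=
    rfl
  rw [e1, e2, e3, e4, e5, e6] at key
  linarith

theorem low_EE (S : Setup V) {ρ z : V → ℝ} (h1 : Nice S ρ) (h2 : Nice S z) :
    S.k ≤ EE ρ z - ent (conv z z) / 2 - ent ρ / 2 - ent z
      + S.η * ((ent ρ + ent (conv z z)) / 2 - S.Hb) := by
  have hz := h2.law
  have hρ := h1.law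
  have hzz := law_prod hz hz
  have hX : push ρ (fun x : V => x) = ρ := push_id' ρ
  have hY : push (prod z z) (fun x : V × V => x.1) = z := by
    rw [push_prod_fst z hz (fun x => x), push_id']
  have hk : kap S (push ρ (fun x : V => x)) + kap S (push (prod z z) (fun x : V × V => x.1)) ≤
      kap S S.μ₁ + kap S S.μ₂ := by
    rw [hX, hY]
    have := h1.dom
    have := h2.dom
    linarith
  have key := lower_prod S hρ hzz (fun x : V => x) (fun _ : V => ())
    (fun x : V × V => x.1) (fun x : V × V => x.1 - x.2) hk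
  have e1 : H (prod ρ (prod z z)) (fun p : V × (V × V) => (p.1 + p.2.1, (), p.2.1 - p.2.2)) =
      EE ρ z := by
    unfold EE
    refine H_eq (law_prod hρ hzz) (fun q : V × (Unit × V) => (q.1, q.1 - q.2.2))
      (fun q : V × V => (q.1, ((), q.1 - q.2))) (fun ω => ?_) (fun ω => ?_)
    · simp only [Prod.mk.injEq]
      refine ⟨trivial, by abel⟩
    · simp only [Prod.mk.injEq]
      refine ⟨trivial, trivial, by abel⟩
  have e2 : H (prod z z) (fun x : V × V => x.1 - x.2) = ent (conv z z) := by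
    have h3 := H_prod_push z z (fun x : V => x) (fun x : V => -x) (fun p : V × V => p.1 + p.2)
    rw [push_id', LOW2B_push_neg h2.sym] at h3
    have h4 : ent (conv z z) = H (prod z z) (fun p : V × V => p.1 + p.2) := rfl
    rw [h4, h3]
    simp only [sub_eq_add_neg]
  have e3 : H ρ (fun x : V => (x, ())) = ent ρ := by
    rw [← H_id ρ]
    exact H_eq hρ (fun q : V × Unit => q.1) (fun q : V => (q, ())) (fun _ => rfl) (fun _ => rfl)
  have e4 : H (prod z z) (fun x : V × V => (x.1, x.1 - x.2)) = 2 * ent z := by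
    have h3 := H_prod hz hz (fun x : V => x) (fun x : V => x)
    rw [H_id z] at h3
    have h4 : H (prod z z) (fun x : V × V => (x.1, x.1 - x.2)) =
        H (prod z z) (fun x : V × V => (x.1, x.2)) :=
      H_eq hzz (fun q : V × V => (q.1, q.1 - q.2)) (fun q : V × V => (q.1, q.1 - q.2))
        (fun ω => by simp) (fun ω => by simp)
    rw [h4, h3]
    ring
  have e5 : H ρ (fun x : V => x) = ent ρ := H_id ρ
  have e6 : H (prod z z) (fun x : V × V => x.1) = ent z := by
    unfold H; rw [hY]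
  have e7 : H ρ (fun _ : V => ()) = 0 := H_unit hρ
  rw [e1, e2, e3, e4, e5, e6, e7] at key
  linarith

end H890.TOR
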