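import Pool.Agent.H890R2.TOR.ENTB
set_option autoImplicit false

/-! the unit trick (team helper890, Marton in exponent `m` with exponent `O(log m)`). -/

open scoped Classical
open scoped Pointwise
set_option linter.unusedSectionVars false

namespace H890.TOR

open H137.PFR

variable {Ω Ω' α β γ δ : Type*} [Fintype Ω] [Fintype Ω'] [Fintype α] [Fintype β] [Fintype γ]
  [Fintype δ]
variable {V : Type*} [AddCommGroup V] [Fintype V]

/-- transport of entropy along an equivalence of sample spaces -/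
theorem UNIT_congr (e : Ω ≃ Ω') {w : Ω → ℝ} {w' : Ω' → ℝ} {X : Ω → α} {X' : Ω' → α}
    (hw : ∀ ω, w ω = w' (e ω)) (hX : ∀ ω, X ω = X' (e ω)) : H w X = H w' X' := by
  rw [← H_equiv e w' X']
  have h1 : w = fun ω => w' (e ω) := funext hw
  have h2 : X = fun ω => X' (e ω) := funext hX
  rw [h1, h2]

/-- marginalisation of the last variable -/
theorem UNIT_marg {w : Ω → ℝ} {b : Ω' → ℝ} {c : α → ℝ} (hc : Law c)
    (F : Ω × Ω' → β) :
    H (prod w (prod b c)) (fun p => F (p.1, p.2.1)) = H (prod w b) F := by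
  have h1 : prod w b = push (prod w (prod b c)) (fun p => (p.1, p.2.1)) := by
    have h2 : push (prod b c) (fun p => p.1) = b := by
      have := push_prod_fst b hc (fun x : Ω' => x)
      rw [push_id'] at this
      exact this
    calc prod w b = prod (push w (fun x => x)) (push (prod b c) (fun p => p.1)) := by
          rw [push_id', h2]
      _ = _ := by rw [prod_push]
  rw [h1, H_push]

/-- Kaimanovich-Vershik-Madiman for an embedded variable. -/
theorem UNIT_kvm {W : Type*} [AddCommGroup W] [Fintype W] {w : Ω → ℝ} (hw : Law w)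
    {b c : V → ℝ} (hb : Law b) (hc : Law c) (S : Ω → W) (φ : V → W) (ψ : W → V)
    (hφ : ∀ x y, φ (x + y) = φ x + φ y) (hψ : ∀ x, ψ (φ x) = x) :
    H (prod w (prod b c)) (fun p => S p.1 + φ (p.2.1 + p.2.2)) + ent b ≤
      H (prod w b) (fun p => S p.1 + φ p.2) + ent (conv b c) := by
  have hbc := law_prod hb hc
  have hl := law_prod hw hbc
  have h1 := H_submod hl (fun p : Ω × (V × V) => S p.1) (fun p : Ω × (V × V) => p.2.2)
    (fun p : Ω × (V × V) => S p.1 + φ (p.2.1 + p.2.2))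
  have h2 : H (prod w (prod b c)) (fun p : Ω × (V × V) =>
      (S p.1, p.2.2, S p.1 + φ (p.2.1 + p.2.2))) =
      H (prod w (prod b c)) (fun p : Ω × (V × V) => (S p.1, (p.2.1, p.2.2))) :=
    H_eq hl (fun q : W × V × W => (q.1, (ψ (q.2.2 - q.1) - q.2.1, q.2.1)))
      (fun q : W × (V × V) => (q.1, q.2.2, q.1 + φ (q.2.1 + q.2.2)))
      (fun p => by
        refine Prod.ext rfl (Prod.ext ?_ rfl)
        change ψ (S p.1 + φ (p.2.1 + p.2.2) - S p.1) - p.2.2 = p.2.1
        rw [add_sub_cancel_left, hψ, add_sub_cancel_right]) (fun p => rfl)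
  have h3 : H (prod w (prod b c)) (fun p : Ω × (V × V) => (S p.1, (p.2.1, p.2.2))) =
      H w S + (ent b + ent c) := by
    have h31 := H_prod hw hbc S (fun q : V × V => (q.1, q.2))
    have h32 : H (prod b c) (fun q : V × V => (q.1, q.2)) = ent b + ent c := by
      have h33 := H_prod hb hc (fun x : V => x) (fun x : V => x)
      rw [H_id b, H_id c] at h33
      exact h33
    rw [h32] at h31
    exact h31
  have h4 : H (prod w (prod b c)) (fun p : Ω × (V × V) =>
      (S p.1, S p.1 + φ (p.2.1 + p.2.2))) =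
      H (prod w (prod b c)) (fun p : Ω × (V × V) => (S p.1, p.2.1 + p.2.2)) :=
    H_eq hl (fun q : W × W => (q.1, ψ (q.2 - q.1))) (fun q : W × V => (q.1, q.1 + φ q.2))
      (fun p => by
        refine Prod.ext rfl ?_
        change ψ (S p.1 + φ (p.2.1 + p.2.2) - S p.1) = p.2.1 + p.2.2
        rw [add_sub_cancel_left, hψ]) (fun p => rfl)
  have h5 : H (prod w (prod b c)) (fun p : Ω × (V × V) => (S p.1, p.2.1 + p.2.2)) =
      H w S + ent (conv b c) :=
    H_prod hw hbc S (fun q : V × V => q.1 + q.2)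
  have h6 : H (prod w (prod b c)) (fun p : Ω × (V × V) =>
      (p.2.2, S p.1 + φ (p.2.1 + p.2.2))) =
      H (prod w (prod b c)) (fun p : Ω × (V × V) => (p.2.2, S p.1 + φ p.2.1)) :=
    H_eq hl (fun q : V × W => (q.1, q.2 - φ q.1)) (fun q : V × W => (q.1, q.2 + φ q.1))
      (fun p => by
        refine Prod.ext rfl ?_
        change S p.1 + φ (p.2.1 + p.2.2) - φ p.2.2 = S p.1 + φ p.2.1
        rw [hφ]; abel) (fun p => by
        refine Prod.ext rfl ?_
        change S p.1 + φ p.2.1 + φ p.2.2 = S p.1 + φ (p.2.1 + p.2.2)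
        rw [hφ]; abel)
  have h7 := H_subadd hl (fun p : Ω × (V × V) => p.2.2)
    (fun p : Ω × (V × V) => S p.1 + φ p.2.1)
  have h8 : H (prod w (prod b c)) (fun p : Ω × (V × V) => p.2.2) = ent c := by
    have h81 := H_prod_snd hw hbc (fun q : V × V => q.2)
    have h82 := H_prod_snd hb hc (fun x : V => x)
    rw [H_id] at h82
    rw [← h82]
    exact h81
  have h9 := UNIT_marg (w := w) (b := b) hc (fun p : Ω × V => S p.1 + φ p.2)
  rw [h2, h3, h4, h5, h6] at h1
  rw [h8] at h7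
  linarith

/-- `H(q - p, q + Z)` for three laws -/
noncomputable def UNIT_G (a b z : V → ℝ) : ℝ :=
  H (prod (prod a b) z) (fun x : (V × V) × V => (x.1.1 - x.1.2, x.1.1 + x.2))

theorem UNIT_stepA {ρ f b z : V → ℝ} (hρ : Law ρ) (hf : Law f) (hb : Law b) (hz : Law z) :
    UNIT_G (conv ρ f) b z + ent ρ ≤ UNIT_G ρ b z + ent (conv ρ f) := by
  have h1 := UNIT_kvm (law_prod hb hz) hρ hf (fun p : V × V => ((-p.1, p.2) : V × V))
    (fun x : V => ((x, x) : V × V)) (fun p : V × V => p.1) (fun x y => rfl) (fun x => rfl)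
  have h2 : UNIT_G (conv ρ f) b z = H (prod (prod b z) (prod ρ f))
      (fun p => ((-p.1.1, p.1.2) : V × V) + (p.2.1 + p.2.2, p.2.1 + p.2.2)) := by
    have h21 : prod (prod (conv ρ f) b) z = push (prod (prod (prod ρ f) b) z)
        (fun x => ((x.1.1.1 + x.1.1.2, x.1.2), x.2)) := by
      calc prod (prod (conv ρ f) b) z =
          prod (prod (push (prod ρ f) (fun p => p.1 + p.2)) (push b (fun x => x)))
            (push z (fun x => x)) := by rw [push_id', push_id']; rfl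
        _ = _ := by rw [prod_push, prod_push]
    unfold UNIT_G
    rw [h21, H_push]
    refine UNIT_congr
      ⟨fun x => ((x.1.2, x.2), x.1.1), fun y => ((y.2, y.1.1), y.1.2), fun _ => rfl,
        fun _ => rfl⟩ ?_ ?_
    · intro x
      change ρ x.1.1.1 * f x.1.1.2 * b x.1.2 * z x.2 = b x.1.2 * z x.2 * (ρ x.1.1.1 * f x.1.1.2)
      ring
    · intro x
      refine Prod.ext ?_ ?_
      · change x.1.1.1 + x.1.1.2 - x.1.2 = -x.1.2 + (x.1.1.1 + x.1.1.2)
        abel
      · change x.1.1.1 + x.1.1.2 + x.2 = x.2 + (x.1.1.1 + x.1.1.2)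
        abel
  have h3 : UNIT_G ρ b z = H (prod (prod b z) ρ)
      (fun p => ((-p.1.1, p.1.2) : V × V) + (p.2, p.2)) := by
    unfold UNIT_G
    refine UNIT_congr
      ⟨fun x => ((x.1.2, x.2), x.1.1), fun y => ((y.2, y.1.1), y.1.2), fun _ => rfl,
        fun _ => rfl⟩ ?_ ?_
    · intro x
      change ρ x.1.1 * b x.1.2 * z x.2 = b x.1.2 * z x.2 * ρ x.1.1
      ring
    · intro x
      refine Prod.ext ?_ ?_
      · change x.1.1 - x.1.2 = -x.1.2 + x.1.1
        abel
      · change x.1.1 + x.2 = x.2 + x.1.1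
        abel
  rw [h2, h3]
  exact h1

theorem UNIT_stepB {ρ f a z : V → ℝ} (hρ : Law ρ) (hf : Law f) (ha : Law a) (hz : Law z) :
    UNIT_G a (conv ρ f) z + ent ρ ≤ UNIT_G a ρ z + ent (conv ρ f) := by
  have h1 := UNIT_kvm (law_prod ha hz) hρ hf (fun p : V × V => ((p.1, p.1 + p.2) : V × V))
    (fun x : V => ((-x, 0) : V × V)) (fun p : V × V => -p.1)
    (fun x y => by
      refine Prod.ext ?_ ?_
      · change -(x + y) = -x + -y
        abel
      · change (0 : V) = 0 + 0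
        rw [add_zero]) (fun x => by
      change - -x = x
      rw [neg_neg])
  have h2 : UNIT_G a (conv ρ f) z = H (prod (prod a z) (prod ρ f))
      (fun p => ((p.1.1, p.1.1 + p.1.2) : V × V) + (-(p.2.1 + p.2.2), 0)) := by
    have h21 : prod (prod a (conv ρ f)) z = push (prod (prod a (prod ρ f)) z)
        (fun x => ((x.1.1, x.1.2.1 + x.1.2.2), x.2)) := by
      calc prod (prod a (conv ρ f)) z =
          prod (prod (push a (fun x => x)) (push (prod ρ f) (fun p => p.1 + p.2)))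
            (push z (fun x => x)) := by rw [push_id', push_id']; rfl
        _ = _ := by rw [prod_push, prod_push]
    unfold UNIT_G
    rw [h21, H_push]
    refine UNIT_congr
      ⟨fun x => ((x.1.1, x.2), x.1.2), fun y => ((y.1.1, y.2), y.1.2), fun _ => rfl,
        fun _ => rfl⟩ ?_ ?_
    · intro x
      change a x.1.1 * (ρ x.1.2.1 * f x.1.2.2) * z x.2 =
        a x.1.1 * z x.2 * (ρ x.1.2.1 * f x.1.2.2)
      ring
    · intro x
      refine Prod.ext ?_ ?_
      · change x.1.1 - (x.1.2.1 + x.1.2.2) = x.1.1 + -(x.1.2.1 + x.1.2.2)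
        abel
      · change x.1.1 + x.2 = x.1.1 + x.2 + 0
        abel
  have h3 : UNIT_G a ρ z = H (prod (prod a z) ρ)
      (fun p => ((p.1.1, p.1.1 + p.1.2) : V × V) + (-p.2, 0)) := by
    unfold UNIT_G
    refine UNIT_congr
      ⟨fun x => ((x.1.1, x.2), x.1.2), fun y => ((y.1.1, y.2), y.1.2), fun _ => rfl,
        fun _ => rfl⟩ ?_ ?_
    · intro x
      change a x.1.1 * ρ x.1.2 * z x.2 = a x.1.1 * z x.2 * ρ x.1.2
      ring
    · intro x
      refine Prod.ext ?_ ?_
      · change x.1.1 - x.1.2 = x.1.1 + -x.1.2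
        abel
      · change x.1.1 + x.2 = x.1.1 + x.2 + 0
        abel
  rw [h2, h3]
  exact h1

/-- the entropy of a difference does not decrease if we add independent variables -/
theorem UNIT_diff {ρ f : V → ℝ} (hρ : Law ρ) (hf : Law f) :
    H (prod ρ ρ) (fun x : V × V => x.1 - x.2) ≤
      H (prod (conv ρ f) (conv ρ f)) (fun x : V × V => x.1 - x.2) := by
  have h1 : H (prod (conv ρ f) (conv ρ f)) (fun x : V × V => x.1 - x.2) =
      H (prod (prod ρ ρ) (prod f f)) (fun x => (x.1.1 - x.1.2) + (x.2.1 - x.2.2)) := by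
    have h11 : H (prod (conv ρ f) (conv ρ f)) (fun x : V × V => x.1 - x.2) =
        H (prod (prod ρ f) (prod ρ f)) (fun x => (x.1.1 + x.1.2) - (x.2.1 + x.2.2)) :=
      H_prod_push (prod ρ f) (prod ρ f) (fun p => p.1 + p.2) (fun p => p.1 + p.2)
        (fun x : V × V => x.1 - x.2)
    rw [h11]
    refine UNIT_congr
      ⟨fun x => ((x.1.1, x.2.1), (x.1.2, x.2.2)), fun y => ((y.1.1, y.2.1), (y.1.2, y.2.2)),
        fun _ => rfl, fun _ => rfl⟩ ?_ ?_
    · intro x
      change ρ x.1.1 * f x.1.2 * (ρ x.2.1 * f x.2.2) = ρ x.1.1 * ρ x.2.1 * (f x.1.2 * f x.2.2)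
      ring
    · intro x
      change x.1.1 + x.1.2 - (x.2.1 + x.2.2) = x.1.1 - x.2.1 + (x.1.2 - x.2.2)
      abel
  have h2 : ent (conv (push (prod ρ ρ) (fun x : V × V => x.1 - x.2))
      (push (prod f f) (fun x : V × V => x.1 - x.2))) =
      H (prod (prod ρ ρ) (prod f f)) (fun x => (x.1.1 - x.1.2) + (x.2.1 - x.2.2)) :=
    H_prod_push (prod ρ ρ) (prod f f) (fun x : V × V => x.1 - x.2) (fun x : V × V => x.1 - x.2)
      (fun x : V × V => x.1 + x.2)
  have h3 := ent_le_conv_left (law_push (law_prod hρ hρ) (fun x : V × V => x.1 - x.2))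
    (law_push (law_prod hf hf) (fun x : V × V => x.1 - x.2))
  rw [h1, ← h2]
  exact h3

/-- the entropy `E3` in other coordinates -/
theorem UNIT_E3 (ρ : V → ℝ) (hρ : Law ρ) :
    E3 ρ = H (prod (prod ρ ρ) (conv ρ ρ))
      (fun y : (V × V) × V => (y.1.1 - y.1.2, (2 : ℤ) • y.1.1 + y.2)) := by
  have h1 : prod (prod ρ ρ) (conv ρ ρ) = push (prod (prod ρ ρ) (prod ρ ρ))
      (fun x => (x.1, x.2.1 + x.2.2)) := by
    calc prod (prod ρ ρ) (conv ρ ρ) = prod (push (prod ρ ρ) (fun x => x))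
          (push (prod ρ ρ) (fun p => p.1 + p.2)) := by rw [push_id']; rfl
      _ = _ := by rw [prod_push]
  have hl := law_prod (law_prod hρ hρ) (law_prod hρ hρ)
  rw [h1, H_push]
  unfold E3
  have h2 : H (prod (prod ρ ρ) (prod ρ ρ)) (fun x : (V × V) × (V × V) =>
      (x.1.1 + x.1.2 + (x.1.1 + x.2.1), x.1.1 + x.1.2 + (x.2.1 + x.2.2))) =
      H (prod (prod ρ ρ) (prod ρ ρ)) (fun x : (V × V) × (V × V) =>
        (x.1.1 - x.2.2, (2 : ℤ) • x.1.1 + (x.1.2 + x.2.1))) :=
    H_eq hl (fun q : V × V => (q.1 - q.2, q.1)) (fun q : V × V => (q.2, q.2 - q.1))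
      (fun x => by
        refine Prod.ext ?_ ?_
        · change x.1.1 + x.1.2 + (x.1.1 + x.2.1) - (x.1.1 + x.1.2 + (x.2.1 + x.2.2)) =
            x.1.1 - x.2.2
          abel
        · change x.1.1 + x.1.2 + (x.1.1 + x.2.1) = (2 : ℤ) • x.1.1 + (x.1.2 + x.2.1)
          rw [two_zsmul]; abel)
      (fun x => by
        refine Prod.ext ?_ ?_
        · change (2 : ℤ) • x.1.1 + (x.1.2 + x.2.1) = x.1.1 + x.1.2 + (x.1.1 + x.2.1)
          rw [two_zsmul]; abel
        · change (2 : ℤ) • x.1.1 + (x.1.2 + x.2.1) - (x.1.1 - x.2.2) =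
            x.1.1 + x.1.2 + (x.2.1 + x.2.2)
          rw [two_zsmul]; abel)
  rw [h2]
  refine UNIT_congr
    ⟨fun x => ((x.1.1, x.2.2), (x.1.2, x.2.1)), fun y => ((y.1.1, y.2.1), (y.2.2, y.1.2)),
      fun _ => rfl, fun _ => rfl⟩ ?_ ?_
  · intro x
    change ρ x.1.1 * ρ x.1.2 * (ρ x.2.1 * ρ x.2.2) = ρ x.1.1 * ρ x.2.2 * (ρ x.1.2 * ρ x.2.1)
    ring
  · intro x
    rfl

/-- the submodularity step -/
theorem UNIT_sub {ρ e z : V → ℝ} (hρ : Law ρ) (he : Law e) (hz : Law z) :
    H (prod (prod ρ ρ) z) (fun y : (V × V) × V => (y.1.1 - y.1.2, (2 : ℤ) • y.1.1 + y.2)) +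
      H (prod (conv e (dil 2 ρ)) (conv e (dil 2 ρ))) (fun x : V × V => x.1 - x.2) ≤
      UNIT_G (conv e (dil 2 ρ)) (conv e (dil 2 ρ)) z +
        H (prod ρ ρ) (fun x : V × V => x.1 - x.2) := by
  set σ : V → ℝ := conv e (dil 2 ρ) with hσ
  have hσ1 : σ = push (prod e ρ) (fun p => p.1 + (2 : ℤ) • p.2) := by
    rw [hσ]
    unfold conv dil
    calc push (prod e (push ρ (fun x => (2 : ℤ) • x))) (fun p => p.1 + p.2) =
        push (prod (push e (fun x => x)) (push ρ (fun x => (2 : ℤ) • x)))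
          (fun p => p.1 + p.2) := by rw [push_id']
      _ = _ := by rw [prod_push, push_push]
  have hσL : Law σ := by rw [hσ1]; exact law_push (law_prod he hρ) _
  have hee := law_prod he he
  have hρρ := law_prod hρ hρ
  have hρz := law_prod hρρ hz
  have hL := law_prod hee hρz
  -- the variables
  let qh : (V × V) × ((V × V) × V) → V := fun x => x.1.1 + (2 : ℤ) • x.2.1.1
  let ph : (V × V) × ((V × V) × V) → V := fun x => x.1.2 + (2 : ℤ) • x.2.1.2
  have hpush : prod (prod σ σ) z = push (prod (prod e e) (prod (prod ρ ρ) z))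
      (fun x => ((qh x, ph x), x.2.2)) := by
    have h1 : prod (prod σ σ) z = push (prod (prod (prod e ρ) (prod e ρ)) z)
        (fun x => ((x.1.1.1 + (2 : ℤ) • x.1.1.2, x.1.2.1 + (2 : ℤ) • x.1.2.2), x.2)) := by
      calc prod (prod σ σ) z = prod (prod (push (prod e ρ) (fun p => p.1 + (2 : ℤ) • p.2))
            (push (prod e ρ) (fun p => p.1 + (2 : ℤ) • p.2))) (push z (fun x => x)) := by
            rw [push_id', ← hσ1]
        _ = _ := by rw [prod_push, prod_push]
    rw [h1]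
    let E : ((V × V) × ((V × V) × V)) ≃ (((V × V) × (V × V)) × V) :=
      ⟨fun x => (((x.1.1, x.2.1.1), (x.1.2, x.2.1.2)), x.2.2),
        fun y => ((y.1.1.1, y.1.2.1), ((y.1.1.2, y.1.2.2), y.2)), fun _ => rfl, fun _ => rfl⟩
    rw [← push_equiv E]
    have hw : (fun ω => prod (prod (prod e ρ) (prod e ρ)) z (E ω)) =
        prod (prod e e) (prod (prod ρ ρ) z) := by
      funext x
      change e x.1.1 * ρ x.2.1.1 * (e x.1.2 * ρ x.2.1.2) * z x.2.2 =
        e x.1.1 * e x.1.2 * (ρ x.2.1.1 * ρ x.2.1.2 * z x.2.2)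
      ring
    rw [hw]
    rfl
  have hDU : UNIT_G σ σ z = H (prod (prod e e) (prod (prod ρ ρ) z))
      (fun x => (qh x - ph x, qh x + x.2.2)) := by
    unfold UNIT_G
    rw [hpush, H_push]
  have hD : H (prod σ σ) (fun x : V × V => x.1 - x.2) =
      H (prod (prod e e) (prod (prod ρ ρ) z)) (fun x => qh x - ph x) := by
    have h1 := H_prod_fst (law_prod hσL hσL) hz (fun x : V × V => x.1 - x.2)
    rw [← h1, hpush, H_push]
  have hsub := H_submod hL (fun x => qh x + x.2.2) (fun x => (x.1, x.2.1.1 - x.2.1.2))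
    (fun x => qh x - ph x)
  have e1 : H (prod (prod e e) (prod (prod ρ ρ) z)) (fun x : (V × V) × ((V × V) × V) =>
      ((x.1, x.2.1.1 - x.2.1.2), qh x - ph x)) =
      H (prod (prod e e) (prod (prod ρ ρ) z)) (fun x : (V × V) × ((V × V) × V) =>
        (x.1, x.2.1.1 - x.2.1.2)) :=
    H_eq hL (fun q : ((V × V) × V) × V => q.1)
      (fun q : (V × V) × V => (q, (q.1.1 - q.1.2) + (2 : ℤ) • q.2)) (fun x => rfl)
      (fun x => by
        refine Prod.ext rfl ?_
        change (x.1.1 - x.1.2) + (2 : ℤ) • (x.2.1.1 - x.2.1.2) =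
          (x.1.1 + (2 : ℤ) • x.2.1.1) - (x.1.2 + (2 : ℤ) • x.2.1.2)
        rw [smul_sub]; abel)
  have e2 : H (prod (prod e e) (prod (prod ρ ρ) z)) (fun x : (V × V) × ((V × V) × V) =>
        (x.1, x.2.1.1 - x.2.1.2)) = ent (prod e e) + H (prod ρ ρ) (fun x : V × V => x.1 - x.2) := by
    have h1 := H_prod hee hρz (fun x : V × V => x) (fun y : (V × V) × V => y.1.1 - y.1.2)
    rw [H_id] at h1
    have h2 := H_prod_fst hρρ hz (fun x : V × V => x.1 - x.2)
    rw [h2] at h1
    exact h1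
  have e3 : H (prod (prod e e) (prod (prod ρ ρ) z)) (fun x : (V × V) × ((V × V) × V) =>
      (qh x + x.2.2, (x.1, x.2.1.1 - x.2.1.2), qh x - ph x)) =
      H (prod (prod e e) (prod (prod ρ ρ) z)) (fun x : (V × V) × ((V × V) × V) =>
        (x.1, (x.2.1.1 - x.2.1.2, (2 : ℤ) • x.2.1.1 + x.2.2))) :=
    H_eq hL (fun q : V × (((V × V) × V) × V) => (q.2.1.1, (q.2.1.2, q.1 - q.2.1.1.1)))
      (fun q : (V × V) × (V × V) => (q.1.1 + q.2.2, (q.1, q.2.1),
        (q.1.1 - q.1.2) + (2 : ℤ) • q.2.1))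
      (fun x => by
        refine Prod.ext rfl (Prod.ext rfl ?_)
        change x.1.1 + (2 : ℤ) • x.2.1.1 + x.2.2 - x.1.1 = (2 : ℤ) • x.2.1.1 + x.2.2
        abel)
      (fun x => by
        refine Prod.ext ?_ (Prod.ext rfl ?_)
        · change x.1.1 + ((2 : ℤ) • x.2.1.1 + x.2.2) = x.1.1 + (2 : ℤ) • x.2.1.1 + x.2.2
          abel
        · change (x.1.1 - x.1.2) + (2 : ℤ) • (x.2.1.1 - x.2.1.2) =
            (x.1.1 + (2 : ℤ) • x.2.1.1) - (x.1.2 + (2 : ℤ) • x.2.1.2)
          rw [smul_sub]; abel)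
  have e4 : H (prod (prod e e) (prod (prod ρ ρ) z)) (fun x : (V × V) × ((V × V) × V) =>
        (x.1, (x.2.1.1 - x.2.1.2, (2 : ℤ) • x.2.1.1 + x.2.2))) = ent (prod e e) +
      H (prod (prod ρ ρ) z) (fun y : (V × V) × V =>
        (y.1.1 - y.1.2, (2 : ℤ) • y.1.1 + y.2)) := by
    have h1 := H_prod hee hρz (fun x : V × V => x) (fun y : (V × V) × V =>
      (y.1.1 - y.1.2, (2 : ℤ) • y.1.1 + y.2))
    rw [H_id] at h1
    exact h1
  have e5 : H (prod (prod e e) (prod (prod ρ ρ) z)) (fun x : (V × V) × ((V × V) × V) =>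
      (qh x + x.2.2, qh x - ph x)) =
      H (prod (prod e e) (prod (prod ρ ρ) z)) (fun x : (V × V) × ((V × V) × V) =>
        (qh x - ph x, qh x + x.2.2)) :=
    H_eq hL (fun q : V × V => (q.2, q.1)) (fun q : V × V => (q.2, q.1)) (fun _ => rfl)
      (fun _ => rfl)
  rw [e3, e4, e1, e2, e5] at hsub
  rw [hDU, hD]
  linarith

theorem unit_trick {ρ e f : V → ℝ} (hρ : Law ρ) (he : Law e) (hf : Law f)
    (hef : conv e (dil 2 ρ) = conv ρ f) :
    E3 ρ ≤ AA1 ρ (conv ρ ρ) + 2 * (ent (conv ρ f) - ent ρ) := by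
  have hz := law_conv hρ hρ
  have hσ := law_conv hρ hf
  have h1 := UNIT_sub hρ he hz
  rw [hef] at h1
  have h2 := UNIT_stepA hρ hf hσ hz
  have h3 := UNIT_stepB hρ hf hρ hz
  have h4 := UNIT_diff hρ hf
  have h5 := UNIT_E3 ρ hρ
  have h6 : AA1 ρ (conv ρ ρ) = UNIT_G ρ ρ (conv ρ ρ) := rfl
  rw [h5, h6]
  linarith

end H890.TOR
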