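import Pool.Agent.H890R2.TOR.LOW2A
import Pool.Agent.H890R2.TOR.LOW2B
import Pool.Agent.H890R2.TOR.UNIT
import Pool.Agent.H890R2.TOR.CONC
import Pool.Agent.H890R2.TOR.FIB
set_option autoImplicit false

/-! the key inequality (linear arithmetic) (team helper890, Marton in exponent `m` with exponent `O(log m)`). -/

open scoped Classical
open scoped Pointwise
set_option linter.unusedSectionVars false

namespace H890.TOR

open H137.PFR

variable {V : Type*} [AddCommGroup V] [Fintype V]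

theorem KEY_k_nonneg (S : Setup V) : 0 ≤ S.k := by
  have h1 := ent_le_conv_left S.h1 S.h2
  have h2 := ent_le_conv_left S.h2 S.h1
  rw [H137.PFR.conv_comm S.μ₂ S.μ₁] at h2
  unfold Setup.k dst
  linarith

theorem key (S : Setup V) {ρ : V → ℝ} (h1 : Nice S ρ) (h2 : Nice S (conv ρ ρ))
    (h3 : Nice S (conv ρ (conv ρ ρ))) {e f : V → ℝ} (he : Law e) (hf : Law f)
    (hef : conv e (dil 2 ρ) = conv ρ f) {δ : ℝ}
    (hδ : S.η * (ent (conv (conv ρ ρ) (conv ρ ρ)) - S.Hb + 10 * S.k) ≤ δ) (hδk : δ ≤ S.k)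
    (hg : ent (conv ρ f) - ent ρ ≤ S.k) :
    5 * S.k - 28 * δ - 4 * (ent (conv ρ f) - ent ρ) ≤
      3 * (ent (conv ρ (conv ρ ρ)) - ent ρ) := by
  have hk0 := KEY_k_nonneg S
  have l1 := h1.law
  have l2 := h2.law
  have l3 := h3.law
  -- monotonicity
  have m12 : ent ρ ≤ ent (conv ρ ρ) := ent_le_conv_left l1 l1
  have m23 : ent (conv ρ ρ) ≤ ent (conv ρ (conv ρ ρ)) := by
    have := ent_le_conv_left l2 l1
    rwa [H137.PFR.conv_comm (conv ρ ρ) ρ] at this
  have m34 : ent (conv ρ (conv ρ ρ)) ≤ ent (conv (conv ρ ρ) (conv ρ ρ)) := by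
    have := ent_le_conv_left l3 l1
    rw [H137.PFR.conv_comm (conv ρ (conv ρ ρ)) ρ, ← conv_assoc ρ ρ (conv ρ ρ)] at this
    exact this
  have hgn : 0 ≤ ent (conv ρ f) - ent ρ := by
    have := ent_le_conv_left l1 hf
    linarith
  have hη := S.hη.le
  -- error bound
  have er : ∀ R : ℝ, R ≤ ent (conv (conv ρ ρ) (conv ρ ρ)) - S.Hb + 10 * S.k → S.η * R ≤ δ :=
    fun R hR => (mul_le_mul_of_nonneg_left hR hη).trans hδ
  -- (a)
  have a1 := h1.up
  have a2 := h2.up
  have e1 := er (ent ρ - S.Hb) (by linarith)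
  have e2 := er (ent (conv ρ ρ) - S.Hb) (by linarith)
  have e3 := er (ent (conv ρ (conv ρ ρ)) - S.Hb) (by linarith)
  -- (b)
  have b1 := low_self S h1
  have b2 := low_self S h2
  have b3 := low_self S h3
  -- (c)
  have c1 := low_E4 S h1
  -- trivial bounds
  have t1 := le_E4 l1
  have t2 := unit_trick l1 he hf hef
  have t3 := AA1_le l1 l2
  rw [h1.sym] at t3
  have t4 := EE_le l1 l2
  -- (d)
  have d1 := low_bsg S h1 h2
  have e4 := er (2 * ent (conv ρ ρ) - (E4 ρ - E3 ρ) - S.Hb) (by linarith)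
  -- (g), (h)
  have g1 := AA_conc l1 l2
  have g2 := AA2_le l1 l2
  rw [h1.sym, h2.sym, h3.sym] at g2
  -- (i)
  have i1 := low_AA4 S h1 l2
  have e5 := er (ent ρ - 2 * ent (conv ρ ρ) + EE ρ (conv ρ ρ) - S.Hb) (by linarith)
  have i2 := low_EE S h1 h2
  have e6 := er ((ent ρ + ent (conv (conv ρ ρ) (conv ρ ρ))) / 2 - S.Hb) (by linarith)
  linarith

end H890.TOR
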