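import Pool.Agent.H890R2.TOR.KEY
import Pool.Agent.H890R2.TOR.GROW
set_option autoImplicit false

/-! k = 0 (team helper890, Marton in exponent `m` with exponent `O(log m)`). -/

open scoped Classical
open scoped Pointwise
set_option linter.unusedSectionVars false

namespace H890.TOR

open H137.PFR

variable {V : Type*} [AddCommGroup V] [Fintype V]

/-- adding three copies of `f` to three copies of `ρ` -/
theorem KZERO_three {ρ f : V → ℝ} (hρ : Law ρ) (hf : Law f) :
    ent (conv (cpow ρ 3) (cpow f 3)) - ent (cpow ρ 3) ≤ 3 * (ent (conv ρ f) - ent ρ) := by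
  have key : ∀ x : V → ℝ, Law x → ent (conv (conv x ρ) f) - ent (conv x ρ) ≤
      ent (conv ρ f) - ent ρ := by
    intro x hx
    have := ent_kvm hx hρ hf
    linarith
  have l2 := law_cpow hρ 2
  have h1 := key (cpow ρ 2) l2
  have h2 := key (conv (cpow ρ 2) f) (law_conv l2 hf)
  have h3 := key (conv (conv (cpow ρ 2) f) f) (law_conv (law_conv l2 hf) hf)
  have e0 : cpow ρ 3 = conv (cpow ρ 2) ρ := rfl
  have e1 : conv (conv (cpow ρ 2) f) ρ = conv (conv (cpow ρ 2) ρ) f := by
    rw [conv_assoc, H137.PFR.conv_comm f ρ, ← conv_assoc]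
  have e2 : conv (conv (conv (cpow ρ 2) f) f) ρ = conv (conv (conv (cpow ρ 2) ρ) f) f := by
    rw [conv_assoc, H137.PFR.conv_comm f ρ, ← conv_assoc, e1]
  have e3 : conv (cpow ρ 3) (cpow f 3) = conv (conv (conv (conv (cpow ρ 2) ρ) f) f) f := by
    have : cpow f 3 = conv (conv f f) f := by
      change conv (conv (conv dlt f) f) f = _
      rw [dlt_conv]
    rw [this, ← conv_assoc, ← conv_assoc, e0]
  rw [e1] at h2
  rw [e2] at h3
  rw [e3, e0]
  linarith

theorem k_eq_zero (S : Setup V) {m J : ℕ} (hV : ∀ x : V, m • x = 0) (hm : 2 ≤ m)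
    (hJ : m ≤ 2 ^ J) (hη : S.η = 1 / (20000 * J)) : S.k = 0 := by
  by_contra hk'
  have hk : 0 < S.k := lt_of_le_of_ne (k_nonneg S) (Ne.symm hk')
  have hJ1 : 1 ≤ J := by
    rcases Nat.eq_zero_or_pos J with h | h
    · subst h
      simp at hJ
      omega
    · exact h
  have hJR : (1 : ℝ) ≤ J := by exact_mod_cast hJ1
  obtain ⟨L, hL1, hL2⟩ := grow S hV hm hJ hη hk
  set Y : V → ℝ := Yl (sl S) (L + 1) with hY
  have FY : Fam S Y := fam_Yl S L
  have lY : Law Y := (fam_nice S FY).law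
  have ls : Law (sl S) := law_sl S
  set f : V → ℝ := dil (2 ^ (L + 1)) (sl S) with hf
  have lf : Law f := law_dil ls _
  have hef : conv (sl S) (dil 2 Y) = conv Y f := by
    rw [hY, ← Yl_succ' (sl S) (L + 1)]
    rfl
  have e2 : Yl (sl S) (L + 2) = conv Y f := rfl
  rw [e2] at hL1
  -- nice laws
  have nc : ∀ n : ℕ, 1 ≤ n → Nice S (cpow Y n) := by
    intro n hn
    obtain ⟨n', rfl⟩ := Nat.exists_eq_add_of_le' hn
    exact fam_nice S (fam_cpow S FY n')
  have up : ∀ n : ℕ, 1 ≤ n → ent (cpow Y (n + n)) - ent (cpow Y n) ≤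
      S.k + S.η * (ent (cpow Y n) - S.Hb) := by
    intro n hn
    have h := (nc n hn).up
    rwa [← cpow_add] at h
  have low : ∀ n : ℕ, 1 ≤ n → S.k ≤ ent (cpow Y (n + n)) - ent (cpow Y n) +
      S.η * (ent (cpow Y n) - S.Hb) := by
    intro n hn
    have h := low_self S (nc n hn)
    rwa [← cpow_add] at h
  -- errors
  set δ : ℝ := S.k / 400 with hδ
  have er : ∀ x : ℝ, x ≤ 50 * J * S.k → S.η * x ≤ δ := by
    intro x hx
    have h1 := mul_le_mul_of_nonneg_left hx S.hη.le
    have h2 : S.η * (50 * J * S.k) = S.k / 400 := by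
      rw [hη]
      field_simp
      ring
    rw [hδ]
    linarith
  have c1 : cpow Y 1 = Y := cpow_one Y
  have hkJ : S.k ≤ J * S.k := by nlinarith
  have b1 : ent (cpow Y 1) - S.Hb ≤ 28 * J * S.k := by rw [c1]; exact hL2
  have u1 := up 1 le_rfl
  have v1 := er _ (b1.trans (by nlinarith))
  have u2 := up 2 (by norm_num)
  have v2 := er (ent (cpow Y 2) - S.Hb) (by linarith)
  have u4 := up 4 (by norm_num)
  have v4 := er (ent (cpow Y 4) - S.Hb) (by linarith)
  have u8 := up 8 (by norm_num)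
  have v8 := er (ent (cpow Y 8) - S.Hb) (by linarith)
  norm_num at u1 u2 u4 u8
  have mono : ∀ {a b : ℕ}, a ≤ b → ent (cpow Y a) ≤ ent (cpow Y b) :=
    fun hab => cpow_mono lY hab
  have m12 : ent (cpow Y 12) ≤ ent (cpow Y 16) := mono (by norm_num)
  have m4 : ent (cpow Y 4) ≤ ent (cpow Y 16) := mono (by norm_num)
  have m3 : ent (cpow Y 3) ≤ ent (cpow Y 16) := mono (by norm_num)
  have E4' : S.η * (ent (cpow Y 4) - S.Hb + 10 * S.k) ≤ δ := er _ (by linarith)
  have E12 : S.η * (ent (cpow Y 12) - S.Hb + 10 * S.k) ≤ δ := er _ (by linarith)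
  have E3' : S.η * (ent (cpow Y 3) - S.Hb) ≤ δ := er _ (by linarith)
  -- first application of the key inequality
  have p2 : conv Y Y = cpow Y 2 := by
    have := cpow_add Y 1 1
    rw [c1] at this
    exact this.symm
  have p3 : conv Y (cpow Y 2) = cpow Y 3 := by
    have := cpow_add Y 1 2
    rw [c1] at this
    exact this.symm
  have p4 : conv (cpow Y 2) (cpow Y 2) = cpow Y 4 := (cpow_add Y 2 2).symm
  have hδk : δ ≤ S.k := by rw [hδ]; linarith
  have K1 := key S (ρ := Y) (e := sl S) (f := f) (δ := δ) (fam_nice S FY)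
    (by rw [p2]; exact nc 2 (by norm_num)) (by rw [p2, p3]; exact nc 3 (by norm_num)) ls lf hef
    (by rw [p2, p4]; exact E4') hδk (by linarith)
  rw [p2, p3] at K1
  -- second application
  have q6 : conv (cpow Y 3) (cpow Y 3) = cpow Y 6 := (cpow_add Y 3 3).symm
  have q9 : conv (cpow Y 3) (cpow Y 6) = cpow Y 9 := (cpow_add Y 3 6).symm
  have q12 : conv (cpow Y 6) (cpow Y 6) = cpow Y 12 := (cpow_add Y 6 6).symm
  have hef' : conv (cpow (sl S) 3) (dil 2 (cpow Y 3)) = conv (cpow Y 3) (cpow f 3) := by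
    rw [dil_cpow, ← cpow_conv, hef, cpow_conv]
  have g3 := KZERO_three lY lf
  have K2 := key S (ρ := cpow Y 3) (e := cpow (sl S) 3) (f := cpow f 3) (δ := δ)
    (nc 3 (by norm_num)) (by rw [q6]; exact nc 6 (by norm_num))
    (by rw [q6, q9]; exact nc 9 (by norm_num)) (law_cpow ls 3) (law_cpow lf 3) hef'
    (by rw [q6, q12]; exact E12) hδk (by linarith)
  rw [q6, q9] at K2
  -- concavity
  have cc6 := cpow_conc lY 6
  have cc7 := cpow_conc lY 7
  norm_num at cc6 cc7
  have l3 := low 3 (by norm_num)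
  norm_num at l3
  rw [c1] at u1 v1
  rw [hδ] at v1 v2 v4 v8 E3' K1 K2
  linarith

end H890.TOR
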