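import Pool.Agent.H890R2.TOR.ALG1
import Pool.Agent.H137R2.PFR.Minim
import Pool.Agent.H137R2.PFR.Bsg
set_option autoImplicit false

/-! consequences of the minimality (team helper890, Marton in exponent `m` with exponent `O(log m)`). -/

open scoped Classical
open scoped Pointwise
set_option linter.unusedSectionVars false

namespace H890.TOR

open H137.PFR

variable {Ω Ω' α β γ δ : Type*} [Fintype Ω] [Fintype Ω'] [Fintype α] [Fintype β] [Fintype γ]
  [Fintype δ]
variable {V : Type*} [AddCommGroup V] [Fintype V]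

theorem LOW_min {η : ℝ} {μ₀ : V → ℝ} (h0 : Law μ₀) {t : ℝ}
    (ht : ∀ μ ν : V → ℝ, Law μ → Law ν → t ≤ tauE η μ₀ μ ν)
    {w : Ω → ℝ} (hw : Law w) (X Y : Ω → V) (C : Ω → γ) (hCI : CI w X Y C) :
    t ≤ (H w (fun ω => (X ω + Y ω, C ω)) - H w C)
      - (H w (fun ω => (X ω, C ω)) - H w C) / 2 - (H w (fun ω => (Y ω, C ω)) - H w C) / 2
      + η * ((E0 μ₀ w X C - H w C) - ent μ₀ / 2 - (H w (fun ω => (X ω, C ω)) - H w C) / 2
        + ((E0 μ₀ w Y C - H w C) - ent μ₀ / 2 - (H w (fun ω => (Y ω, C ω)) - H w C) / 2)) := by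
  have hp := law_push hw C
  have e1 : H w (fun ω => (X ω + Y ω, C ω)) - H w C =
      ∑ c, push w C c * ent (conv (cnd w X C c) (cnd w Y C c)) := by
    rw [H_chain hw (fun ω => X ω + Y ω) C, add_sub_cancel_left]
    refine Finset.sum_congr rfl fun c _ => ?_
    by_cases hc : push w C c = 0
    · rw [hc, zero_mul, zero_mul]
    · rw [B_cnd_add X Y C hCI hc]
  have e2 : ∀ X : Ω → V, H w (fun ω => (X ω, C ω)) - H w C =
      ∑ c, push w C c * ent (cnd w X C c) := by
    intro X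
    rw [H_chain hw X C, add_sub_cancel_left]
  have e3 : ∀ X : Ω → V, E0 μ₀ w X C - H w C = ∑ c, push w C c * ent (conv μ₀ (cnd w X C c)) := by
    intro X
    unfold E0
    rw [H_chain (law_prod h0 hw) (fun p : V × Ω => p.1 + X p.2) (fun p => C p.2),
      H_prod_snd h0 hw C, add_sub_cancel_left]
    refine Finset.sum_congr rfl fun c _ => ?_
    rw [B_push_snd h0]
    by_cases hc : push w C c = 0
    · rw [hc, zero_mul, zero_mul]
    · rw [B_cnd_E0 h0 w X C hc]
  have e4 : ∑ c, push w C c * (ent μ₀) = ent μ₀ := by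
    rw [← Finset.sum_mul, hp.2, one_mul]
  have e5 : t = ∑ c, push w C c * t := by
    rw [← Finset.sum_mul, hp.2, one_mul]
  have e6 : ∑ c, push w C c * t ≤
      ∑ c, push w C c * tauE η μ₀ (cnd w X C c) (cnd w Y C c) := by
    refine Finset.sum_le_sum fun c _ => ?_
    by_cases hc : push w C c = 0
    · rw [hc, zero_mul, zero_mul]
    · exact mul_le_mul_of_nonneg_left (ht _ _ (law_cnd hw X C hc) (law_cnd hw Y C hc)) (hp.1 c)
  rw [e1, e2, e2, e3, e3, e5]
  refine e6.trans (le_of_eq ?_)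
  conv_rhs => rw [← e4]
  simp only [Finset.sum_div, ← Finset.sum_sub_distrib, ← Finset.sum_add_distrib, Finset.mul_sum]
  refine Finset.sum_congr rfl fun c _ => ?_
  unfold tauE dst
  ring

theorem lower (S : Setup V) {w : Ω → ℝ} (hw : Law w) (X Y : Ω → V) (C : Ω → γ)
    (hCI : CI w X Y C)
    (hk : kap S (push w X) + kap S (push w Y) ≤ kap S S.μ₁ + kap S S.μ₂) :
    S.k ≤ (H w (fun ω => (X ω + Y ω, C ω)) - H w C)
      - (H w (fun ω => (X ω, C ω)) - H w C) / 2 - (H w (fun ω => (Y ω, C ω)) - H w C) / 2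
      + S.η * (H w X + H w Y - (H w (fun ω => (X ω, C ω)) - H w C) / 2
        - (H w (fun ω => (Y ω, C ω)) - H w C) / 2 - S.Hb) := by
  have h1 := LOW_min S.h0 S.hmin hw X Y C hCI
  have h2 := (E0_cond_le S.h0 hw X C).trans (le_of_eq (E0_push S.h0 hw X))
  have h3 := (E0_cond_le S.h0 hw Y C).trans (le_of_eq (E0_push S.h0 hw Y))
  have hX : ent (conv S.μ₀ (push w X)) = kap S (push w X) + H w X := by
    unfold kap H
    ring
  have hY : ent (conv S.μ₀ (push w Y)) = kap S (push w Y) + H w Y := by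
    unfold kap H
    ring
  rw [hX] at h2
  rw [hY] at h3
  have h4 : tauE S.η S.μ₀ S.μ₁ S.μ₂ =
      S.k + S.η * (kap S S.μ₁ + kap S S.μ₂ + S.Hb - ent S.μ₀) := by
    unfold tauE Setup.k Setup.Hb kap dst
    ring
  rw [h4] at h1
  have h5 := mul_le_mul_of_nonneg_left (add_le_add (add_le_add h2 h3) hk) S.hη.le
  nlinarith [h1, h5]

theorem lower_prod (S : Setup V) {w : Ω → ℝ} {w' : Ω' → ℝ} (hw : Law w) (hw' : Law w')
    (X : Ω → V) (C : Ω → γ) (Y : Ω' → V) (D : Ω' → δ)
    (hk : kap S (push w X) + kap S (push w' Y) ≤ kap S S.μ₁ + kap S S.μ₂) :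
    S.k ≤ H (prod w w') (fun p => (X p.1 + Y p.2, C p.1, D p.2)) - H w C - H w' D
      - (H w (fun ω => (X ω, C ω)) - H w C) / 2 - (H w' (fun ω => (Y ω, D ω)) - H w' D) / 2
      + S.η * (H w X + H w' Y - (H w (fun ω => (X ω, C ω)) - H w C) / 2
        - (H w' (fun ω => (Y ω, D ω)) - H w' D) / 2 - S.Hb) := by
  have hww := law_prod hw hw'
  have h1 := lower S hww (fun p => X p.1) (fun p => Y p.2) (fun p => (C p.1, D p.2))
    (CI_prod X C Y D) (by rw [push_prod_fst w hw' X, push_prod_snd hw w' Y]; exact hk)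
  have h2 : H (prod w w') (fun p => (C p.1, D p.2)) = H w C + H w' D := H_prod hw hw' C D
  have h3 : H (prod w w') (fun p => (X p.1, (C p.1, D p.2))) =
      H w (fun ω => (X ω, C ω)) + H w' D := by
    rw [← H_prod hw hw' (fun ω => (X ω, C ω)) D]
    exact H_eq hww (fun q : V × (γ × δ) => ((q.1, q.2.1), q.2.2))
      (fun q : (V × γ) × δ => (q.1.1, (q.1.2, q.2))) (fun _ => rfl) (fun _ => rfl)
  have h4 : H (prod w w') (fun p => (Y p.2, (C p.1, D p.2))) =
      H w C + H w' (fun ω => (Y ω, D ω)) := by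
    rw [← H_prod hw hw' C (fun ω => (Y ω, D ω))]
    exact H_eq hww (fun q : V × (γ × δ) => (q.2.1, (q.1, q.2.2)))
      (fun q : γ × (V × δ) => (q.2.1, (q.1, q.2.2))) (fun _ => rfl) (fun _ => rfl)
  have h5 : H (prod w w') (fun p => X p.1) = H w X := H_prod_fst hw hw' X
  have h6 : H (prod w w') (fun p => Y p.2) = H w' Y := H_prod_snd hw hw' Y
  rw [h2, h3, h4, h5, h6] at h1
  refine h1.trans (le_of_eq ?_)
  ring

end H890.TOR
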