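import Pool.Agent.H890R2.TOR.BSGL
set_option autoImplicit false

/-! low_self, low_E4, low_bsg (team helper890, Marton in exponent `m` with exponent `O(log m)`). -/

open scoped Classical
open scoped Pointwise
set_option linter.unusedSectionVars false

namespace H890.TOR

open H137.PFR

variable {Ω Ω' α β γ δ : Type*} [Fintype Ω] [Fintype Ω'] [Fintype α] [Fintype β] [Fintype γ]
  [Fintype δ]
variable {V : Type*} [AddCommGroup V] [Fintype V]

/-- a constant of the unit type can be dropped -/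
theorem LOW2A_unit {w : Ω → ℝ} (hw : Law w) (X : Ω → α) :
    H w (fun ω => (X ω, ())) = H w X :=
  H_eq hw (fun p : α × Unit => p.1) (fun a => (a, ())) (fun _ => rfl) (fun _ => rfl)

theorem LOW2A_pair {ρ : V → ℝ} (h : Law ρ) :
    H (prod ρ ρ) (fun p : V × V => (p.1, p.1 + p.2)) = 2 * ent ρ := by
  have h1 : H (prod ρ ρ) (fun p : V × V => (p.1, p.2)) = ent ρ + ent ρ := by
    rw [← H_id ρ]
    exact H_prod h h (fun x : V => x) (fun x : V => x)
  have h2 : H (prod ρ ρ) (fun p : V × V => (p.1, p.1 + p.2)) =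
      H (prod ρ ρ) (fun p : V × V => (p.1, p.2)) :=
    H_eq (law_prod h h) (fun q : V × V => (q.1, q.2 - q.1)) (fun q : V × V => (q.1, q.1 + q.2))
      (fun ω => by simp) (fun ω => by simp)
  rw [h2, h1]; ring

theorem LOW2A_fst {ρ : V → ℝ} (h : Law ρ) :
    push (prod ρ ρ) (fun p : V × V => p.1) = ρ := by
  have h1 := push_prod_fst ρ h (fun x : V => x)
  rw [h1, push_id']

theorem LOW2A_law4 {ρ : V → ℝ} (h : Law ρ) : Law (prod (prod ρ ρ) (prod ρ ρ)) :=
  law_prod (law_prod h h) (law_prod h h)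

theorem LOW2A_swap (ρ : V → ℝ) :
    (fun x : (V × V) × (V × V) => prod (prod ρ ρ) (prod ρ ρ) (Equiv.prodProdProdComm V V V V x)) =
      prod (prod ρ ρ) (prod ρ ρ) := by
  funext x
  obtain ⟨⟨a, b⟩, ⟨c, d⟩⟩ := x
  simp only [Equiv.prodProdProdComm_apply, prod]
  ring

theorem low_self (S : Setup V) {ρ : V → ℝ} (h1 : Nice S ρ) :
    S.k ≤ ent (conv ρ ρ) - ent ρ + S.η * (ent ρ - S.Hb) := by
  have hk : kap S (push ρ (fun x : V => x)) + kap S (push ρ (fun x : V => x)) ≤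
      kap S S.μ₁ + kap S S.μ₂ := by
    rw [push_id']
    have := h1.dom
    linarith
  have h := lower_prod S h1.law h1.law (fun x : V => x) (fun _ => ()) (fun x : V => x)
    (fun _ => ()) hk
  have e1 : H (prod ρ ρ) (fun p : V × V => (p.1 + p.2, (), ())) = ent (conv ρ ρ) := by
    have : H (prod ρ ρ) (fun p : V × V => (p.1 + p.2, (), ())) =
        H (prod ρ ρ) (fun p : V × V => p.1 + p.2) :=
      H_eq (law_prod h1.law h1.law) (fun q : V × (Unit × Unit) => q.1) (fun q : V => (q, (), ()))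
        (fun _ => rfl) (fun _ => rfl)
    rw [this]; rfl
  rw [e1, H_unit h1.law, LOW2A_unit h1.law (fun x : V => x), H_id] at h
  linarith

theorem low_E4 (S : Setup V) {ρ : V → ℝ} (h1 : Nice S ρ) :
    S.k ≤ E4 ρ - ent (conv ρ ρ) - 2 * ent ρ + S.η * (ent (conv ρ ρ) - S.Hb) := by
  have hl := law_prod h1.law h1.law
  have hk : kap S (push (prod ρ ρ) (fun p : V × V => p.1)) +
      kap S (push (prod ρ ρ) (fun p : V × V => p.1)) ≤ kap S S.μ₁ + kap S S.μ₂ := by
    rw [LOW2A_fst h1.law]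
    have := h1.dom
    linarith
  have h := lower_prod S hl hl (fun p : V × V => p.1) (fun p : V × V => p.1 + p.2)
    (fun p : V × V => p.1) (fun p : V × V => p.1 + p.2) hk
  have e1 : H (prod ρ ρ) (fun p : V × V => p.1 + p.2) = ent (conv ρ ρ) := rfl
  have e2 : H (prod ρ ρ) (fun p : V × V => p.1) = ent ρ := by
    unfold H; rw [LOW2A_fst h1.law]
  have e3 : H (prod (prod ρ ρ) (prod ρ ρ)) (fun p : (V × V) × (V × V) =>
      (p.1.1 + p.2.1, p.1.1 + p.1.2, p.2.1 + p.2.2)) = E4 ρ := rfl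
  rw [e3, e1, e2, LOW2A_pair h1.law] at h
  linarith

theorem low_bsg (S : Setup V) {ρ : V → ℝ} (h1 : Nice S ρ) (h2 : Nice S (conv ρ ρ)) :
    S.k ≤ 8 * ent (conv ρ ρ) - 3 * E4 ρ - 3 * ent (conv (conv ρ ρ) (conv ρ ρ)) + 2 * E3 ρ
      + S.η * (2 * ent (conv ρ ρ) - (E4 ρ - E3 ρ) - S.Hb) := by
  have hl := law_prod h1.law h1.law
  have hl4 := LOW2A_law4 h1.law
  have p1 : push (prod (prod ρ ρ) (prod ρ ρ)) (fun x : (V × V) × (V × V) => x.1.1 + x.1.2) =
      conv ρ ρ :=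
    push_prod_fst (prod ρ ρ) hl (fun p : V × V => p.1 + p.2)
  -- the swap
  have p2 : push (prod (prod ρ ρ) (prod ρ ρ)) (fun x : (V × V) × (V × V) => x.1.1 + x.2.1) =
      conv ρ ρ := by
    have h := push_equiv (Equiv.prodProdProdComm V V V V) (prod (prod ρ ρ) (prod ρ ρ))
      (fun x : (V × V) × (V × V) => x.1.1 + x.1.2)
    rw [LOW2A_swap, p1] at h
    exact h
  have p3 : push (prod (prod ρ ρ) (prod ρ ρ)) (fun x : (V × V) × (V × V) => -(x.1.1 + x.2.1)) =
      conv ρ ρ := by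
    have h := push_push (prod (prod ρ ρ) (prod ρ ρ))
      (fun x : (V × V) × (V × V) => x.1.1 + x.2.1) (fun v : V => -v)
    rw [← h, p2]
    have hs := h2.sym
    unfold dil at hs
    simpa using hs
  have hk : kap S (push (prod (prod ρ ρ) (prod ρ ρ))
        (fun x : (V × V) × (V × V) => x.1.1 + x.1.2)) +
      kap S (push (prod (prod ρ ρ) (prod ρ ρ))
        (fun x : (V × V) × (V × V) => -(x.1.1 + x.2.1))) ≤ kap S S.μ₁ + kap S S.μ₂ := by
    rw [p1, p3]
    have := h2.dom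
    linarith
  have h := bsg_lower S hl4 (fun x : (V × V) × (V × V) => x.1.1 + x.1.2)
    (fun x : (V × V) × (V × V) => x.1.1 + x.2.1)
    (fun x : (V × V) × (V × V) => x.1.1 + x.1.2 + (x.2.1 + x.2.2)) hk
  have e1 : H (prod (prod ρ ρ) (prod ρ ρ)) (fun x : (V × V) × (V × V) => x.1.1 + x.1.2) =
      ent (conv ρ ρ) := by unfold H; rw [p1]
  have e2 : H (prod (prod ρ ρ) (prod ρ ρ)) (fun x : (V × V) × (V × V) => x.1.1 + x.2.1) =
      ent (conv ρ ρ) := by unfold H; rw [p2]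
  have e3 : H (prod (prod ρ ρ) (prod ρ ρ)) (fun x : (V × V) × (V × V) =>
      (x.1.1 + x.1.2, x.2.1 + x.2.2)) = 2 * ent (conv ρ ρ) := by
    have := H_prod hl hl (fun p : V × V => p.1 + p.2) (fun p : V × V => p.1 + p.2)
    rw [this]
    have : H (prod ρ ρ) (fun p : V × V => p.1 + p.2) = ent (conv ρ ρ) := rfl
    rw [this]; ring
  have e4 : H (prod (prod ρ ρ) (prod ρ ρ)) (fun x : (V × V) × (V × V) =>
      (x.1.1 + x.1.2, x.1.1 + x.1.2 + (x.2.1 + x.2.2))) = 2 * ent (conv ρ ρ) := by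
    rw [← e3]
    exact H_eq hl4 (fun q : V × V => (q.1, q.2 - q.1)) (fun q : V × V => (q.1, q.1 + q.2))
      (fun ω => by simp) (fun ω => by simp)
  have e5 : H (prod (prod ρ ρ) (prod ρ ρ)) (fun x : (V × V) × (V × V) =>
      (x.1.1 + x.2.1, x.1.1 + x.1.2 + (x.2.1 + x.2.2))) = 2 * ent (conv ρ ρ) := by
    have h := H_equiv (Equiv.prodProdProdComm V V V V) (prod (prod ρ ρ) (prod ρ ρ))
      (fun x : (V × V) × (V × V) => (x.1.1 + x.1.2, x.1.1 + x.1.2 + (x.2.1 + x.2.2)))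
    rw [LOW2A_swap, e4] at h
    rw [← h]
    congr 1
    funext x
    simp only [Equiv.prodProdProdComm_apply, Prod.mk.injEq, true_and]
    abel
  have e6 : H (prod (prod ρ ρ) (prod ρ ρ)) (fun x : (V × V) × (V × V) =>
      (x.1.1 + x.1.2 + (x.1.1 + x.2.1), x.1.1 + x.1.2 + (x.2.1 + x.2.2))) = E3 ρ := rfl
  have e7 : H (prod (prod ρ ρ) (prod ρ ρ)) (fun x : (V × V) × (V × V) =>
      (x.1.1 + x.1.2, x.1.1 + x.2.1, x.1.1 + x.1.2 + (x.2.1 + x.2.2))) = E4 ρ := by
    unfold E4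
    exact H_eq hl4 (fun q : V × (V × V) => (q.2.1, q.1, q.2.2 - q.1))
      (fun q : V × (V × V) => (q.2.1, q.1, q.2.1 + q.2.2))
      (fun ω => by simp) (fun ω => by simp)
  have e8 : H (prod (prod ρ ρ) (prod ρ ρ)) (fun x : (V × V) × (V × V) =>
      x.1.1 + x.1.2 + (x.2.1 + x.2.2)) = ent (conv (conv ρ ρ) (conv ρ ρ)) :=
    (H_prod_push (prod ρ ρ) (prod ρ ρ) (fun p : V × V => p.1 + p.2)
      (fun p : V × V => p.1 + p.2) (fun p : V × V => p.1 + p.2)).symm
  rw [e4, e5, e6, e7, e8, e1, e2] at h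
  linarith

end H890.TOR
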