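import Pool.Agent.H890R2.TOR.ENT
import Pool.Agent.H890R2.TOR.ALG1
import Pool.Agent.H137R2.PFR.Wrap
set_option autoImplicit false

/-! set version in a finite group (team helper890, Marton in exponent `m` with exponent `O(log m)`). -/

open scoped Classical
open scoped Pointwise
set_option linter.unusedSectionVars false

namespace H890.TOR

open H137.PFR

variable {Ω Ω' α β γ δ : Type*} [Fintype Ω] [Fintype Ω'] [Fintype α] [Fintype β] [Fintype γ]
  [Fintype δ]
variable {V : Type*} [AddCommGroup V] [Fintype V]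

/-- uniform law on `A` -/
noncomputable def SET_u (A : Finset V) : V → ℝ := fun x => if x ∈ A then 1 / (A.card : ℝ) else 0

theorem SET_law {A : Finset V} (hA : A.Nonempty) : Law (SET_u A) := by
  have h0 : (0 : ℝ) < A.card := by exact_mod_cast hA.card_pos
  refine ⟨fun x => ?_, ?_⟩
  · unfold SET_u
    split_ifs
    · positivity
    · exact le_rfl
  · unfold SET_u
    rw [Finset.sum_ite_mem, Finset.univ_inter, Finset.sum_const, nsmul_eq_mul]
    field_simp

theorem SET_ent {A : Finset V} (hA : A.Nonempty) : ent (SET_u A) = Real.log A.card := by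
  have h0 : (0 : ℝ) < A.card := by exact_mod_cast hA.card_pos
  have h1 : ∀ x, Real.negMulLog (SET_u A x) =
      if x ∈ A then Real.negMulLog (1 / (A.card : ℝ)) else 0 := by
    intro x
    unfold SET_u
    split_ifs
    · rfl
    · exact Real.negMulLog_zero
  unfold ent
  simp only [h1]
  rw [Finset.sum_ite_mem, Finset.univ_inter, Finset.sum_const, nsmul_eq_mul, Real.negMulLog,
    one_div, Real.log_inv]
  field_simp

theorem SET_supp_conv {a b : V → ℝ} {S T : Finset V} (ha : ∀ x, x ∉ S → a x = 0)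
    (hb : ∀ x, x ∉ T → b x = 0) : ∀ v, v ∉ S + T → conv a b v = 0 := by
  intro v hv
  unfold conv push prod
  refine Finset.sum_eq_zero fun p _ => ?_
  split_ifs with h
  · by_cases h1 : p.1 ∈ S
    · by_cases h2 : p.2 ∈ T
      · exact absurd (h ▸ Finset.add_mem_add h1 h2) hv
      · rw [hb _ h2, mul_zero]
    · rw [ha _ h1, zero_mul]
  · rfl

theorem SET_supp_dil {a : V → ℝ} {S : Finset V} (ha : ∀ x, x ∉ S → a x = 0) :
    ∀ v, v ∉ -S → dil (-1) a v = 0 := by
  intro v hv
  unfold dil push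
  refine Finset.sum_eq_zero fun x _ => ?_
  split_ifs with h
  · apply ha
    intro hx
    apply hv
    have h' : -x = v := by
      rw [← h]
      simp
    rw [← h']
    exact Finset.neg_mem_neg hx
  · rfl

/-- the symmetric law -/
noncomputable def SET_mu (A : Finset V) : V → ℝ := conv (SET_u A) (dil (-1) (SET_u A))

theorem SET_mu_law {A : Finset V} (hA : A.Nonempty) : Law (SET_mu A) :=
  law_conv (SET_law hA) (law_dil (SET_law hA) _)

theorem SET_mu_sym (A : Finset V) : dil (-1) (SET_mu A) = SET_mu A := by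
  unfold SET_mu
  rw [dil_conv, dil_dil, conv_comm]
  norm_num
  rw [dil_one]

theorem SET_ent_le {A : Finset V} (hA : A.Nonempty) : Real.log A.card ≤ ent (SET_mu A) := by
  rw [← SET_ent hA]
  exact ent_le_conv_left (SET_law hA) (law_dil (SET_law hA) _)

theorem SET_supp1 (A : Finset V) : ∀ v, v ∉ A - A → SET_mu A v = 0 := by
  have h : ∀ x, x ∉ A → SET_u A x = 0 := fun x hx => by
    unfold SET_u
    rw [if_neg hx]
  have h1 := SET_supp_conv h (SET_supp_dil h)
  intro v hv
  apply h1
  rwa [← sub_eq_add_neg]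

theorem SET_supp2 (A : Finset V) : ∀ v, v ∉ (A - A) + (A - A) → conv (SET_mu A) (SET_mu A) v = 0 :=
  SET_supp_conv (SET_supp1 A) (SET_supp1 A)

theorem SET_K1 {A : Finset V} (hA : A.Nonempty) {K : ℝ} (hK : ((A + A).card : ℝ) ≤ K * A.card) :
    1 ≤ K := by
  have h0 : (0 : ℝ) < A.card := by exact_mod_cast hA.card_pos
  have h1 : (A.card : ℝ) ≤ (A + A).card := by
    exact_mod_cast Finset.card_le_card_add_right hA
  by_contra h
  rw [not_le] at h
  nlinarith

theorem SET_plu {A : Finset V} (hA : A.Nonempty) {K : ℝ} (hK : ((A + A).card : ℝ) ≤ K * A.card)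
    (n : ℕ) : ((n • A - n • A).card : ℝ) ≤ K ^ (n + n) * A.card := by
  have h0 : (0 : ℝ) < A.card := by exact_mod_cast hA.card_pos
  have h1 := Finset.pluennecke_ruzsa_inequality_nsmul_sub_nsmul_add hA A n n
  have h2 : ((n • A - n • A).card : ℝ) ≤ (((A + A).card : ℝ) / A.card) ^ (n + n) * A.card := by
    have h3 := (NNRat.cast_le (K := ℝ)).2 h1
    push_cast at h3
    exact h3
  refine h2.trans ?_
  gcongr
  rw [div_le_iff₀ h0]
  exact hK

theorem SET_ent_up1 {A : Finset V} (hA : A.Nonempty) {K : ℝ}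
    (hK : ((A + A).card : ℝ) ≤ K * A.card) : ent (SET_mu A) ≤ 2 * Real.log K + Real.log A.card := by
  have h0 : (0 : ℝ) < A.card := by exact_mod_cast hA.card_pos
  have hK1 := SET_K1 hA hK
  have h1 := ent_le_log_card (SET_mu_law hA) _ (SET_supp1 A)
  have h2 := SET_plu hA hK 1
  rw [one_nsmul] at h2
  have h3 : (0 : ℝ) < (A - A).card := by exact_mod_cast (hA.sub hA).card_pos
  refine h1.trans ((Real.log_le_log h3 h2).trans ?_)
  rw [Real.log_mul (by positivity) h0.ne', Real.log_pow]
  norm_num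

theorem SET_ent_up2 {A : Finset V} (hA : A.Nonempty) {K : ℝ}
    (hK : ((A + A).card : ℝ) ≤ K * A.card) :
    ent (conv (SET_mu A) (SET_mu A)) ≤ 4 * Real.log K + Real.log A.card := by
  have h0 : (0 : ℝ) < A.card := by exact_mod_cast hA.card_pos
  have hK1 := SET_K1 hA hK
  have h1 := ent_le_log_card (law_conv (SET_mu_law hA) (SET_mu_law hA)) _ (SET_supp2 A)
  have h2 := SET_plu hA hK 2
  have e : (A - A) + (A - A) = 2 • A - 2 • A := by
    rw [two_nsmul, add_sub_add_comm]
  rw [← e] at h2
  have h3 : (0 : ℝ) < ((A - A) + (A - A)).card := by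
    exact_mod_cast ((hA.sub hA).add (hA.sub hA)).card_pos
  refine h1.trans ((Real.log_le_log h3 h2).trans ?_)
  rw [Real.log_mul (by positivity) h0.ne', Real.log_pow]
  norm_num

theorem SET_coset {A : Finset V} (hA : A.Nonempty) (G : AddSubgroup V) :
    ∃ z : V ⧸ G, Real.exp (-entMod (SET_mu A) G) * A.card ≤
      (A.filter (fun a => (QuotientAddGroup.mk a : V ⧸ G) = z)).card := by
  have h0 : (0 : ℝ) < A.card := by exact_mod_cast hA.card_pos
  have hu := SET_law hA
  have h1 := ent_le_conv_left (law_push hu (fun x : V => (QuotientAddGroup.mk x : V ⧸ G)))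
    (law_push (law_dil hu (-1)) (fun x : V => (QuotientAddGroup.mk x : V ⧸ G)))
  rw [← push_conv_mk] at h1
  obtain ⟨z, hz⟩ := exists_exp_le (law_push hu (fun x : V => (QuotientAddGroup.mk x : V ⧸ G)))
  refine ⟨z, ?_⟩
  have h2 : push (SET_u A) (fun x : V => (QuotientAddGroup.mk x : V ⧸ G)) z =
      ((A.filter (fun a => (QuotientAddGroup.mk a : V ⧸ G) = z)).card : ℝ) / A.card := by
    unfold push SET_u
    trans (∑ x : V, if x ∈ A.filter (fun a => (QuotientAddGroup.mk a : V ⧸ G) = z)
        then 1 / (A.card : ℝ) else 0)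
    · refine Finset.sum_congr rfl fun x _ => ?_
      by_cases h4 : (QuotientAddGroup.mk x : V ⧸ G) = z
      · by_cases h5 : x ∈ A
        · rw [if_pos h4, if_pos h5, if_pos (Finset.mem_filter.2 ⟨h5, h4⟩)]
        · have h6 : x ∉ A.filter (fun a => (QuotientAddGroup.mk a : V ⧸ G) = z) :=
            fun h => h5 (Finset.mem_filter.1 h).1
          rw [if_pos h4, if_neg h5, if_neg h6]
      · have h6 : x ∉ A.filter (fun a => (QuotientAddGroup.mk a : V ⧸ G) = z) :=
          fun h => h4 (Finset.mem_filter.1 h).2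
        rw [if_neg h4, if_neg h6]
    · rw [Finset.sum_ite_mem, Finset.univ_inter, Finset.sum_const, nsmul_eq_mul]
      ring
  rw [h2] at hz
  have h4 : Real.exp (-entMod (SET_mu A) G) ≤
      Real.exp (-ent (push (SET_u A) (fun x : V => (QuotientAddGroup.mk x : V ⧸ G)))) := by
    apply Real.exp_le_exp.2
    have : ent (push (SET_u A) (fun x : V => (QuotientAddGroup.mk x : V ⧸ G))) ≤
      entMod (SET_mu A) G := h1
    linarith
  have h5 := h4.trans hz
  rwa [le_div_iff₀ h0] at h5

/-- adding one element to a subgroup of a group of exponent `m` -/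
theorem SET_card_sup {m : ℕ} (hV : ∀ x : V, m • x = 0) (hm : 2 ≤ m) (G : AddSubgroup V) (x : V) :
    Nat.card (G ⊔ AddSubgroup.zmultiples x : AddSubgroup V) ≤ m * Nat.card G := by
  have hm0 : 0 < m := by omega
  haveI : NeZero m := ⟨by omega⟩
  have h1 : ∀ y ∈ (G ⊔ AddSubgroup.zmultiples x : AddSubgroup V), ∃ g ∈ G, ∃ i : Fin m,
      g + (i : ℕ) • x = y := by
    intro y hy
    rw [AddSubgroup.mem_sup] at hy
    obtain ⟨g, hg, z, hz, rfl⟩ := hy
    rw [AddSubgroup.mem_zmultiples_iff] at hz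
    obtain ⟨k, rfl⟩ := hz
    refine ⟨g, hg, ⟨(k % (m : ℤ)).toNat, ?_⟩, ?_⟩
    · have := Int.emod_lt_of_pos k (show (0 : ℤ) < m by exact_mod_cast hm0)
      have h0 := Int.emod_nonneg k (show (m : ℤ) ≠ 0 by exact_mod_cast hm0.ne')
      omega
    · congr 1
      have h0 := Int.emod_nonneg k (show (m : ℤ) ≠ 0 by exact_mod_cast hm0.ne')
      have h2 : (((k % (m : ℤ)).toNat : ℕ) : ℤ) = k % (m : ℤ) := Int.toNat_of_nonneg h0
      rw [← natCast_zsmul, h2]
      conv_rhs => rw [← Int.emod_add_mul_ediv k (m : ℤ), add_zsmul]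
      have h3 : ((m : ℤ) * (k / (m : ℤ))) • x = 0 := by
        rw [mul_comm, mul_zsmul, natCast_zsmul, hV, zsmul_zero]
      rw [h3, add_zero]
  have h2 : Nat.card (G ⊔ AddSubgroup.zmultiples x : AddSubgroup V) ≤ Nat.card (G × Fin m) := by
    apply Nat.card_le_card_of_surjective
      (fun p : G × Fin m => (⟨(p.1 : V) + (p.2 : ℕ) • x,
        AddSubgroup.add_mem _ (AddSubgroup.mem_sup_left p.1.2)
          (AddSubgroup.mem_sup_right (AddSubgroup.nsmul_mem _ (AddSubgroup.mem_zmultiples x) _))⟩ :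
        (G ⊔ AddSubgroup.zmultiples x : AddSubgroup V)))
    intro y
    obtain ⟨g, hg, i, hi⟩ := h1 y.1 y.2
    exact ⟨(⟨g, hg⟩, i), Subtype.ext hi⟩
  rw [Nat.card_prod, Nat.card_fin] at h2
  linarith

/-- shrinking a subgroup -/
theorem SET_shrink {m : ℕ} (hV : ∀ x : V, m • x = 0) (hm : 2 ≤ m) (G : AddSubgroup V) {N : ℕ}
    (hN : 0 < N) : ∃ G' : AddSubgroup V, G' ≤ G ∧ Nat.card G' ≤ N ∧
      (Nat.card G ≤ Nat.card G' ∨ N ≤ m * Nat.card G') := by
  classical
  obtain ⟨G', hG', hmax⟩ := Set.Finite.exists_maximalFor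
    (fun H : AddSubgroup V => Nat.card H) {H : AddSubgroup V | H ≤ G ∧ Nat.card H ≤ N}
    (Set.toFinite _) ⟨⊥, bot_le, by
      rw [AddSubgroup.card_bot]
      omega⟩
  refine ⟨G', hG'.1, hG'.2, ?_⟩
  by_cases h : G' = G
  · left
    rw [h]
  · right
    obtain ⟨x, hxG, hx⟩ := SetLike.exists_of_lt (lt_of_le_of_ne hG'.1 h)
    have h1 : G' < G' ⊔ AddSubgroup.zmultiples x := by
      rw [left_lt_sup]
      intro hle
      exact hx (hle (AddSubgroup.mem_zmultiples x))
    have h2 : Nat.card G' < Nat.card (G' ⊔ AddSubgroup.zmultiples x : AddSubgroup V) := by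
      by_contra hcon
      rw [not_lt] at hcon
      exact h1.ne (AddSubgroup.eq_of_le_of_card_ge h1.le hcon)
    have h3 := SET_card_sup hV hm G' x
    have h4 : ¬ (G' ⊔ AddSubgroup.zmultiples x) ∈ {H : AddSubgroup V | H ≤ G ∧ Nat.card H ≤ N} := by
      intro hmem
      have := hmax hmem h2.le
      simp only at this
      omega
    have h5 : G' ⊔ AddSubgroup.zmultiples x ≤ G := by
      apply sup_le hG'.1
      rw [AddSubgroup.zmultiples_le]
      exact hxG
    have h6 : ¬ Nat.card (G' ⊔ AddSubgroup.zmultiples x : AddSubgroup V) ≤ N := fun h7 => h4 ⟨h5, h7⟩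
    omega

/-- representatives of `G'` in `G` -/
theorem SET_reps {G' G : AddSubgroup V} (h : G' ≤ G) :
    ∃ R : Finset V, R.card * Nat.card G' = Nat.card G ∧ ∀ g ∈ G, ∃ r ∈ R, g - r ∈ G' := by
  classical
  set s : Set (V ⧸ G') := Set.range (fun g : G => (QuotientAddGroup.mk (g : V) : V ⧸ G')) with hs
  set R : Finset V := (s.toFinset).image (fun c => Quotient.out c) with hR
  have hcard : R.card = (G'.addSubgroupOf G).index := by
    rw [hR, Finset.card_image_of_injective _ Quotient.out_injective, AddSubgroup.index,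
      Nat.card_eq_fintype_card, Set.toFinset_card]
    symm
    apply Fintype.card_of_bijective
      (f := fun c : G ⧸ (G'.addSubgroupOf G) => (⟨Quotient.liftOn' c
        (fun g : G => (QuotientAddGroup.mk (g : V) : V ⧸ G')) (by
          intro a b hab
          rw [QuotientAddGroup.leftRel_apply] at hab
          rw [QuotientAddGroup.eq]
          exact hab), by
          induction c using Quotient.inductionOn' with
          | h g => exact ⟨g, rfl⟩⟩ : s))
    constructor
    · intro c d hcd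
      induction c using Quotient.inductionOn' with
      | h g =>
        induction d using Quotient.inductionOn' with
        | h g' =>
          have h1 := congrArg Subtype.val hcd
          have h2 : (QuotientAddGroup.mk (g : V) : V ⧸ G') = QuotientAddGroup.mk (g' : V) := h1
          rw [QuotientAddGroup.eq] at h2
          exact QuotientAddGroup.eq.2 h2
    · rintro ⟨_, g, rfl⟩
      exact ⟨QuotientAddGroup.mk g, rfl⟩
  refine ⟨R, ?_, ?_⟩
  · rw [hcard]
    have h1 := AddSubgroup.card_mul_index (G'.addSubgroupOf G)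
    have h2 : Nat.card (G'.addSubgroupOf G) = Nat.card G' :=
      Nat.card_congr (AddSubgroup.addSubgroupOfEquivOfLe h).toEquiv
    rw [h2] at h1
    rw [mul_comm]
    exact h1
  · intro g hg
    refine ⟨Quotient.out (QuotientAddGroup.mk g : V ⧸ G'), ?_, ?_⟩
    · rw [hR, Finset.mem_image]
      exact ⟨_, by rw [Set.mem_toFinset]; exact ⟨⟨g, hg⟩, rfl⟩, rfl⟩
    · have h1 : (QuotientAddGroup.mk (Quotient.out (QuotientAddGroup.mk g : V ⧸ G')) : V ⧸ G') =
          QuotientAddGroup.mk g := Quotient.out_eq' _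
      rw [QuotientAddGroup.eq] at h1
      have : g - Quotient.out (QuotientAddGroup.mk g : V ⧸ G') =
        -Quotient.out (QuotientAddGroup.mk g : V ⧸ G') + g := by abel
      rw [this]
      exact h1

theorem set_version {m J : ℕ} (hV : ∀ x : V, m • x = 0) (hm : 2 ≤ m) (hJ : m ≤ 2 ^ J)
    (A : Finset V) (hA : A.Nonempty) {K : ℝ} (hK : ((A + A).card : ℝ) ≤ K * A.card) :
    ∃ (G : AddSubgroup V) (T : Finset V), Nat.card G ≤ A.card ∧
      (T.card : ℝ) ≤ (2 * K) ^ (200000 * J) ∧ ∀ a ∈ A, ∃ t ∈ T, a - t ∈ G := by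
  classical
  have h0 : (0 : ℝ) < A.card := by exact_mod_cast hA.card_pos
  have hK1 := SET_K1 hA hK
  have hK0 : (0 : ℝ) < K := by linarith
  have hJ1 : 1 ≤ J := by
    rcases Nat.eq_zero_or_pos J with h | h
    · rw [h] at hJ
      omega
    · exact h
  obtain ⟨G, hG1, hG2⟩ := entropic hV hm hJ (SET_mu_law hA) (SET_mu_sym A)
  have hlK : 0 ≤ Real.log K := Real.log_nonneg hK1
  have hd : ent (conv (SET_mu A) (SET_mu A)) - ent (SET_mu A) ≤ 4 * Real.log K := by
    linarith [SET_ent_up2 hA hK, SET_ent_le hA]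
  -- `E = K ^ N`, `N = 4 (20000 J + 2)`
  set N : ℕ := 4 * (20000 * J + 2) with hN
  have hc : (20000 * (J : ℝ) + 2) * (ent (conv (SET_mu A) (SET_mu A)) - ent (SET_mu A)) ≤
      N * Real.log K := by
    have h1 : (0 : ℝ) ≤ 20000 * (J : ℝ) + 2 := by positivity
    have h2 := mul_le_mul_of_nonneg_left hd h1
    refine h2.trans (le_of_eq ?_)
    rw [hN]
    push_cast
    ring
  have hc1 : entMod (SET_mu A) G ≤ N * Real.log K := hG1.trans hc
  have hc2 : Real.log (Nat.card G) ≤ N * Real.log K + (2 * Real.log K + Real.log A.card) := by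
    linarith [hG2.trans hc, SET_ent_up1 hA hK]
  have hGpos : (0 : ℝ) < Nat.card G := by exact_mod_cast Nat.card_pos
  have hGcard : (Nat.card G : ℝ) ≤ K ^ N * K ^ 2 * A.card := by
    rw [← Real.log_le_log_iff hGpos (by positivity), Real.log_mul (by positivity) h0.ne',
      Real.log_mul (by positivity) (by positivity), Real.log_pow, Real.log_pow]
    push_cast
    linarith
  obtain ⟨z, hz⟩ := SET_coset hA G
  set A1 := A.filter (fun a => (QuotientAddGroup.mk a : V ⧸ G) = z) with hA1
  have hz2 : (K ^ N)⁻¹ * A.card ≤ A1.card := by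
    refine le_trans ?_ hz
    apply mul_le_mul_of_nonneg_right _ h0.le
    rw [← Real.log_le_log_iff (by positivity) (Real.exp_pos _), Real.log_exp, Real.log_inv,
      Real.log_pow]
    linarith
  have hA1pos : (0 : ℝ) < A1.card := lt_of_lt_of_le (by positivity) hz2
  have hA1ne : A1.Nonempty := by
    rw [← Finset.card_pos]
    exact_mod_cast hA1pos
  have hcov : ((A + A1).card : ℝ) ≤ (K * K ^ N) * A1.card := by
    have h1 : ((A + A1).card : ℝ) ≤ (A + A).card := by
      exact_mod_cast Finset.card_le_card (Finset.add_subset_add_left (Finset.filter_subset _ _))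
    calc ((A + A1).card : ℝ) ≤ K * A.card := h1.trans hK
      _ = (K * K ^ N) * ((K ^ N)⁻¹ * A.card) := by field_simp
      _ ≤ _ := by gcongr
  obtain ⟨F, hFA, hF, hAF⟩ := Finset.ruzsa_covering_add hA1ne hcov
  obtain ⟨G', hG', hcard, hor⟩ := SET_shrink hV hm G hA.card_pos
  obtain ⟨R, hR1, hR2⟩ := SET_reps hG'
  have hG'pos : (0 : ℝ) < Nat.card G' := by exact_mod_cast Nat.card_pos
  have hm1 : (1 : ℝ) ≤ m := by exact_mod_cast (by omega : 1 ≤ m)
  have hRcard : (R.card : ℝ) ≤ m * K ^ N * K ^ 2 := by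
    have h1 : (R.card : ℝ) * Nat.card G' = Nat.card G := by exact_mod_cast hR1
    rcases hor with h | h
    · have h2 : (Nat.card G : ℝ) ≤ Nat.card G' := by exact_mod_cast h
      have h3 : (R.card : ℝ) ≤ 1 := by
        by_contra hcon
        rw [not_le] at hcon
        nlinarith
      refine h3.trans ?_
      have h4 : (1 : ℝ) ≤ K ^ N := one_le_pow₀ hK1
      have h5 : (1 : ℝ) ≤ K ^ 2 := one_le_pow₀ hK1
      calc (1 : ℝ) = 1 * 1 * 1 := by ring
        _ ≤ m * K ^ N * K ^ 2 := by gcongr
    · have h2 : (A.card : ℝ) ≤ m * Nat.card G' := by exact_mod_cast h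
      have h3 : (R.card : ℝ) * Nat.card G' ≤ (m * K ^ N * K ^ 2) * Nat.card G' := by
        rw [h1]
        calc (Nat.card G : ℝ) ≤ K ^ N * K ^ 2 * A.card := hGcard
          _ ≤ K ^ N * K ^ 2 * (m * Nat.card G') := by gcongr
          _ = _ := by ring
      exact le_of_mul_le_mul_right h3 hG'pos
  refine ⟨G', F + R, hcard, ?_, ?_⟩
  · have h1 : ((F + R).card : ℝ) ≤ F.card * R.card := by
      exact_mod_cast Finset.card_add_le
    calc ((F + R).card : ℝ) ≤ F.card * R.card := h1
      _ ≤ (K * K ^ N) * (m * K ^ N * K ^ 2) := by gcongr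
      _ = m * K ^ (2 * N + 3) := by ring
      _ ≤ 2 ^ J * K ^ (2 * N + 3) := by
          gcongr
          exact_mod_cast hJ
      _ ≤ 2 ^ (200000 * J) * K ^ (200000 * J) := by
          have h2 : J ≤ 200000 * J := by omega
          have h3 : 2 * N + 3 ≤ 200000 * J := by omega
          exact mul_le_mul (pow_le_pow_right₀ (by norm_num) h2) (pow_le_pow_right₀ hK1 h3)
            (by positivity) (by positivity)
      _ = (2 * K) ^ (200000 * J) := by rw [mul_pow]
  · intro a ha
    have h1 := hAF ha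
    rw [Finset.mem_add] at h1
    obtain ⟨f, hf, d, hd', hfd⟩ := h1
    rw [Finset.mem_sub] at hd'
    obtain ⟨b, hb, c, hc', hbc⟩ := hd'
    have hb2 : (QuotientAddGroup.mk b : V ⧸ G) = z := (Finset.mem_filter.1 hb).2
    have hc3 : (QuotientAddGroup.mk c : V ⧸ G) = z := (Finset.mem_filter.1 hc').2
    have hdG : d ∈ G := by
      have h2 : (QuotientAddGroup.mk c : V ⧸ G) = QuotientAddGroup.mk b := by rw [hb2, hc3]
      rw [QuotientAddGroup.eq] at h2
      rw [← hbc]
      have : b - c = -c + b := by abel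
      rw [this]
      exact h2
    obtain ⟨r, hr, hdr⟩ := hR2 d hdG
    refine ⟨f + r, Finset.add_mem_add hf hr, ?_⟩
    have : a - (f + r) = d - r := by
      rw [← hfd]
      abel
    rw [this]
    exact hdr

end H890.TOR
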